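import Mathlib

/-!
# Definitions for a general weight complex
-/

set_option autoImplicit false

open Module

namespace Pool.Agent.H849.SF

section One

variable {K : Type*} [Field K] {E : Type*} [AddCommGroup E] [Module K E]

/-- `δ = [N', [L', d]]`. -/
def cod (N' L' d : Module.End K E) : Module.End K E :=
  N' * (L' * d - d * L') - (L' * d - d * L') * N'

/-- The Laplace operator `Δ = d δ + δ d`. -/
def lap (N' L' d : Module.End K E) : Module.End K E :=
  d * cod N' L' d + cod N' L' d * d

/-- `d` vanishes on the null component of `D` (the sum of the kernels of the powers of `D`). -/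
def VanishesOnNull (D d : Module.End K E) : Prop := ∀ (m : ℕ) (x : E), (D ^ m) x = 0 → d x = 0

/-- `Q` is a projection which commutes with the operators, so that the space is the direct sum of the
kernel `S` and the image `T` of `Q`; on `T` we have `N ^ 2 = 0`, and `d` vanishes on the null
component of the Laplace operator on `S`. -/
structure IsSplitting (N N' L L' d Q : Module.End K E) : Prop where
  idem : ∀ x, Q (Q x) = Q x
  comm_N : Commute N Q
  comm_N' : Commute N' Q
  comm_L : Commute L Q
  comm_dual : Commute L' Q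
  comm_D : Commute d Q
  square : ∀ x, N (N (Q x)) = 0
  strong : ∀ (m : ℕ) (x : E), Q x = 0 → (lap N' L' d ^ m) x = 0 → d x = 0

end One

section Family

universe u v

variable {ι : Type} {Ω : ι → Type u} [∀ ℓ, Field (Ω ℓ)] [∀ ℓ, CharZero (Ω ℓ)] {E : ι → Type v}
  [∀ ℓ, AddCommGroup (E ℓ)] [∀ ℓ, Module (Ω ℓ) (E ℓ)] [∀ ℓ, Module.Finite (Ω ℓ) (E ℓ)]

/-- The characteristic polynomials of the `f ℓ` are rational and independent of `ℓ`. -/
def IsRationalFamily (f : ∀ ℓ, Module.End (Ω ℓ) (E ℓ)) : Prop :=
  ∃ P : Polynomial ℚ, ∀ ℓ, (f ℓ).charpoly = P.map (algebraMap ℚ (Ω ℓ))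

/-- A ring `A` which acts on the spaces `E ℓ`, `ℓ ∈ ι`, such that the operators `N ℓ`, `N' ℓ`, `L ℓ`,
`d ℓ` are given by elements of `A` independent of `ℓ`, and such that the characteristic polynomial
of every element of `A` is rational and independent of `ℓ`. -/
structure CorrespondenceRing (A : Type) [Ring A] (N N' L d : ∀ ℓ, Module.End (Ω ℓ) (E ℓ)) where
  real : ∀ ℓ, A →+* Module.End (Ω ℓ) (E ℓ)
  opN : A
  opN' : A
  opL : A
  opD : A
  real_N : ∀ ℓ, real ℓ opN = N ℓ
  real_N' : ∀ ℓ, real ℓ opN' = N' ℓ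
  real_L : ∀ ℓ, real ℓ opL = L ℓ
  real_D : ∀ ℓ, real ℓ opD = d ℓ
  rational : ∀ a : A, IsRationalFamily fun ℓ => real ℓ a

end Family

end Pool.Agent.H849.SF
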