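import Pool.Graph.R_seed8.Y143.Defs
import Pool.Agent.H849.SF.Gen

/-!
# The total `E_1` term of the weight spectral sequence and its operators: definitions

We use the cohomology `StrataData` of the strata `Y^(a+1)` of a semistable special fibre and the
weight spectral sequence from `Y143.Defs`.
-/

set_option autoImplicit false

namespace Pool.Agent.H849.SF

universe u v

open Module Pool.Agent.Y143

/-- `Λ` is the dual Lefschetz operator on the cohomology `⨁ gr m` of a smooth projective variety of
dimension `d`: it has degree `-2`, and `[L, Λ]` is multiplication by `m - d` on `gr m`. (By the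
hard Lefschetz theorem there is exactly one such operator. The standard conjecture of Lefschetz type
for the variety says that it is induced by an algebraic cycle.) -/
structure IsDualLefschetz {Ω : Type u} [Field Ω] {H : Type v} [AddCommGroup H] [Module Ω H]
    (gr : ℤ → Submodule Ω H) (d : ℤ) (L Λ : Module.End Ω H) : Prop where
  degree : ∀ m x, x ∈ gr m → Λ x ∈ gr (m - 2)
  bracket : ∀ m x, x ∈ gr m → L (Λ x) - Λ (L x) = ((m - d : ℤ) : Ω) • x

section Total

variable {Ω : Type u} [Field Ω] {Γ : Type} (Y : StrataData.{u, v} Ω Γ)

/-- The projection of families `(x r)`, `r ∈ ℤ`, of elements of `C`, which replaces `x r` by its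
components in the `r`-th column. -/
noncomputable def cutAll : Module.End Ω (ℤ → Y.C) :=
  LinearMap.pi fun r => Y.cut r ∘ₗ LinearMap.proj r

/-- The total `E_1` term `⨁ E_1^(r, w)`: families `(x r)`, `r ∈ ℤ`, such that `x r` is concentrated
in the components of the `r`-th column (the sum over `w` of the `E_1^(r, w)`). -/
def Total : Type v := LinearMap.range (cutAll Y)

noncomputable instance : AddCommGroup (Total Y) :=
  Submodule.addCommGroup (LinearMap.range (cutAll Y))

noncomputable instance : Module Ω (Total Y) := Submodule.module (LinearMap.range (cutAll Y))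

/-- The operator which maps `(x r)` to the components of `g r (x (r - k))` in the column `r`. -/
noncomputable def colOp (k : ℤ) (g : ℤ → Module.End Ω Y.C) : Module.End Ω (Total Y) :=
  (cutAll Y).rangeRestrict ∘ₗ (LinearMap.pi fun r => g r ∘ₗ LinearMap.proj (r - k)) ∘ₗ
    (LinearMap.range (cutAll Y)).subtype

/-- The operator on `C` given by the operators `f a` on the components. -/
def compMap (f : ∀ a, Module.End Ω (Y.H a)) : Module.End Ω Y.C :=
  LinearMap.pi fun a => f a ∘ₗ LinearMap.proj a

/-- The monodromy operator `N`, from the column `r - 2` to the column `r`. -/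
noncomputable def totN : Module.End Ω (Total Y) := colOp Y 2 fun _ => 1

/-- The coefficient `(a + r + 2) (a - r) / 4` of the operator `N'`. -/
def coef (r : ℤ) (a : ℕ) : Ω := (((a + r + 2) * (a - r) : ℤ) : Ω) / 4

/-- The operator `N'`, from the column `r + 2` to the column `r`. It is the multiplication by
rational numbers which gives, with `N`, the relation `[N, N'] = r` on the column `r`. -/
noncomputable def totN' : Module.End Ω (Total Y) :=
  colOp Y (-2) fun r => compMap Y fun a => coef (Ω := Ω) r a • 1

/-- The differential `d_1` (restriction plus Gysin map), from the column `r - 1` to the column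
`r`. -/
noncomputable def totD : Module.End Ω (Total Y) := colOp Y 1 fun _ => Y.resC + Y.gysC

/-- An operator given by operators on the cohomology of the strata, on all columns. -/
noncomputable def totOp (f : ∀ a, Module.End Ω (Y.H a)) : Module.End Ω (Total Y) :=
  colOp Y 0 fun _ => compMap Y f

/-- The operator `Δ = d_1 δ + δ d_1`, where `δ = [N', [Λ, d_1]]`. -/
noncomputable def laplace (lam : ∀ a, Module.End Ω (Y.H a)) : Module.End Ω (Total Y) :=
  lap (totN' Y) (totOp Y lam) (totD Y)

/-- The strong form of the conjecture: `d_1` vanishes on the null component of `Δ` (the sum of the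
kernels of the powers of `Δ`). -/
def StrongForm (lam : ∀ a, Module.End Ω (Y.H a)) : Prop :=
  VanishesOnNull (laplace Y lam) (totD Y)

/-- No three components of the special fibre meet. -/
def NoTriplePoints : Prop := ∀ (a : ℕ), 2 ≤ a → ∀ x : Y.H a, x = 0

/-- The total `E_1` term is a direct sum `S ⊕ T`, both stable under `N`, `N'`, `L`, `Λ` and `d_1`,
such that `N ^ 2 = 0` on `T` and such that `S` satisfies the strong form (as is the case if `S`
consists of classes for which the intersection forms have the positivity predicted by the standard
conjecture of Hodge type). This holds with `S = 0` if there are no triple points. -/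
def TripleLocusSplits (lam : ∀ a, Module.End Ω (Y.H a)) : Prop :=
  ∃ Q, IsSplitting (totN Y) (totN' Y) (totOp Y Y.lef) (totOp Y lam) (totD Y) Q

end Total

/-- The sum of the Betti numbers of the generic fibre. -/
noncomputable def bettiSum {Ω : Type u} [Field Ω] [CharZero Ω] {Γ : Type} {n q : ℕ}
    (X : SemistableModel.{u, v} Ω Γ n q) : ℕ :=
  ∑ i ∈ Finset.range (2 * n + 1), finrank Ω (X.V i)

/-- The dimension of the graded piece of weight `w` of `H^i` of the generic fibre. -/
noncomputable def gradedDim {Ω : Type u} [Field Ω] [CharZero Ω] {Γ : Type} {n q : ℕ}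
    (X : SemistableModel.{u, v} Ω Γ n q) (i : ℕ) (w : ℤ) : ℕ :=
  finrank Ω (X.W i w) - finrank Ω (X.W i (w - 1))

/-- The conjecture (monodromy-weight, or Kato's conjecture) for all the `H^i` of the generic
fibre. -/
def AllPure {Ω : Type u} [Field Ω] [CharZero Ω] {Γ : Type} {n q : ℕ}
    (X : SemistableModel.{u, v} Ω Γ n q) : Prop :=
  ∀ i : ℕ, IsMWPure q i (X.actV i X.frob) (X.N i)

end Pool.Agent.H849.SF
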