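import Pool.Agent.H849.SF.Two

/-!
# Complexes with `N ^ 2 = 0`: end of the proof
-/

set_option autoImplicit false

open Module

namespace Pool.Agent.H849.SF

variable {K : Type*} [Field K] {E : Type*} [AddCommGroup E] [Module K E]
  [CharZero K] [FiniteDimensional K E] {h₁ N N' h₂ L L' d P : Module.End K E}

namespace IsTwo

/-- `d` is not zero from the null component in weights `(0, j - 1)` to the one in weights
`(1, j)`. -/
def Q (h₁ h₂ d P : Module.End K E) (j : ℤ) : Prop :=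
  ∃ x, Vec P h₁ h₂ 0 (j - 1) x ∧ d x ≠ 0

variable (T : IsTwo h₁ N N' h₂ L L' d P)
include T

lemma dd (x : E) : d (d x) = 0 := by
  rw [← Module.End.mul_apply, T.W.dd, LinearMap.zero_apply]

/-- The homogeneous elements of the image of `d` in weight `(1, j)`. -/
lemma q_of_range {j : ℤ} {y : E} (hy : Vec P h₁ h₂ 1 j y) (hr : y ∈ LinearMap.range d)
    (hQ : ¬ Q h₁ h₂ d P j) : y = 0 := by
  obtain ⟨z, hz, hzy⟩ := T.hom hy hr
  by_contra hne
  exact hQ ⟨z, hz.cast (by norm_num) rfl, by rwa [hzy]⟩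

lemma q_symm (H₁ : HasLefschetz h₁ N h₂ d) {b : ℕ} (hb : Q h₁ h₂ d P b) :
    Q h₁ h₂ d P (-(b : ℤ)) := by
  obtain ⟨x, hx, hne⟩ := hb
  have hy : Vec P h₁ h₂ 1 b (d x) := (T.vd hx).cast (by norm_num) (by ring)
  obtain ⟨z, hz₂, hzy, hall⟩ := T.W.t₂.surj' b (y := d x) (by simpa using hy.w₂)
  have hPz : P z = z := by
    have := hall (1 - P) ((Commute.one_left L).sub_left T.cL.symm)
      ((Commute.one_left h₂).sub_left T.ch₂.symm) (by
        rw [LinearMap.sub_apply, Module.End.one_apply, hy.p, sub_self])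
    rw [LinearMap.sub_apply, Module.End.one_apply, sub_eq_zero] at this
    exact this.symm
  have hz₁ : h₁ z = (1 : K) • z := by
    have hc : Commute h₁ L := T.W.h₁L
    have hc' : Commute h₁ h₂ := T.W.h₁h₂
    have := hall (h₁ - 1) (hc.sub_left (Commute.one_left L))
      (hc'.sub_left (Commute.one_left h₂)) (by
        rw [LinearMap.sub_apply, Module.End.one_apply, hy.w₁]
        simp)
    rw [LinearMap.sub_apply, Module.End.one_apply, sub_eq_zero] at this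
    rw [this, one_smul]
  have hz : Vec P h₁ h₂ 1 (-(b : ℤ)) z := ⟨hPz, by simpa using hz₁, by simpa using hz₂⟩
  by_contra hQ
  obtain ⟨x', s, hx', hdx', hs, hzs⟩ := T.ws H₁ hz
  have hds : d s = 0 := by
    by_contra hne'
    exact hQ ⟨s, hs, hne'⟩
  rw [hds, add_zero] at hzs
  -- `y = L ^ b z = N (L ^ b x')` with `L ^ b x'` in the kernel of `d`
  have h1 : Vec P h₁ h₂ (-1) (-(b : ℤ) + 2 * b) ((L ^ b) x') := T.vLk hx' b
  have h2 : d ((L ^ b) x') = 0 := by
    rw [← pow_apply_eq T.W.Ld, hdx', map_zero]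
  have h3 : N ((L ^ b) x') = d x := by
    rw [← hzy, hzs, ← pow_apply_eq T.W.NL.symm]
  have h4 := T.wi H₁ h1 h2 ⟨x, h3.symm⟩
  rw [h4, map_zero] at h3
  exact hne h3.symm

lemma q_finite : {j : ℤ | Q h₁ h₂ d P j}.Finite := by
  have h1 : (((↑) : ℤ → K) '' {j : ℤ | Q h₁ h₂ d P j}).Finite := by
    refine Set.Finite.subset (Module.End.finite_hasEigenvalue h₂) ?_
    rintro _ ⟨j, ⟨x, hx, hne⟩, rfl⟩
    have h2 := (T.vd hx).w₂
    rw [sub_add_cancel] at h2
    exact Module.End.hasEigenvalue_of_hasEigenvector ⟨Module.End.mem_eigenspace_iff.2 h2, hne⟩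
  exact h1.of_finite_image (fun a _ b _ hab => by exact_mod_cast hab)

/-- The largest weight of the image of `d`. -/
lemma exists_max (H₁ : HasLefschetz h₁ N h₂ d) (hex : ∃ j, Q h₁ h₂ d P j) :
    ∃ b : ℕ, Q h₁ h₂ d P (-(b : ℤ)) ∧ ∀ j : ℤ, (b : ℤ) < |j| → ¬ Q h₁ h₂ d P j := by
  set S : Set ℕ := {b | Q h₁ h₂ d P (-(b : ℤ))} with hS
  have hfin : S.Finite := by
    have : (fun b : ℕ => -(b : ℤ)) '' S ⊆ {j : ℤ | Q h₁ h₂ d P j} := by
      rintro _ ⟨b, hb, rfl⟩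
      exact hb
    exact (T.q_finite.subset this).of_finite_image (fun a _ b _ hab => by
      have : -(a : ℤ) = -(b : ℤ) := hab
      omega)
  have hall : ∀ j : ℤ, Q h₁ h₂ d P j → j.natAbs ∈ S := by
    intro j hj
    rw [hS, Set.mem_ofPred_eq]
    rcases le_total 0 j with h0 | h0
    · apply T.q_symm H₁
      rwa [Int.natAbs_of_nonneg h0]
    · have : -((j.natAbs : ℕ) : ℤ) = j := by omega
      rwa [this]
  obtain ⟨j, hj⟩ := hex
  obtain ⟨b, hb, hmax⟩ := hfin.exists_maximal ⟨_, hall j hj⟩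
  refine ⟨b, hb, fun i hi hQ => ?_⟩
  rw [Int.abs_eq_natAbs] at hi
  have h1 := hall i hQ
  have h2 : b ≤ i.natAbs := by omega
  have h3 := hmax h1 h2
  omega

section Max

variable (H₁ : HasLefschetz h₁ N h₂ d) (H₂ : HasLefschetz h₂ L h₁ d) {b : ℕ}
  (hb : ∀ j : ℤ, (b : ℤ) < |j| → ¬ Q h₁ h₂ d P j)
include H₁ H₂ hb

omit H₂ in
/-- The images of `d` are killed by `L ^ (b + 1)` and, in the lowest weight, by `L'`. -/
lemma top_zero {w : E} (hw : Vec P h₁ h₂ 1 (-(b : ℤ)) w) (hr : w ∈ LinearMap.range d) :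
    (L ^ (b + 1)) w = 0 ∧ L' w = 0 := by
  have h1 : (L ^ (b + 1)) w = 0 := by
    refine T.q_of_range (T.vLk hw (b + 1)) ?_ (hb _ ?_)
    · obtain ⟨z, rfl⟩ := hr
      exact ⟨(L ^ (b + 1)) z, (pow_apply_eq T.W.Ld _ _).symm⟩
    · push_cast
      rw [show -(b : ℤ) + 2 * (b + 1) = b + 2 by ring, abs_of_nonneg (by positivity)]
      omega
  exact ⟨h1, T.W.t₂.f_zero b (by simpa using hw.w₂) h1⟩

omit hb H₂ in
/-- `d N'` is injective on the images of `d`. -/
lemma gam_inj {c : ℤ} {w : E} (hw : Vec P h₁ h₂ 1 c w) (hr : w ∈ LinearMap.range d)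
    (h0 : d (N' w) = 0) : w = 0 := by
  have h1 : N (N' w) = w := by
    rw [apply_add T.W.t₁.ef, hw.w₁, T.high (T.vN hw) (by norm_num), map_zero]
    simp
  have h2 := T.wi H₁ ((T.vN' hw).cast (by norm_num) rfl) h0 (by rw [h1]; exact hr)
  rw [← h1, h2, map_zero]

/-- The extremal subspace. -/
def Wb (h₁ N' h₂ L d P : Module.End K E) (b : ℕ) (x : E) : Prop :=
  Vec P h₁ h₂ 0 (-((b + 1 : ℕ) : ℤ)) x ∧
    ∃ w, Vec P h₁ h₂ 1 (-(b : ℤ)) w ∧ w ∈ LinearMap.range d ∧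
      (L ^ (b + 1)) x = d (N' ((L ^ b) w))

lemma wb_inj {x : E} (hx : Wb h₁ N' h₂ L d P b x) (hd : d x = 0) : x = 0 := by
  obtain ⟨hx, w, hw, hr, hL⟩ := hx
  have h1 : x ∈ LinearMap.range d := by
    refine (H₂ (b + 1) 0).1 x hd (by simpa using hx.w₂) (by simpa using hx.w₁) ?_
    rw [hL]
    exact ⟨_, rfl⟩
  obtain ⟨z, hz, hzx⟩ := T.hom hx h1
  have hz' : Vec P h₁ h₂ (-1) (-(b : ℤ) - 2) z := hz.cast (by norm_num) (by push_cast; ring)
  obtain ⟨x', s, hx', hdx', hs, hNz⟩ := T.ws H₁ ((T.vN hz').cast (by norm_num) rfl)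
  have h2 : d s = 0 := by
    by_contra hne
    exact hb (-(b : ℤ) - 2) (by rw [abs_of_neg (by omega)]; omega) ⟨s, hs, hne⟩
  rw [h2, add_zero] at hNz
  have h3 : z = x' := by
    have h4 : N (z - x') = 0 := by rw [map_sub, hNz, sub_self]
    have h5 : Vec P h₁ h₂ (-1) (-(b : ℤ) - 2) (z - x') := by
      have := hz'.add (hx'.smul (-1))
      rwa [neg_one_smul, ← sub_eq_add_neg] at this
    have h6 := T.W.t₁.inj 1 (x := z - x') (by simpa using h5.w₁) (by simpa using h4)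
    exact sub_eq_zero.1 h6
  rw [← hzx, h3, hdx']

/-- The Laplace operator on the extremal subspace. -/
lemma wb_lap {x : E} (hx : Wb h₁ N' h₂ L d P b x) :
    Wb h₁ N' h₂ L d P b (lap N' L' d x) ∧ (lap N' L' d x = 0 → x = 0) := by
  have hx0 := hx
  obtain ⟨hx, w, hw, hr, hL⟩ := hx
  have hdx : Vec P h₁ h₂ 1 (-(b : ℤ)) (d x) := (T.vd hx).cast (by norm_num) (by push_cast; ring)
  obtain ⟨h1, h2⟩ := T.top_zero H₁ hb hdx ⟨x, rfl⟩
  obtain ⟨h3, h4⟩ := T.top_zero H₁ hb hw hr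
  -- `L' x = 0`
  have h5 : L' x = 0 := by
    refine T.W.t₂.f_zero (b + 1) (by simpa using hx.w₂) ?_
    rw [pow_succ', Module.End.mul_apply, hL, apply_eq T.W.Ld, ← apply_eq T.W.N'L,
      ← Module.End.mul_apply L, ← pow_succ', h3, map_zero, map_zero]
  have h6 : N' x = 0 := T.low (T.vN' hx) (by norm_num)
  have h7 : cod N' L' d x = 0 := by
    simp only [cod, LinearMap.sub_apply, Module.End.mul_apply, h5, h6, h2, map_zero, sub_self]
  have h8 : lap N' L' d x = -L' (d (N' (d x))) := by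
    have h9 : cod N' L' d (d x) = -L' (d (N' (d x))) := by
      simp only [cod, LinearMap.sub_apply, Module.End.mul_apply, h2, T.dd, map_zero, sub_self,
        zero_sub, ← apply_eq T.W.N'L', sub_zero]
    rw [lap, LinearMap.add_apply, Module.End.mul_apply, Module.End.mul_apply, h7, map_zero,
      zero_add, h9]
  have hy : Vec P h₁ h₂ 0 (-(b : ℤ) + 1) (d (N' (d x))) :=
    (T.vd (T.vN' hdx)).cast (by norm_num) rfl
  have h9 : (L ^ (b + 1)) (lap N' L' d x) = (-((b : K) + 1)) • d (N' ((L ^ b) (d x))) := by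
    have e1 := T.W.t₂.pow_f (c := ((-(b : ℤ) + 1 : ℤ) : K)) (x := d (N' (d x))) hy.w₂ b
    have e2 : ∀ k : ℕ, (L ^ k) (d (N' (d x))) = d (N' ((L ^ k) (d x))) := fun k => by
      rw [pow_apply_eq T.W.Ld, pow_apply_eq T.W.N'L.symm]
    rw [h8, map_neg, e1, e2, h1, map_zero, map_zero, map_zero, zero_add, e2, neg_smul]
    congr 2
    push_cast
    ring
  have hlap : Vec P h₁ h₂ 0 (-((b + 1 : ℕ) : ℤ)) (lap N' L' d x) := by
    refine ⟨?_, ?_, ?_⟩
    · rw [← apply_eq T.clap.eq, hx.p]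
    · rw [apply_eq T.W.h₁_lap.eq, hx.w₁, map_smul]
    · rw [apply_eq T.W.h₂_lap.eq, hx.w₂, map_smul]
  refine ⟨⟨hlap, (-((b : K) + 1)) • d x, hdx.smul _, ⟨(-((b : K) + 1)) • x, map_smul _ _ _⟩, ?_⟩,
    ?_⟩
  · rw [h9, map_smul, map_smul, map_smul]
  · intro h0
    rw [h0, map_zero] at h9
    have hb1 : (-((b : K) + 1)) ≠ 0 := neg_ne_zero.2 (Nat.cast_add_one_ne_zero b)
    have h10 := (smul_eq_zero.1 h9.symm).resolve_left hb1
    have h11 : (L ^ b) (d x) = 0 :=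
      T.gam_inj H₁ (T.vLk hdx b) ⟨(L ^ b) x, (pow_apply_eq T.W.Ld _ _).symm⟩ h10
    have h12 : d x = 0 := T.W.t₂.inj b (by simpa using hdx.w₂) h11
    exact T.wb_inj H₁ H₂ hb hx0 h12

lemma not_q_max : ¬ Q h₁ h₂ d P (-(b : ℤ)) := by
  rintro ⟨x₀, hx₀, hne⟩
  have hw : Vec P h₁ h₂ 1 (-(b : ℤ)) (d x₀) := (T.vd hx₀).cast (by norm_num) (by ring)
  have hr : d x₀ ∈ LinearMap.range d := ⟨x₀, rfl⟩
  have hy : Vec P h₁ h₂ 0 ((b + 1 : ℕ) : ℤ) (d (N' ((L ^ b) (d x₀)))) :=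
    (T.vd (T.vN' (T.vLk hw b))).cast (by norm_num) (by push_cast; ring)
  have hne' : d (N' ((L ^ b) (d x₀))) ≠ 0 := by
    intro h0
    have h11 : (L ^ b) (d x₀) = 0 :=
      T.gam_inj H₁ (T.vLk hw b) ⟨(L ^ b) x₀, (pow_apply_eq T.W.Ld _ _).symm⟩ h0
    exact hne (T.W.t₂.inj b (by simpa using hw.w₂) h11)
  obtain ⟨x, hx₂, hxy, hall⟩ := T.W.t₂.surj' (b + 1) (by simpa using hy.w₂)
  have hP : P x = x := by
    have := hall (1 - P) ((Commute.one_left L).sub_left T.cL.symm)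
      ((Commute.one_left h₂).sub_left T.ch₂.symm) (by
        rw [LinearMap.sub_apply, Module.End.one_apply, hy.p, sub_self])
    rw [LinearMap.sub_apply, Module.End.one_apply, sub_eq_zero] at this
    exact this.symm
  have hx₁ : h₁ x = 0 := by
    have hc : Commute h₁ L := T.W.h₁L
    have hc' : Commute h₁ h₂ := T.W.h₁h₂
    exact hall h₁ hc hc' (by rw [hy.w₁]; simp)
  have hx : Wb h₁ N' h₂ L d P b x :=
    ⟨⟨hP, by simpa using hx₁, by simpa using hx₂⟩, d x₀, hw, hr, hxy⟩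
  have hx0 : x ≠ 0 := by
    rintro rfl
    rw [map_zero] at hxy
    exact hne' hxy.symm
  obtain ⟨m, hm⟩ := T.nil
  have hpow : ∀ j : ℕ, Wb h₁ N' h₂ L d P b ((lap N' L' d ^ j) x) ∧ (lap N' L' d ^ j) x ≠ 0 := by
    intro j
    induction j with
    | zero => exact ⟨hx, hx0⟩
    | succ j ih =>
      rw [pow_succ', Module.End.mul_apply]
      obtain ⟨h1, h2⟩ := T.wb_lap H₁ H₂ hb ih.1
      exact ⟨h1, fun h3 => ih.2 (h2 h3)⟩
  refine (hpow m).2 ?_
  rw [← hP, hm]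

end Max

/-- **The hard Lefschetz properties imply the strong form if `N ^ 2 = 0`.** -/
theorem strong (H₁ : HasLefschetz h₁ N h₂ d) (H₂ : HasLefschetz h₂ L h₁ d) (x : E) :
    d (P x) = 0 := by
  have hnQ : ∀ j, ¬ Q h₁ h₂ d P j := by
    intro j hj
    obtain ⟨b, h1, h2⟩ := T.exists_max H₁ ⟨j, hj⟩
    exact T.not_q_max H₁ H₂ h2 h1
  have key : ∀ (a c : ℤ) y, Vec P h₁ h₂ a c y → d y = 0 := by
    intro a c y hy
    rcases lt_trichotomy a 0 with ha | rfl | ha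
    · rcases eq_or_ne a (-1) with rfl | hne
      · obtain ⟨x', s, hx', hdx', hs, hNy⟩ := T.ws H₁ ((T.vN hy).cast (by norm_num) rfl)
        have h2 : d s = 0 := by
          by_contra hne
          exact hnQ c ⟨s, hs, hne⟩
        rw [h2, add_zero] at hNy
        have h4 : N (y - x') = 0 := by rw [map_sub, hNy, sub_self]
        have h5 : Vec P h₁ h₂ (-1) c (y - x') := by
          have := hy.add (hx'.smul (-1))
          rwa [neg_one_smul, ← sub_eq_add_neg] at this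
        have h6 := T.W.t₁.inj 1 (x := y - x') (by simpa using h5.w₁) (by simpa using h4)
        rw [sub_eq_zero.1 h6, hdx']
      · rw [T.low hy (by omega), map_zero]
    · by_contra hne
      exact hnQ (c + 1) ⟨y, hy.cast rfl (by ring), hne⟩
    · exact T.high (T.vd hy) (by omega)
  -- from weight vectors to all vectors
  have hc₁ : Commute h₁ P := T.ch₁
  have hc₂ : Commute h₂ P := T.ch₂
  have h1 : d * P = 0 := by
    refine zero_of_weight T.D₁ fun a y hy => ?_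
    rw [← wproj_same T.D₁ hy]
    have h2 : d * P * wproj T.D₁ a = 0 := by
      refine zero_of_weight T.D₂ fun c z hz => ?_
      rw [Module.End.mul_apply, Module.End.mul_apply]
      refine key a c _ ⟨T.idem _, ?_, ?_⟩
      · rw [apply_eq hc₁.eq, h_wproj, map_smul]
      · have hc₃ : h₂ (wproj T.D₁ a z) = wproj T.D₁ a (h₂ z) :=
          (wproj_comm T.D₁ (g := h₂) T.W.h₁h₂ a z).symm
        rw [apply_eq hc₂.eq, hc₃, hz, map_smul, map_smul]
    exact LinearMap.congr_fun h2 y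
  exact LinearMap.congr_fun h1 x

end IsTwo

end Pool.Agent.H849.SF
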