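import Pool.Graph.R_seed8.Y143.Pure
import Pool.Agent.H849.SF.Defs
import Pool.Agent.H849.SF.Two2

/-!
# The total `E_1` term is a weight complex
-/

set_option autoImplicit false

namespace Pool.Agent.H849.SF

universe u v

open Module Pool.Agent.Y143

variable {Ω : Type u} [Field Ω] [CharZero Ω] {Γ : Type} {n q : ℕ}
  (X : SpecialFibre.{u, v} Ω Γ n q)

/-- The dual Lefschetz operators of the strata. -/
def IsDual (lam : ∀ a, Module.End Ω (X.H a)) : Prop :=
  ∀ a : ℕ, IsDualLefschetz (X.gr a) ((n : ℤ) - a) (X.lef a) (lam a)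

/-- The underlying family. -/
noncomputable def val : Total X.toStrataData →ₗ[Ω] (ℤ → X.C) :=
  (LinearMap.range (cutAll X.toStrataData)).subtype

lemma val_inj {x y : Total X.toStrataData} (h : val X x = val X y) : x = y := Subtype.ext h

lemma ext_tot {x y : Total X.toStrataData} (h : ∀ r a, val X x r a = val X y r a) : x = y :=
  val_inj X (funext fun r => funext fun a => h r a)

lemma cut_cut (r : ℤ) (x : X.C) : X.cut r (X.cut r x) = X.cut r x := by
  funext a
  by_cases h : InColumn r a
  · rw [X.cut_of h]
  · rw [X.cut_of_not h, X.cut_of_not h]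

lemma cut_tot (x : Total X.toStrataData) (r : ℤ) : X.cut r (val X x r) = val X x r := by
  obtain ⟨y, hy⟩ := x.2
  have h1 : val X x = cutAll X.toStrataData y := hy.symm
  rw [h1]
  exact cut_cut X r (y r)

lemma val_zero (x : Total X.toStrataData) {r : ℤ} {a : ℕ} (h : ¬ InColumn r a) :
    val X x r a = 0 := by
  rw [← cut_tot, X.cut_of_not h]

/-- The family concentrated in column `r`. -/
noncomputable def sgl (r : ℤ) (x : X.C) : Total X.toStrataData :=
  (cutAll X.toStrataData).rangeRestrict (Pi.single r x)

lemma sgl_same (r : ℤ) (x : X.C) : val X (sgl X r x) r = X.cut r x := by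
  show X.cut r ((Pi.single r x : ℤ → X.C) r) = X.cut r x
  rw [Pi.single_eq_same]

lemma sgl_ne {r s : ℤ} (h : s ≠ r) (x : X.C) : val X (sgl X r x) s = 0 := by
  show X.cut s ((Pi.single r x : ℤ → X.C) s) = 0
  rw [Pi.single_eq_of_ne h, map_zero]

lemma sgl_add (r : ℤ) (x y : X.C) : sgl X r (x + y) = sgl X r x + sgl X r y := by
  rw [sgl, Pi.single_add]
  exact map_add _ _ _

lemma sgl_sub (r : ℤ) (x y : X.C) : sgl X r (x - y) = sgl X r x - sgl X r y := by
  rw [sgl, Pi.single_sub]
  exact map_sub _ _ _

lemma sgl_zero (r : ℤ) : sgl X r 0 = 0 := by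
  rw [sgl, Pi.single_zero]
  exact map_zero _

lemma col_zero {r : ℤ} (hr : (n : ℤ) < |r|) (x : Total X.toStrataData) : val X x r = 0 := by
  funext a
  by_cases h : InColumn r a
  · exact X.eq_zero_of_lt (by have := h.1; omega) _
  · exact val_zero X x h

lemma sum_sgl (x : Total X.toStrataData) :
    x = ∑ r ∈ Finset.Icc (-(n : ℤ)) n, sgl X r (val X x r) := by
  apply val_inj X
  funext s
  rw [map_sum, Finset.sum_apply]
  by_cases hs : s ∈ Finset.Icc (-(n : ℤ)) n
  · rw [Finset.sum_eq_single s]
    · rw [sgl_same, cut_tot]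
    · intro r _ hr
      exact sgl_ne X hr.symm _
    · exact fun h => absurd hs h
  · rw [Finset.sum_eq_zero, col_zero X]
    · rw [Finset.mem_Icc] at hs
      by_contra hcon
      apply hs
      rw [not_lt, abs_le] at hcon
      exact hcon
    · intro r hr
      exact sgl_ne X (fun h => hs (by rw [h]; exact hr)) _

lemma E₁_of_cut {r : ℤ} {a : ℕ} {m : ℤ} (hc : InColumn r a) {z : X.H a} (hz : z ∈ X.gr a m) :
    (Pi.single a z : X.C) ∈ X.E₁ r (m - r + a) := by
  apply X.single_mem hc
  rwa [show m - r + (a : ℤ) + r - a = m by ring]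

/-- Induction on the elements of the total `E_1` term. -/
lemma tot_induction {p : Total X.toStrataData → Prop} (h0 : p 0)
    (hadd : ∀ x y, p x → p y → p (x + y))
    (h : ∀ r w x, x ∈ X.E₁ r w → p (sgl X r x)) (x : Total X.toStrataData) : p x := by
  classical
  rw [sum_sgl X x]
  have hsum : ∀ {ι : Type} (s : Finset ι) (f : ι → Total X.toStrataData), (∀ i ∈ s, p (f i)) →
      p (∑ i ∈ s, f i) := by
    intro ι s f
    induction s using Finset.induction_on with
    | empty => intro _; simpa using h0
    | insert i s hi ih =>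
      intro hf
      rw [Finset.sum_insert hi]
      exact hadd _ _ (hf i (Finset.mem_insert_self i s))
        (ih fun j hj => hf j (Finset.mem_insert_of_mem hj))
  refine hsum _ _ fun r _ => ?_
  have h1 : val X x r = ∑ a ∈ Finset.range (n + 1), Pi.single a (val X x r a) := by
    funext b
    rw [Finset.sum_apply]
    by_cases hb : b ∈ Finset.range (n + 1)
    · rw [Finset.sum_eq_single b]
      · rw [Pi.single_eq_same]
      · intro a _ ha
        rw [Pi.single_eq_of_ne ha.symm]
      · exact fun h => absurd hb h
    · have hb' : n < b := by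
        rw [Finset.mem_range] at hb
        omega
      exact (X.eq_zero_of_lt hb' _).trans (X.eq_zero_of_lt hb' _).symm
  have h2 : sgl X r (val X x r) =
      ∑ a ∈ Finset.range (n + 1), sgl X r (Pi.single a (val X x r a)) := by
    let φ : X.C →+ Total X.toStrataData := ⟨⟨sgl X r, sgl_zero X r⟩, sgl_add X r⟩
    have := congrArg φ h1
    rw [map_sum] at this
    exact this
  rw [h2]
  refine hsum _ _ fun a _ => ?_
  by_cases hc : InColumn r a
  · refine X.gr_induction (P := fun z => p (sgl X r (Pi.single a z))) ?_ ?_ ?_ (val X x r a)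
    · rw [Pi.single_zero, sgl_zero]
      exact h0
    · intro y z hy hz
      rw [Pi.single_add, sgl_add]
      exact hadd _ _ hy hz
    · intro m z hz
      exact h r _ _ (E₁_of_cut X hc hz)
  · rw [val_zero X x hc, Pi.single_zero, sgl_zero]
    exact h0

/-! ### The relations -/

lemma totN_apply (x : Total X.toStrataData) (r : ℤ) :
    val X (totN X.toStrataData x) r = X.cut r (val X x (r - 2)) := rfl

lemma totN'_apply (x : Total X.toStrataData) (r : ℤ) (a : ℕ) :
    val X (totN' X.toStrataData x) r a = coef (Ω := Ω) r a • val X x (r + 2) a := by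
  show X.cut r (fun a => coef (Ω := Ω) r a • val X x (r - -2) a) a = _
  rw [show r - -2 = r + 2 by ring]
  by_cases h : InColumn r a
  · rw [X.cut_of h]
  · rw [X.cut_of_not h]
    by_cases h' : InColumn (r + 2) a
    · have h2 : (a : ℤ) + r + 2 = 0 := by
        obtain ⟨h3, h4⟩ := h'
        have h5 : ¬ |r| ≤ a := fun h5 => h ⟨h5, by omega⟩
        rw [abs_le] at h3 h5
        omega
      have h6 : coef (Ω := Ω) r a = 0 := by rw [coef, h2]; simp
      rw [h6, zero_smul]
    · rw [val_zero X x h', smul_zero]

lemma totD_apply (x : Total X.toStrataData) (r : ℤ) :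
    val X (totD X.toStrataData x) r = X.diff (r - 1) (val X x (r - 1)) := by
  rw [X.diff_apply, sub_add_cancel]
  rfl

lemma totOp_apply (f : ∀ a, Module.End Ω (X.H a)) (x : Total X.toStrataData) (r : ℤ) (a : ℕ) :
    val X (totOp X.toStrataData f x) r a = f a (val X x r a) := by
  show X.cut r (fun a => f a (val X x (r - 0) a)) a = _
  rw [sub_zero]
  by_cases h : InColumn r a
  · rw [X.cut_of h]
  · rw [X.cut_of_not h, val_zero X x h, map_zero]

/-- The operator `h₁`. -/
noncomputable def H₁ : Module.End Ω (Total X.toStrataData) :=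
  totN X.toStrataData * totN' X.toStrataData - totN' X.toStrataData * totN X.toStrataData

lemma val_sub (x y : Total X.toStrataData) (r : ℤ) (a : ℕ) :
    val X (x - y) r a = val X x r a - val X y r a := rfl

lemma val_smul (c : Ω) (x : Total X.toStrataData) (r : ℤ) (a : ℕ) :
    val X (c • x) r a = c • val X x r a := rfl

lemma H₁_apply (x : Total X.toStrataData) (r : ℤ) : val X (H₁ X x) r = (r : Ω) • val X x r := by
  funext a
  have h4 : (4 : Ω) ≠ 0 := by norm_num
  have h0 : val X (H₁ X x) r a = (X.cut r (val X (totN' X.toStrataData x) (r - 2))) a -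
      coef (Ω := Ω) r a • (X.cut (r + 2) (val X x (r + 2 - 2))) a := by
    rw [← totN_apply, ← totN_apply, ← totN'_apply]
    rfl
  rw [h0, Pi.smul_apply, show r + 2 - 2 = r by ring]
  by_cases hc : InColumn r a
  · rw [X.cut_of hc, totN'_apply, show r - 2 + 2 = r by ring]
    by_cases hc' : InColumn (r + 2) a
    · rw [X.cut_of hc', ← sub_smul]
      congr 1
      rw [coef, coef, ← sub_div, div_eq_iff h4]
      push_cast
      ring
    · rw [X.cut_of_not hc', smul_zero, sub_zero]
      have h1 : (a : ℤ) = r := by
        obtain ⟨h1, h2⟩ := hc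
        have h3 : ¬ |r + 2| ≤ a := fun h3 => hc' ⟨h3, by omega⟩
        rw [abs_le] at h1 h3
        omega
      congr 1
      rw [coef, div_eq_iff h4, h1]
      push_cast
      ring
  · rw [X.cut_of_not hc, val_zero X x hc, smul_zero, zero_sub, neg_eq_zero]
    by_cases hc' : InColumn (r + 2) a
    · rw [X.cut_of hc', val_zero X x hc, smul_zero]
    · rw [X.cut_of_not hc', smul_zero]

lemma triple₁ : Triple (H₁ X) (totN X.toStrataData) (totN' X.toStrataData) where
  he := by
    ext1 x
    apply val_inj X
    funext r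
    show val X (H₁ X (totN X.toStrataData x)) r - X.cut r (val X (H₁ X x) (r - 2)) =
      (2 : Ω) • X.cut r (val X x (r - 2))
    rw [H₁_apply, H₁_apply, totN_apply, map_smul, ← sub_smul]
    congr 1
    push_cast
    ring
  hf := by
    ext1 x
    refine ext_tot X fun r a => ?_
    have e1 : val X ((H₁ X * totN' X.toStrataData - totN' X.toStrataData * H₁ X) x) r a =
        val X (H₁ X (totN' X.toStrataData x)) r a -
          val X (totN' X.toStrataData (H₁ X x)) r a := rfl
    have e2 : val X ((-((2 : Ω) • totN' X.toStrataData)) x) r a =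
        -((2 : Ω) • val X (totN' X.toStrataData x) r a) := rfl
    rw [e1, e2, totN'_apply, totN'_apply, H₁_apply, H₁_apply, Pi.smul_apply, Pi.smul_apply,
      totN'_apply, smul_smul, smul_smul, smul_smul, ← sub_smul, ← neg_smul]
    congr 1
    push_cast
    ring
  ef := rfl

lemma cut_op (f : ∀ a, Module.End Ω (X.H a)) (r : ℤ) (x : X.C) (a : ℕ) :
    X.cut r (fun a => f a (x a)) a = f a (X.cut r x a) := by
  by_cases h : InColumn r a
  · rw [X.cut_of h, X.cut_of h]
  · rw [X.cut_of_not h, X.cut_of_not h, map_zero]

lemma totN_op (f : ∀ a, Module.End Ω (X.H a)) :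
    totN X.toStrataData * totOp X.toStrataData f = totOp X.toStrataData f * totN X.toStrataData := by
  ext1 x
  refine ext_tot X fun r a => ?_
  show val X (totN X.toStrataData (totOp X.toStrataData f x)) r a =
    val X (totOp X.toStrataData f (totN X.toStrataData x)) r a
  have h0 : val X (totOp X.toStrataData f x) (r - 2) = fun b => f b (val X x (r - 2) b) :=
    funext fun b => totOp_apply X f x (r - 2) b
  rw [totN_apply, totOp_apply, totN_apply, ← cut_op X f r (val X x (r - 2)) a, h0]

lemma totN'_op (f : ∀ a, Module.End Ω (X.H a)) :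
    totN' X.toStrataData * totOp X.toStrataData f =
      totOp X.toStrataData f * totN' X.toStrataData := by
  ext1 x
  refine ext_tot X fun r a => ?_
  show val X (totN' X.toStrataData (totOp X.toStrataData f x)) r a =
    val X (totOp X.toStrataData f (totN' X.toStrataData x)) r a
  rw [totN'_apply, totOp_apply, totOp_apply, totN'_apply, map_smul]

/-- `d` commutes with `N`. -/
lemma cut_diff {s : ℤ} {y : X.C} (hy : ∀ a, ¬ InColumn s a → y a = 0) :
    X.cut (s + 3) (X.diff s y) = X.diff (s + 2) (X.cut (s + 2) y) := by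
  funext b
  rw [X.diff_apply (s + 2), show s + 2 + 1 = s + 3 by ring]
  by_cases hb : InColumn (s + 3) b
  · rw [X.cut_of hb, X.cut_of hb, X.diff_apply]
    obtain ⟨h1, h2⟩ := hb
    rw [abs_le] at h1
    by_cases hs : -(b : ℤ) - 1 ≤ s
    · have h3 : InColumn (s + 1) b := ⟨by rw [abs_le]; omega, by omega⟩
      rw [X.cut_of h3, Pi.add_apply, Pi.add_apply, X.gysC_apply, X.gysC_apply,
        X.cut_of (r := s + 2) (a := b + 1) ⟨by rw [abs_le]; push_cast; omega, by push_cast; omega⟩]
      congr 1
      cases b with
      | zero => rfl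
      | succ c =>
        rw [X.resC_succ, X.resC_succ,
          X.cut_of (r := s + 2) (a := c) ⟨by rw [abs_le]; push_cast at h1 hs; omega,
            by push_cast at h2; omega⟩]
    · have h3 : ¬ InColumn (s + 1) b := fun h3 => by
        have := h3.1
        rw [abs_le] at this
        omega
      have hgen : ∀ c : ℕ, c ≤ b + 1 → y c = 0 := fun c hc => hy c fun h4 => by
        have := h4.1
        rw [abs_le] at this
        omega
      rw [X.cut_of_not h3, Pi.add_apply, X.gysC_apply]
      have e1 : X.cut (s + 2) y (b + 1) = 0 := by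
        by_cases h5 : InColumn (s + 2) (b + 1)
        · rw [X.cut_of h5, hgen _ le_rfl]
        · rw [X.cut_of_not h5]
      rw [e1, map_zero, add_zero]
      cases b with
      | zero => rfl
      | succ c =>
        rw [X.resC_succ]
        have e2 : X.cut (s + 2) y c = 0 := by
          by_cases h5 : InColumn (s + 2) c
          · rw [X.cut_of h5, hgen _ (by omega)]
          · rw [X.cut_of_not h5]
        rw [e2, map_zero]
  · rw [X.cut_of_not hb, X.cut_of_not hb]

lemma totN_totD : totN X.toStrataData * totD X.toStrataData =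
    totD X.toStrataData * totN X.toStrataData := by
  ext1 x
  apply val_inj X
  funext r
  show val X (totN X.toStrataData (totD X.toStrataData x)) r =
    val X (totD X.toStrataData (totN X.toStrataData x)) r
  rw [totN_apply, totD_apply, totD_apply, totN_apply]
  have h := cut_diff X (s := r - 3) (y := val X x (r - 3)) (fun a => val_zero X x)
  rw [show r - 3 + 3 = r by ring, show r - 3 + 2 = r - 1 by ring] at h
  rw [show r - 2 - 1 = r - 3 by ring, show r - 1 - 2 = r - 3 by ring]
  exact h

lemma totL_totD : totOp X.toStrataData X.lef * totD X.toStrataData =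
    totD X.toStrataData * totOp X.toStrataData X.lef := by
  have h0 : ∀ (y : Total X.toStrataData) (r : ℤ),
      val X (totOp X.toStrataData X.lef y) r = X.lefC (val X y r) := fun y r =>
    funext fun a => totOp_apply X X.lef y r a
  ext1 x
  apply val_inj X
  funext r
  show val X (totOp X.toStrataData X.lef (totD X.toStrataData x)) r =
    val X (totD X.toStrataData (totOp X.toStrataData X.lef x)) r
  rw [h0, totD_apply, totD_apply, h0, X.diff_lefC]

lemma totD_sgl {r w : ℤ} {x : X.C} (hx : x ∈ X.E₁ r w) :
    totD X.toStrataData (sgl X r x) = sgl X (r + 1) (X.diff r x) := by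
  apply val_inj X
  funext s
  rw [totD_apply]
  have hcx : X.cut r x = x := by
    funext a
    by_cases h : InColumn r a
    · rw [X.cut_of h]
    · rw [X.cut_of_not h, (hx a).2 h]
  by_cases hs : s = r + 1
  · subst hs
    rw [show r + 1 - 1 = r by ring, sgl_same, sgl_same, hcx]
    funext a
    by_cases h : InColumn (r + 1) a
    · rw [X.cut_of h]
    · rw [X.cut_of_not h, X.diff_apply, X.cut_of_not h]
  · rw [sgl_ne X hs, sgl_ne X (by omega), map_zero]

lemma totD_totD : totD X.toStrataData * totD X.toStrataData = 0 := by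
  ext1 x
  rw [LinearMap.zero_apply]
  refine tot_induction X (p := fun x => (totD X.toStrataData * totD X.toStrataData) x = 0)
    (map_zero _) (fun x y hx hy => by rw [map_add, hx, hy, add_zero]) (fun r w x hx => ?_) x
  rw [Module.End.mul_apply, totD_sgl X hx, totD_sgl X (X.diff_mem hx), X.diff_diff hx]
  exact sgl_zero X _

section Dual

variable {lam : ∀ a, Module.End Ω (X.H a)} (hl : IsDual X lam)

/-- The operator `h₂`. -/
noncomputable def H₂ (lam : ∀ a, Module.End Ω (X.H a)) : Module.End Ω (Total X.toStrataData) :=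
  totOp X.toStrataData X.lef * totOp X.toStrataData lam -
    totOp X.toStrataData lam * totOp X.toStrataData X.lef

include hl

lemma bracket_E₁ {r w : ℤ} {x : X.C} (hx : x ∈ X.E₁ r w) (a : ℕ) :
    X.lef a (lam a (x a)) - lam a (X.lef a (x a)) = ((w + r - n : ℤ) : Ω) • x a := by
  rw [(hl a).bracket _ _ (hx a).1]
  congr 2
  ring

lemma H₂_sgl {r w : ℤ} {x : X.C} (hx : x ∈ X.E₁ r w) :
    H₂ X lam (sgl X r x) = ((w + r - n : ℤ) : Ω) • sgl X r x := by
  refine ext_tot X fun s a => ?_
  have e1 : val X (H₂ X lam (sgl X r x)) s a =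
      val X (totOp X.toStrataData X.lef (totOp X.toStrataData lam (sgl X r x))) s a -
        val X (totOp X.toStrataData lam (totOp X.toStrataData X.lef (sgl X r x))) s a := rfl
  rw [e1, val_smul, totOp_apply, totOp_apply, totOp_apply, totOp_apply]
  by_cases hs : s = r
  · subst hs
    rw [sgl_same]
    by_cases hc : InColumn s a
    · rw [X.cut_of hc]
      exact bracket_E₁ X hl hx a
    · rw [X.cut_of_not hc]
      simp
  · rw [sgl_ne X hs]
    simp

lemma lam_mem {r w : ℤ} {x : X.C} (hx : x ∈ X.E₁ r w) :
    (fun a => lam a (x a) : X.C) ∈ X.E₁ r (w - 2) := by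
  intro a
  refine ⟨?_, fun h => ?_⟩
  · have := (hl a).degree _ _ (hx a).1
    rwa [show w - 2 + r - (a : ℤ) = w + r - a - 2 by ring]
  · show lam a (x a) = 0
    rw [(hx a).2 h, map_zero]

omit hl in
lemma op_sgl (f : ∀ a, Module.End Ω (X.H a)) (r : ℤ) (x : X.C) :
    totOp X.toStrataData f (sgl X r x) = sgl X r (fun a => f a (x a)) := by
  refine ext_tot X fun s a => ?_
  rw [totOp_apply]
  by_cases hs : s = r
  · subst hs
    rw [sgl_same, sgl_same, cut_op]
  · rw [sgl_ne X hs, sgl_ne X hs]
    exact map_zero _

lemma triple₂ : Triple (H₂ X lam) (totOp X.toStrataData X.lef) (totOp X.toStrataData lam) where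
  he := by
    ext1 x
    refine tot_induction X (p := fun x => (H₂ X lam * totOp X.toStrataData X.lef -
      totOp X.toStrataData X.lef * H₂ X lam) x = ((2 : Ω) • totOp X.toStrataData X.lef) x)
      ?_ ?_ ?_ x
    · rw [map_zero, map_zero]
    · intro x y hx hy
      rw [map_add, map_add, hx, hy]
    · intro r w x hx
      rw [LinearMap.sub_apply, Module.End.mul_apply, Module.End.mul_apply, LinearMap.smul_apply,
        H₂_sgl X hl hx, map_smul, op_sgl,
        H₂_sgl X hl (x := fun a => X.lef a (x a)) (X.lefC_mem hx)]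
      refine (sub_smul _ _ _).symm.trans ?_
      congr 1
      push_cast
      ring
  hf := by
    ext1 x
    refine tot_induction X (p := fun x => (H₂ X lam * totOp X.toStrataData lam -
      totOp X.toStrataData lam * H₂ X lam) x = (-((2 : Ω) • totOp X.toStrataData lam)) x)
      ?_ ?_ ?_ x
    · rw [map_zero, map_zero]
    · intro x y hx hy
      rw [map_add, map_add, hx, hy]
    · intro r w x hx
      rw [LinearMap.sub_apply, Module.End.mul_apply, Module.End.mul_apply, LinearMap.neg_apply,
        LinearMap.smul_apply, H₂_sgl X hl hx, map_smul, op_sgl,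
        H₂_sgl X hl (lam_mem X hl hx)]
      refine ((sub_smul _ _ _).symm.trans ?_).trans (neg_smul _ _)
      congr 1
      push_cast
      ring
  ef := rfl

/-- The total `E_1` term is a weight complex. -/
theorem weightComplex : IsWeightComplex (H₁ X) (totN X.toStrataData) (totN' X.toStrataData)
    (H₂ X lam) (totOp X.toStrataData X.lef) (totOp X.toStrataData lam) (totD X.toStrataData) where
  t₁ := triple₁ X
  t₂ := triple₂ X hl
  NL := totN_op X _
  NL' := totN_op X _
  N'L := totN'_op X _
  N'L' := totN'_op X _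
  dd := totD_totD X
  Nd := totN_totD X
  Ld := totL_totD X
  h₁d := by
    ext1 x
    apply val_inj X
    funext r
    have e1 : val X ((H₁ X * totD X.toStrataData - totD X.toStrataData * H₁ X) x) r =
        val X (H₁ X (totD X.toStrataData x)) r - val X (totD X.toStrataData (H₁ X x)) r := rfl
    rw [e1, H₁_apply, totD_apply, totD_apply, H₁_apply, map_smul, ← sub_smul]
    have : ((r : Ω) - ((r - 1 : ℤ) : Ω)) = 1 := by push_cast; ring
    rw [this, one_smul]
  h₂d := by
    ext1 x
    refine tot_induction X (p := fun x => (H₂ X lam * totD X.toStrataData -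
      totD X.toStrataData * H₂ X lam) x = totD X.toStrataData x) ?_ ?_ ?_ x
    · rw [map_zero, map_zero]
    · intro x y hx hy
      rw [map_add, map_add, hx, hy]
    · intro r w x hx
      rw [LinearMap.sub_apply, Module.End.mul_apply, Module.End.mul_apply, H₂_sgl X hl hx,
        map_smul, totD_sgl X hx, H₂_sgl X hl (X.diff_mem hx)]
      refine (sub_smul _ _ _).symm.trans ?_
      have : ((((w + (r + 1) - n : ℤ) : Ω)) - ((w + r - n : ℤ) : Ω)) = 1 := by push_cast; ring
      rw [this]
      exact one_smul _ _

/-- The operator `h₂` is diagonalizable. -/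
lemma diag₂ : IsDiag (H₂ X lam) := by
  rw [IsDiag, eq_top_iff]
  rintro x -
  refine tot_induction X (p := fun x => x ∈ ⨆ c : ℤ, (H₂ X lam).eigenspace (c : Ω))
    (Submodule.zero_mem _) (fun x y hx hy => Submodule.add_mem _ hx hy) (fun r w x hx => ?_) x
  exact Submodule.mem_iSup_of_mem (w + r - n) (Module.End.mem_eigenspace_iff.2 (H₂_sgl X hl hx))

end Dual

lemma H₁_sgl (r : ℤ) (x : X.C) : H₁ X (sgl X r x) = (r : Ω) • sgl X r x := by
  apply val_inj X
  funext s
  rw [H₁_apply]
  show _ = (r : Ω) • val X (sgl X r x) s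
  by_cases hs : s = r
  · subst hs
    rfl
  · rw [sgl_ne X hs, smul_zero, smul_zero]

/-- The operator `h₁` is diagonalizable. -/
lemma diag₁ : IsDiag (H₁ X) := by
  rw [IsDiag, eq_top_iff]
  rintro x -
  refine tot_induction X (p := fun x => x ∈ ⨆ c : ℤ, (H₁ X).eigenspace (c : Ω))
    (Submodule.zero_mem _) (fun x y hx hy => Submodule.add_mem _ hx hy) (fun r w x _ => ?_) x
  exact Submodule.mem_iSup_of_mem r (Module.End.mem_eigenspace_iff.2 (H₁_sgl X r x))

lemma finTotal_aux : FiniteDimensional Ω (Total X.toStrataData) := by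
  let f : Total X.toStrataData →ₗ[Ω] (∀ _ : Finset.Icc (-(n : ℤ)) n, X.C) :=
    { toFun := fun x r => val X x r
      map_add' := fun x y => rfl
      map_smul' := fun c x => rfl }
  apply Module.Finite.of_injective f
  intro x y hxy
  apply val_inj X
  funext r
  by_cases hr : r ∈ Finset.Icc (-(n : ℤ)) n
  · exact congrFun hxy ⟨r, hr⟩
  · have : (n : ℤ) < |r| := by
      rw [Finset.mem_Icc] at hr
      by_contra hcon
      rw [not_lt, abs_le] at hcon
      exact hr hcon
    rw [col_zero X this, col_zero X this]

end Pool.Agent.H849.SF
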