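import Pool.Agent.H849.SF.Fin

/-!
# Algebraic correspondences on the strata, in several cohomology theories: definitions
-/

set_option autoImplicit false

namespace Pool.Agent.H849.SF

universe u v

open Module Pool.Agent.Y143

/-- The ring `A` of the algebraic correspondences with rational coefficients (modulo rational
equivalence) between the strata `Y^(a+1)` of one special fibre, with the bookkeeping of the columns of
the weight spectral sequence, acting on the total `E_1` terms in the cohomology theories `X ℓ`
(for example `ℓ`-adic cohomology for the different primes `ℓ`, and crystalline cohomology). The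
operators `N`, `N'` (rational multiples of the identity between the columns), the Lefschetz operator
and the differential are given by elements of `A`, and the characteristic polynomial of an element
of `A` is rational and does not depend on the theory (Katz–Messing). -/
abbrev Correspondences {ι : Type} {Ω : ι → Type u} [∀ ℓ, Field (Ω ℓ)] [∀ ℓ, CharZero (Ω ℓ)]
    {Γ : Type} {n q : ℕ} (X : ∀ ℓ, SpecialFibre.{u, v} (Ω ℓ) Γ n q) (A : Type) [Ring A] :=
  CorrespondenceRing A (fun ℓ => totN (X ℓ).toStrataData) (fun ℓ => totN' (X ℓ).toStrataData)
    (fun ℓ => totOp (X ℓ).toStrataData (X ℓ).lef) (fun ℓ => totD (X ℓ).toStrataData)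

/-- The standard conjecture of Lefschetz type for the strata: the dual Lefschetz operators `lam` are
given by an algebraic correspondence which does not depend on the theory. -/
def LefschetzStandard {ι : Type} {Ω : ι → Type u} [∀ ℓ, Field (Ω ℓ)] [∀ ℓ, CharZero (Ω ℓ)]
    {Γ : Type} {n q : ℕ} {X : ∀ ℓ, SpecialFibre.{u, v} (Ω ℓ) Γ n q} {A : Type} [Ring A]
    (C : Correspondences X A) (lam : ∀ ℓ a, Module.End (Ω ℓ) ((X ℓ).H a)) : Prop :=
  ∃ b : A, ∀ ℓ, C.real ℓ b = totOp (X ℓ).toStrataData (lam ℓ)

end Pool.Agent.H849.SF
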