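import Pool.Agent.H849.SF.Ref
import Pool.Agent.H849.SF.Sys

/-!
# The strong form: main theorems
-/

set_option autoImplicit false

namespace Pool.Agent.H849.SF

universe u v

open Module Pool.Agent.Y143

variable {Ω : Type u} [Field Ω] [CharZero Ω] {Γ : Type} {n q : ℕ}

lemma laplace_eq (X : SpecialFibre.{u, v} Ω Γ n q) (lam : ∀ a, Module.End Ω (X.H a)) :
    laplace X.toStrataData lam =
      lap (totN' X.toStrataData) (totOp X.toStrataData lam) (totD X.toStrataData) := rfl

lemma commute_lap {K : Type*} [Field K] {E : Type*} [AddCommGroup E] [Module K E]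
    {N' L' d Q : Module.End K E} (h1 : Commute N' Q) (h2 : Commute L' Q) (h3 : Commute d Q) :
    Commute (lap N' L' d) Q := by
  have h4 : Commute (L' * d - d * L') Q := (h2.mul_left h3).sub_left (h3.mul_left h2)
  have h5 : Commute (cod N' L' d) Q := (h1.mul_left h4).sub_left (h4.mul_left h1)
  exact (h3.mul_left h5).add_left (h5.mul_left h3)

section Fibre

variable (X : SpecialFibre.{u, v} Ω Γ n q) {lam : ∀ a, Module.End Ω (X.H a)} (hl : IsDual X lam)
  {P : Module.End Ω (Total X.toStrataData)} (F : IsFitting (laplace X.toStrataData lam) P)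

include F in
lemma strong_iff : StrongForm X.toStrataData lam ↔ ∀ x, totD X.toStrataData (P x) = 0 := by
  constructor
  · intro h x
    obtain ⟨m, hm⟩ := F.nil
    exact h m _ (hm x)
  · intro h m x hx
    rw [← F.mem x ⟨m, hx⟩]
    exact h x

include F hl in
/-- The multiplicity of the root `0` of the characteristic polynomial, the ranks and the strong
form. -/
lemma mult_eq : (laplace X.toStrataData lam).charpoly.rootMultiplicity 0 +
    finrank Ω (LinearMap.range (totD X.toStrataData)) =
      finrank Ω (LinearMap.ker (totD X.toStrataData)) +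
        2 * finrank Ω (LinearMap.range (totD X.toStrataData * P)) := by
  have h1 := (weightComplex X hl).rank F
  have h2 : finrank Ω (LinearMap.range P) =
      (laplace X.toStrataData lam).charpoly.rootMultiplicity 0 := by
    rw [F.range, LinearMap.finrank_maxGenEigenspace_eq]
  have h3 := LinearMap.finrank_range_add_finrank_ker (totD X.toStrataData)
  omega

end Fibre

section Model

variable (X : SemistableModel.{u, v} Ω Γ n q) {lam : ∀ a, Module.End Ω (X.H a)}
  (hl : IsDual X.toSpecialFibre lam)

include hl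

/-- The sum of the Betti numbers and the strong form. -/
theorem betti_le : bettiSum X ≤ (laplace X.toStrataData lam).charpoly.rootMultiplicity 0 ∧
    (bettiSum X = (laplace X.toStrataData lam).charpoly.rootMultiplicity 0 ↔
      StrongForm X.toStrataData lam) := by
  obtain ⟨P, F⟩ := exists_fitting (laplace X.toStrataData lam)
  have h1 := mult_eq X.toSpecialFibre hl F
  have h2 := betti_eq X hl
  refine ⟨by omega, ?_⟩
  rw [strong_iff X.toSpecialFibre F]
  have h3 : finrank Ω (LinearMap.range (totD X.toStrataData * P)) = 0 ↔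
      ∀ x, totD X.toStrataData (P x) = 0 := by
    rw [Submodule.finrank_eq_zero, LinearMap.range_eq_bot]
    constructor
    · intro h x
      exact LinearMap.congr_fun h x
    · intro h
      ext1 x
      exact h x
  rw [← h3]
  omega

/-- The strong form implies the conjecture and the hard Lefschetz theorem. -/
theorem pure_of_strong (hs : StrongForm X.toStrataData lam) :
    AllPure X ∧ X.toStrataData.HasHardLefschetz n := by
  obtain ⟨P, F⟩ := exists_fitting (laplace X.toStrataData lam)
  rw [strong_iff X.toSpecialFibre F] at hs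
  obtain ⟨h1, h2⟩ := (weightComplex X.toSpecialFibre hl).lefschetz_of_strong F hs
  rw [lefschetz_N_iff X.toSpecialFibre hl] at h1
  rw [lefschetz_L_iff X.toSpecialFibre hl] at h2
  exact ⟨fun i => X.isMWPure_of i (fun a ha => (h1 a _ ha).1) (fun a ha => (h1 a _ ha).2), h2⟩

/-- Purity in all degrees is the Lefschetz property of `N`. -/
lemma lefschetz_of_pure [IsAlgClosed Ω] (hq : 1 < q) (hp : AllPure X) :
    HasLefschetz (H₁ X.toSpecialFibre) (totN X.toStrataData) (H₂ X.toSpecialFibre lam)
      (totD X.toStrataData) := by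
  rw [lefschetz_N_iff X.toSpecialFibre hl]
  intro k c hk
  by_cases hc : 0 ≤ (n : ℤ) + c
  · obtain ⟨m, hm⟩ := Int.eq_ofNat_of_zero_le hc
    have h1 := (Pool.Agent.H849.SEC.pure_iff_E₂ X hq m).1 (hp m) k hk
    have h2 : (m : ℤ) - n = c := by omega
    rwa [h2] at h1
  · constructor
    · rintro x ⟨⟨hx, -⟩, -⟩
      rw [tot_zero X.toSpecialFibre (by omega) hx]
      exact Submodule.zero_mem _
    · rintro y ⟨hy, -⟩
      rw [tot_zero X.toSpecialFibre (by omega) hy]
      exact Submodule.zero_mem _

omit hl in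
lemma totN_sq (h3 : NoTriplePoints X.toStrataData) :
    totN X.toStrataData * totN X.toStrataData = 0 := by
  ext1 x
  refine ext_tot X.toSpecialFibre fun r a => ?_
  rw [Module.End.mul_apply, totN_apply, totN_apply]
  show X.cut r (X.cut (r - 2) (val X.toSpecialFibre x (r - 2 - 2))) a = 0
  by_cases ha : 2 ≤ a
  · exact h3 a ha _
  · by_cases h1 : InColumn r a
    · rw [X.cut_of h1]
      by_cases h2 : InColumn (r - 2) a
      · rw [X.cut_of h2]
        apply val_zero X.toSpecialFibre x
        intro h4
        have e1 := h1.1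
        have e2 := h4.1
        rw [abs_le] at e1 e2
        omega
      · rw [X.cut_of_not h2]
    · rw [X.cut_of_not h1]

omit hl in
/-- Without triple points there is a splitting. -/
lemma splits_of_noTriplePoints (h3 : NoTriplePoints X.toStrataData) :
    TripleLocusSplits X.toStrataData lam := by
  refine ⟨1, fun x => rfl, Commute.one_right _, Commute.one_right _, Commute.one_right _,
    Commute.one_right _, Commute.one_right _, fun x => ?_, fun m x hx _ => ?_⟩
  · exact LinearMap.congr_fun (totN_sq X h3) x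
  · have hx' : x = 0 := hx
    rw [hx', map_zero]

/-- The conjecture and the hard Lefschetz theorem imply the strong form. -/
theorem strong_of_pure [IsAlgClosed Ω] (hq : 1 < q) (h3 : TripleLocusSplits X.toStrataData lam)
    (hp : AllPure X) (hL : X.toStrataData.HasHardLefschetz n) :
    StrongForm X.toStrataData lam := by
  obtain ⟨P, F⟩ := exists_fitting (laplace X.toStrataData lam)
  obtain ⟨Q, hQ⟩ := h3
  have W := weightComplex X.toSpecialFibre hl
  rw [strong_iff X.toSpecialFibre F]
  have cN : Commute (totN X.toStrataData) Q := hQ.comm_N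
  have cN' : Commute (totN' X.toStrataData) Q := hQ.comm_N'
  have cL : Commute (totOp X.toStrataData X.lef) Q := hQ.comm_L
  have cL' : Commute (totOp X.toStrataData lam) Q := hQ.comm_dual
  have cd : Commute (totD X.toStrataData) Q := hQ.comm_D
  have cΔ : Commute (laplace X.toStrataData lam) Q := commute_lap cN' cL' cd
  have cP : Commute Q P := F.comm Q cΔ.symm
  have T : IsTwo (H₁ X.toSpecialFibre) (totN X.toStrataData) (totN' X.toStrataData)
      (H₂ X.toSpecialFibre lam) (totOp X.toStrataData X.lef) (totOp X.toStrataData lam)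
      (totD X.toStrataData) (Q * P) := by
    refine ⟨W, fun x => ?_, cN.mul_right (F.comm _ W.N_lap), cN'.mul_right (F.comm _ W.N'_lap),
      cL.mul_right (F.comm _ W.L_lap), cL'.mul_right (F.comm _ W.L'_lap),
      cd.mul_right (F.comm _ W.d_lap), ?_, diag₁ X.toSpecialFibre, diag₂ X.toSpecialFibre hl,
      fun x => hQ.square (P x)⟩
    · simp only [Module.End.mul_apply]
      rw [← apply_eq cP.eq (P x), hQ.idem, F.idem]
    · obtain ⟨m, hm⟩ := F.nil
      refine ⟨m, fun x => ?_⟩
      rw [Module.End.mul_apply, apply_eq cP.eq]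
      exact hm _
  have h1 := T.strong (lefschetz_of_pure X hl hq hp) ((lefschetz_L_iff X.toSpecialFibre hl).2 hL)
  intro x
  have h2 : totD X.toStrataData (P x - Q (P x)) = 0 := by
    obtain ⟨m, hm⟩ := F.nil
    refine hQ.strong m _ (by rw [map_sub, hQ.idem, sub_self]) ?_
    rw [← laplace_eq, map_sub, hm, apply_eq cP.eq, hm, sub_self]
  rw [map_sub, sub_eq_zero] at h2
  rw [h2]
  exact h1 x

open Pool.Agent.R942.WB Pool.Agent.R942.WM in
omit hl in
lemma gradedDim_eq (i : ℕ) (w : ℤ) :
    gradedDim X i w + finrank Ω (Bd X.diff X.tot ((i : ℤ) - w) ((i : ℤ) - n)) =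
      finrank Ω (Zc X.diff X.tot ((i : ℤ) - w) ((i : ℤ) - n)) := by
  have := finite_V X i
  have h1 := dim_gr X i w
  have h2 : finrank Ω (X.W i (w - 1)) ≤ finrank Ω (X.W i w) :=
    Submodule.finrank_mono (X.W_mono i (by omega))
  have e1 : Bd X.diff X.tot ((i : ℤ) - w) ((i : ℤ) - n) = X.coboundaries ((i : ℤ) - w) w := by
    rw [X.bd_eq]
    congr 1
    ring
  have e2 : Zc X.diff X.tot ((i : ℤ) - w) ((i : ℤ) - n) = X.cocycles ((i : ℤ) - w) w := by
    rw [X.zc_eq]
    congr 1
    ring
  rw [e1, e2, gradedDim]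
  omega

section Null

variable {P : Module.End Ω (Total X.toStrataData)} (F : IsFitting (laplace X.toStrataData lam) P)
include F

/-- The homogeneous subspace of weight `(r, j)`. -/
lemma stable_part (r j : ℤ) : ∀ x ∈ (H₂ X.toSpecialFibre lam).eigenspace (j : Ω) ⊓
    (H₁ X.toSpecialFibre).eigenspace (r : Ω),
    P x ∈ (H₂ X.toSpecialFibre lam).eigenspace (j : Ω) ⊓
      (H₁ X.toSpecialFibre).eigenspace (r : Ω) := by
  have W := weightComplex X.toSpecialFibre hl
  rintro x ⟨h1, h2⟩
  rw [SetLike.mem_coe, Module.End.mem_eigenspace_iff] at h1 h2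
  constructor
  · rw [SetLike.mem_coe, Module.End.mem_eigenspace_iff, apply_eq (F.comm _ W.h₂_lap).eq, h1,
      map_smul]
  · rw [SetLike.mem_coe, Module.End.mem_eigenspace_iff, apply_eq (F.comm _ W.h₁_lap).eq, h2,
      map_smul]

lemma null_eq (r j : ℤ) :
    (detect n r j (laplace X.toStrataData lam) (H₁ X.toSpecialFibre)
      (H₂ X.toSpecialFibre lam)).charpoly.rootMultiplicity 0 =
    finrank Ω (LinearMap.range P ⊓ ((H₂ X.toSpecialFibre lam).eigenspace (j : Ω) ⊓
      (H₁ X.toSpecialFibre).eigenspace (r : Ω)) : Submodule Ω (Total X.toStrataData)) := by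
  rw [← LinearMap.finrank_maxGenEigenspace_eq, laplace_eq,
    detect_null (weightComplex X.toSpecialFibre hl) F (diag₁ X.toSpecialFibre)
      (diag₂ X.toSpecialFibre hl) n (fun c hc x hx => weight_H₁ X.toSpecialFibre hc x hx)
      (fun c hc x hx => weight_H₂ X.toSpecialFibre hl hc x hx) r j, inf_assoc]

omit F in
lemma ker_part (r j : ℤ) :
    finrank Ω (LinearMap.ker (totD X.toStrataData) ⊓
      ((H₂ X.toSpecialFibre lam).eigenspace (j : Ω) ⊓ (H₁ X.toSpecialFibre).eigenspace (r : Ω)) :
        Submodule Ω (Total X.toStrataData)) = finrank Ω (Zc X.diff X.tot r j) := by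
  rw [← inf_assoc]
  refine finrank_part X.toSpecialFibre hl fun x => ?_
  constructor
  · rintro ⟨h1, h2⟩
    exact ⟨h1, LinearMap.mem_ker.2 ((ker_iff X.toSpecialFibre h1).2 h2)⟩
  · rintro ⟨h1, h2⟩
    exact ⟨h1, (ker_iff X.toSpecialFibre h1).1 (LinearMap.mem_ker.1 h2)⟩

omit F in
lemma range_part (r j : ℤ) :
    finrank Ω (LinearMap.range (totD X.toStrataData) ⊓
      ((H₂ X.toSpecialFibre lam).eigenspace (j : Ω) ⊓ (H₁ X.toSpecialFibre).eigenspace (r : Ω)) :
        Submodule Ω (Total X.toStrataData)) = finrank Ω (Bd X.diff X.tot r j) := by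
  rw [← inf_assoc]
  refine finrank_part X.toSpecialFibre hl fun x => ?_
  constructor
  · intro h
    have h1 : x ∈ X.tot r j := by
      have := X.bd_le_zc r (n + j - r) (by rw [← X.bd_eq]; exact h)
      exact this.1
    exact ⟨h1, (range_iff X.toSpecialFibre h1 hl).2 h⟩
  · rintro ⟨h1, h2⟩
    exact (range_iff X.toSpecialFibre h1 hl).1 h2

end Null

/-- The refined inequality. -/
theorem graded_le (i : ℕ) (w : ℤ) : gradedDim X i w ≤
    (detect n ((i : ℤ) - w) ((i : ℤ) - n) (laplace X.toStrataData lam) (H₁ X.toSpecialFibre)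
      (H₂ X.toSpecialFibre lam)).charpoly.rootMultiplicity 0 := by
  obtain ⟨P, F⟩ := exists_fitting (laplace X.toStrataData lam)
  have h1 := gradedDim_eq X i w
  have h2 := part_le (weightComplex X.toSpecialFibre hl) F _
    (stable_part X hl F ((i : ℤ) - w) ((i : ℤ) - n))
  rw [ker_part X hl, range_part X hl] at h2
  rw [null_eq X hl F]
  omega

/-- The strong form in terms of the dimensions of the graded pieces. -/
theorem graded_iff : (∀ (i : ℕ) (w : ℤ), gradedDim X i w =
    (detect n ((i : ℤ) - w) ((i : ℤ) - n) (laplace X.toStrataData lam) (H₁ X.toSpecialFibre)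
      (H₂ X.toSpecialFibre lam)).charpoly.rootMultiplicity 0) ↔
        StrongForm X.toStrataData lam := by
  obtain ⟨P, F⟩ := exists_fitting (laplace X.toStrataData lam)
  have W := weightComplex X.toSpecialFibre hl
  rw [strong_iff X.toSpecialFibre F]
  constructor
  · intro h
    refine strong_of_hom W (diag₁ X.toSpecialFibre) (diag₂ X.toSpecialFibre hl)
      (F.comm _ W.h₁_lap) (F.comm _ W.h₂_lap) F.idem ?_
    intro a c y hP hy₁ hy₂
    by_cases hc : 0 ≤ (n : ℤ) + c
    · obtain ⟨i, hi⟩ := Int.eq_ofNat_of_zero_le hc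
      have h1 := h i ((i : ℤ) - a)
      have h2 := gradedDim_eq X i ((i : ℤ) - a)
      rw [show (i : ℤ) - ((i : ℤ) - a) = a by ring, show (i : ℤ) - n = c by omega] at h1 h2
      rw [null_eq X hl F] at h1
      refine part_strong W F _ (stable_part X hl F a c) ?_ ⟨?_, ?_⟩ hP
      · rw [ker_part X hl, range_part X hl]
        omega
      · exact Module.End.mem_eigenspace_iff.2 hy₂
      · exact Module.End.mem_eigenspace_iff.2 hy₁
    · have hy : y = 0 := by
        apply val_inj X.toSpecialFibre
        funext r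
        exact tot_zero X.toSpecialFibre (by omega) (mem_tot X.toSpecialFibre hl (a := r) hy₂)
      rw [hy, map_zero]
  · intro hs i w
    have h1 := gradedDim_eq X i w
    have h2 := part_eq W F _ (stable_part X hl F ((i : ℤ) - w) ((i : ℤ) - n)) hs
    rw [ker_part X hl, range_part X hl] at h2
    rw [null_eq X hl F]
    omega

end Model

section Family

variable {ι : Type} {Ω : ι → Type u} [∀ ℓ, Field (Ω ℓ)] [∀ ℓ, CharZero (Ω ℓ)]
  {X : ∀ ℓ, SpecialFibre.{u, v} (Ω ℓ) Γ n q} {A : Type} [Ring A] (C : Correspondences X A)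

/-- The characteristic polynomials of the Laplace operator and of the detecting operators are
independent of the theory. -/
lemma exists_poly {lam : ∀ ℓ a, Module.End (Ω ℓ) ((X ℓ).H a)} (hB : LefschetzStandard C lam) :
    (∃ P : Polynomial ℚ, ∀ ℓ, (laplace (X ℓ).toStrataData (lam ℓ)).charpoly =
      P.map (algebraMap ℚ (Ω ℓ))) ∧
    ∀ r j : ℤ, ∃ P : Polynomial ℚ, ∀ ℓ, (detect n r j (laplace (X ℓ).toStrataData (lam ℓ))
      (H₁ (X ℓ)) (H₂ (X ℓ) (lam ℓ))).charpoly = P.map (algebraMap ℚ (Ω ℓ)) := by
  obtain ⟨b, hb⟩ := hB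
  set D : A := C.opD * (C.opN' * (b * C.opD - C.opD * b) - (b * C.opD - C.opD * b) * C.opN') +
      (C.opN' * (b * C.opD - C.opD * b) - (b * C.opD - C.opD * b) * C.opN') * C.opD with hD
  have hΔ : ∀ ℓ, C.real ℓ D = laplace (X ℓ).toStrataData (lam ℓ) := by
    intro ℓ
    simp only [hD, map_add, map_mul, map_sub, C.real_D, C.real_N', hb]
    rfl
  constructor
  · obtain ⟨P, hP⟩ := C.rational D
    exact ⟨P, fun ℓ => by rw [← hP ℓ]; exact congrArg LinearMap.charpoly (hΔ ℓ).symm⟩
  · intro r j
    obtain ⟨P, hP⟩ := C.rational (detect n r j D (C.opN * C.opN' - C.opN' * C.opN)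
      (C.opL * b - b * C.opL))
    refine ⟨P, fun ℓ => ?_⟩
    rw [← hP ℓ]
    refine congrArg LinearMap.charpoly ?_
    symm
    refine (map_detect n r j (S := Module.End (Ω ℓ) (Total (X ℓ).toStrataData)) (C.real ℓ)
      _ _ _).trans ?_
    rw [hΔ, map_sub, map_sub, map_mul, map_mul, map_mul, map_mul, C.real_N, C.real_N', C.real_L, hb]
    rfl

end Family

end Pool.Agent.H849.SF
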