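import Pool.Agent.H849.SF.Fit

/-!
# Projections onto weight spaces
-/

set_option autoImplicit false

open Module

namespace Pool.Agent.H849.SF

variable {K : Type*} [Field K] {E : Type*} [AddCommGroup E] [Module K E]

/-- `h` is diagonalizable with integral eigenvalues. -/
def IsDiag (h : Module.End K E) : Prop := ⨆ c : ℤ, h.eigenspace (c : K) = ⊤

/-- Two linear maps which agree on the weight vectors of `h` are equal. -/
lemma IsDiag.ext {h : Module.End K E} (hd : IsDiag h) {A B : Module.End K E}
    (hAB : ∀ (c : ℤ) (x : E), h x = (c : K) • x → A x = B x) : A = B := by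
  ext x
  have hx : x ∈ ⨆ c : ℤ, h.eigenspace (c : K) := by rw [hd]; trivial
  induction hx using Submodule.iSup_induction' with
  | mem c x hx => exact hAB c x (Module.End.mem_eigenspace_iff.1 hx)
  | zero => simp
  | add x y _ _ hx hy => rw [map_add, map_add, hx, hy]

variable [CharZero K]

lemma IsDiag.isInternal {h : Module.End K E} (hd : IsDiag h) :
    DirectSum.IsInternal (fun c : ℤ => h.eigenspace (c : K)) := by
  classical
  refine DirectSum.isInternal_submodule_of_iSupIndep_of_iSup_eq_top ?_ hd
  exact (Module.End.eigenspaces_iSupIndep h).comp (fun a b hab => by exact_mod_cast hab)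

/-- The projection onto the weight space of weight `c`. -/
lemma IsDiag.exists_proj {h : Module.End K E} (hd : IsDiag h) (c : ℤ) :
    ∃ π : Module.End K E, (∀ x, h (π x) = (c : K) • π x) ∧
      (∀ x, h x = (c : K) • x → π x = x) ∧
      ∀ (a : ℤ) x, h x = (a : K) • x → a ≠ c → π x = 0 := by
  classical
  have hI := hd.isInternal
  let : DirectSum.Decomposition (fun c : ℤ => h.eigenspace (c : K)) := hI.chooseDecomposition
  let V : ℤ → Submodule K E := fun c => h.eigenspace (c : K)
  refine ⟨(V c).subtype ∘ₗ DirectSum.component K ℤ (fun i => V i) c ∘ₗ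
    (DirectSum.decomposeLinearEquiv V).toLinearMap, ?_, ?_, ?_⟩
  · intro x
    exact Module.End.mem_eigenspace_iff.1 (Submodule.coe_mem _)
  · intro x hx
    have h1 : x ∈ V c := Module.End.mem_eigenspace_iff.2 hx
    exact DirectSum.decompose_of_mem_same V h1
  · intro a x hx hac
    have h1 : x ∈ V a := Module.End.mem_eigenspace_iff.2 hx
    exact DirectSum.decompose_of_mem_ne V h1 hac

/-- The projection onto the weight space of weight `c`. -/
noncomputable def wproj {h : Module.End K E} (hd : IsDiag h) (c : ℤ) : Module.End K E :=
  (hd.exists_proj c).choose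

section Proj

variable {h : Module.End K E} (hd : IsDiag h)

lemma h_wproj (c : ℤ) (x : E) : h (wproj hd c x) = (c : K) • wproj hd c x :=
  (hd.exists_proj c).choose_spec.1 x

lemma wproj_same {c : ℤ} {x : E} (hx : h x = (c : K) • x) : wproj hd c x = x :=
  (hd.exists_proj c).choose_spec.2.1 x hx

lemma wproj_ne {a c : ℤ} {x : E} (hx : h x = (a : K) • x) (hac : a ≠ c) : wproj hd c x = 0 :=
  (hd.exists_proj c).choose_spec.2.2 a x hx hac

/-- An operator of degree `k` commutes with the projections, up to a shift. -/
lemma wproj_shift {g : Module.End K E} (k : ℤ) (hg : h * g - g * h = (k : K) • g) (c : ℤ) (x : E) :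
    wproj hd (c + k) (g x) = g (wproj hd c x) := by
  have h1 : wproj hd (c + k) * g = g * wproj hd c := by
    refine hd.ext fun a x hx => ?_
    have h2 : h (g x) = ((a + k : ℤ) : K) • g x := by
      have h3 := LinearMap.congr_fun hg x
      simp only [LinearMap.sub_apply, Module.End.mul_apply, LinearMap.smul_apply, hx,
        map_smul] at h3
      rw [sub_eq_iff_eq_add] at h3
      rw [h3, ← add_smul]
      congr 1
      push_cast
      ring
    rw [Module.End.mul_apply, Module.End.mul_apply]
    by_cases hac : a = c
    · subst hac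
      rw [wproj_same hd h2, wproj_same hd hx]
    · rw [wproj_ne hd h2 (by omega), wproj_ne hd hx hac, map_zero]
  exact LinearMap.congr_fun h1 x

lemma wproj_comm {g : Module.End K E} (hg : Commute h g) (c : ℤ) (x : E) :
    wproj hd c (g x) = g (wproj hd c x) := by
  have := wproj_shift hd (g := g) 0 (by rw [hg.eq]; simp) c x
  rwa [add_zero] at this

include hd in
/-- If a linear map kills all weight vectors it is zero. -/
lemma zero_of_weight {A : Module.End K E} (hA : ∀ (c : ℤ) x, h x = (c : K) • x → A x = 0) :
    A = 0 := hd.ext (fun c x hx => by rw [hA c x hx]; rfl)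

end Proj

/-- A linear map which kills all weight vectors in a subspace stable under `h` vanishes on it. -/
lemma zero_on {h : Module.End K E} (hd : IsDiag h) {A Q : Module.End K E} (hQ : Commute h Q)
    (hA : ∀ (c : ℤ) x, h x = (c : K) • x → Q x = x → A x = 0) (hQQ : ∀ x, Q (Q x) = Q x) (x : E)
    (hx : Q x = x) : A x = 0 := by
  have h1 : A * Q = 0 := by
    refine zero_of_weight hd fun c y hy => ?_
    rw [Module.End.mul_apply]
    refine hA c (Q y) ?_ (hQQ y)
    have := LinearMap.congr_fun hQ.eq y
    simp only [Module.End.mul_apply] at this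
    rw [this, hy, map_smul]
  have := LinearMap.congr_fun h1 x
  rwa [Module.End.mul_apply, hx, LinearMap.zero_apply] at this

end Pool.Agent.H849.SF
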