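import Pool.Agent.H849.SF.Diag

/-!
# The strong form and the hard Lefschetz properties of the homology
-/

set_option autoImplicit false

open Module

namespace Pool.Agent.H849.SF

variable {K : Type*} [Field K] {E : Type*} [AddCommGroup E] [Module K E]

/-- `e ^ k` induces an isomorphism from the part of weight `-k` of the homology of `d` to the part of
weight `k` (weights for `h`), in every eigenspace of the operator `g` (which commutes with `e`). -/
def HasLefschetz (h e g d : Module.End K E) : Prop :=
  ∀ (k : ℕ) (s : ℤ),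
    (∀ x, d x = 0 → h x = (-(k : K)) • x → g x = (s : K) • x → (e ^ k) x ∈ LinearMap.range d →
      x ∈ LinearMap.range d) ∧
    ∀ y, d y = 0 → h y = (k : K) • y → g y = (s : K) • y →
      ∃ x, d x = 0 ∧ h x = (-(k : K)) • x ∧ g x = (s : K) • x ∧
        y - (e ^ k) x ∈ LinearMap.range d

lemma apply_eq {A B : Module.End K E} (h : A * B = B * A) (x : E) : A (B x) = B (A x) :=
  LinearMap.congr_fun h x

lemma pow_apply_eq {A B : Module.End K E} (h : A * B = B * A) (k : ℕ) (x : E) :
    (A ^ k) (B x) = B ((A ^ k) x) :=
  LinearMap.congr_fun ((show Commute A B from h).pow_left k).eq x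

variable [CharZero K] [FiniteDimensional K E]

/-- If `d` vanishes on the null component, the homology has the hard Lefschetz property. -/
lemma hl_of_strong {h e f g d P : Module.End K E} (t : Triple h e f) (hP : ∀ x, P (P x) = P x)
    (hPh : Commute h P) (hPe : Commute e P) (hPg : Commute g P) (hPd : Commute d P)
    (hge : Commute g e) (hgh : Commute g h)
    (hex : ∀ x, P x = 0 → d x = 0 → x ∈ LinearMap.range d) (hst : ∀ x, d (P x) = 0) :
    HasLefschetz h e g d := by
  intro k s
  have hrange : ∀ x, d x = 0 → x - P x ∈ LinearMap.range d := by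
    intro x hx
    apply hex
    · rw [map_sub, hP, sub_self]
    · rw [map_sub, hx, hst, sub_zero]
  constructor
  · rintro x hdx hhx - ⟨y, hy⟩
    have h1 : P x = 0 := by
      refine t.inj k ?_ ?_
      · rw [apply_eq hPh.eq, hhx, map_smul]
      · rw [pow_apply_eq hPe.eq, ← hy, ← apply_eq hPd.eq, hst]
    have h2 := hrange x hdx
    rwa [h1, sub_zero] at h2
  · intro y hdy hhy hgy
    have h1 : h (P y) = (k : K) • P y := by rw [apply_eq hPh.eq, hhy, map_smul]
    obtain ⟨x, hx, hxy, hall⟩ := t.surj' k h1
    have h2 : P x = x := by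
      have := hall (1 - P) ((Commute.one_left e).sub_left hPe.symm)
        ((Commute.one_left h).sub_left hPh.symm) (by
          rw [LinearMap.sub_apply, Module.End.one_apply, hP, sub_self])
      rw [LinearMap.sub_apply, Module.End.one_apply, sub_eq_zero] at this
      exact this.symm
    have h3 : g x = (s : K) • x := by
      have := hall (g - (s : K) • 1) (hge.sub_left ((Commute.one_left e).smul_left _))
        (hgh.sub_left ((Commute.one_left h).smul_left _)) (by
          rw [LinearMap.sub_apply, LinearMap.smul_apply, Module.End.one_apply, apply_eq hPg.eq, hgy,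
            map_smul, sub_self])
      rwa [LinearMap.sub_apply, LinearMap.smul_apply, Module.End.one_apply, sub_eq_zero] at this
    refine ⟨x, ?_, hx, h3, ?_⟩
    · rw [← h2, hst]
    · rw [hxy]
      exact hrange y hdy

namespace IsWeightComplex

variable {h₁ N N' h₂ L L' d : Module.End K E} (W : IsWeightComplex h₁ N N' h₂ L L' d)
  {P : Module.End K E} (F : IsFitting (lap N' L' d) P)
include W F

/-- The strong form implies that `N ^ k` and `L ^ k` induce isomorphisms on the homology. -/
theorem lefschetz_of_strong (hst : ∀ x, d (P x) = 0) :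
    HasLefschetz h₁ N h₂ d ∧ HasLefschetz h₂ L h₁ d := by
  have hex : ∀ x, P x = 0 → d x = 0 → x ∈ LinearMap.range d := by
    intro x hx hd
    obtain ⟨y, -, hy⟩ := W.exact F hx hd
    exact ⟨y, hy⟩
  exact ⟨hl_of_strong W.t₁ F.idem (F.comm _ W.h₁_lap) (F.comm _ W.N_lap) (F.comm _ W.h₂_lap)
      (F.comm _ W.d_lap) W.h₂N W.h₁h₂.symm hex hst,
    hl_of_strong W.t₂ F.idem (F.comm _ W.h₂_lap) (F.comm _ W.L_lap) (F.comm _ W.h₁_lap)
      (F.comm _ W.d_lap) W.h₁L W.h₁h₂ hex hst⟩

end IsWeightComplex

end Pool.Agent.H849.SF
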