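import Pool.Agent.H849.SF.Trans

/-!
# Dimensions
-/

set_option autoImplicit false

namespace Pool.Agent.H849.SF

universe u v

open Module Pool.Agent.Y143

section Abs

variable {K : Type*} [Field K] {A B : Type*} [AddCommGroup A] [Module K A] [AddCommGroup B]
  [Module K B]

lemma finrank_map_add [FiniteDimensional K A] (f : A →ₗ[K] B) (S : Submodule K A) :
    finrank K (S.map f) + finrank K (S ⊓ LinearMap.ker f : Submodule K A) = finrank K S := by
  have h1 := LinearMap.finrank_range_add_finrank_ker (f.domRestrict S)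
  rw [LinearMap.range_domRestrict] at h1
  have h2 : finrank K (LinearMap.ker (f.domRestrict S)) =
      finrank K (S ⊓ LinearMap.ker f : Submodule K A) := by
    have h3 : (LinearMap.ker (f.domRestrict S)).map S.subtype = S ⊓ LinearMap.ker f := by
      ext x
      constructor
      · rintro ⟨y, hy, rfl⟩
        exact ⟨y.2, hy⟩
      · rintro ⟨hx, hf⟩
        exact ⟨⟨x, hx⟩, hf, rfl⟩
    rw [← h3]
    exact LinearEquiv.finrank_eq (Submodule.equivSubtypeMap S _)
  omega

lemma sum_wproj [CharZero K] {h : Module.End K A} (hD : IsDiag h) (F : Finset ℤ)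
    (hF : ∀ c ∉ F, ∀ x, h x = (c : K) • x → x = 0) (x : A) :
    ∑ c ∈ F, wproj hD c x = x := by
  classical
  have h1 : (∑ c ∈ F, wproj hD c) = 1 := by
    refine hD.ext fun a y hy => ?_
    rw [LinearMap.sum_apply, Module.End.one_apply]
    by_cases ha : a ∈ F
    · rw [Finset.sum_eq_single a]
      · exact wproj_same hD hy
      · intro b _ hb
        exact wproj_ne hD hy (fun h => hb h.symm)
      · exact fun h => absurd ha h
    · rw [hF a ha y hy]
      simp
  have h2 := LinearMap.congr_fun h1 x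
  rwa [LinearMap.sum_apply, Module.End.one_apply] at h2

/-- The dimension of a subspace stable under the projections onto the weight spaces. -/
lemma finrank_eq_sum [CharZero K] [FiniteDimensional K A] {h : Module.End K A} (hD : IsDiag h)
    (S : Submodule K A) (hS : ∀ c, ∀ x ∈ S, wproj hD c x ∈ S) (F : Finset ℤ)
    (hF : ∀ c ∉ F, ∀ x, h x = (c : K) • x → x = 0) :
    finrank K S = ∑ c ∈ F, finrank K (S ⊓ h.eigenspace (c : K) : Submodule K A) := by
  classical
  let V : F → Submodule K A := fun c => S ⊓ h.eigenspace ((c : ℤ) : K)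
  let φ : S →ₗ[K] (∀ c : F, V c) :=
    { toFun := fun x c => ⟨wproj hD c x, hS c x x.2, Module.End.mem_eigenspace_iff.2 (h_wproj hD c x)⟩
      map_add' := fun x y => by
        funext c
        exact Subtype.ext (map_add _ _ _)
      map_smul' := fun a x => by
        funext c
        exact Subtype.ext (map_smul _ _ _) }
  have hinj : Function.Injective φ := by
    rw [injective_iff_map_eq_zero]
    intro x hx
    apply Subtype.ext
    rw [← sum_wproj hD F hF (x : A)]
    refine Finset.sum_eq_zero fun c hc => ?_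
    exact congrArg Subtype.val (congrFun hx ⟨c, hc⟩)
  have hsurj : Function.Surjective φ := by
    intro y
    refine ⟨⟨∑ c : F, (y c : A), Submodule.sum_mem _ fun c _ => (y c).2.1⟩, ?_⟩
    funext c
    apply Subtype.ext
    show wproj hD c (∑ c : F, (y c : A)) = y c
    rw [map_sum, Finset.sum_eq_single c]
    · exact wproj_same hD (Module.End.mem_eigenspace_iff.1 (y c).2.2)
    · intro b _ hb
      exact wproj_ne hD (Module.End.mem_eigenspace_iff.1 (y b).2.2)
        (fun h => hb (Subtype.ext h))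
    · exact fun h => absurd (Finset.mem_univ _) h
  have h1 := LinearEquiv.finrank_eq (LinearEquiv.ofBijective φ ⟨hinj, hsurj⟩)
  rw [h1, Module.finrank_pi_fintype]
  exact Finset.sum_coe_sort F (fun c : ℤ => finrank K (S ⊓ h.eigenspace (c : K) : Submodule K A))

end Abs

variable {Ω : Type u} [Field Ω] [CharZero Ω] {Γ : Type} {n q : ℕ}

section Fibre

variable (X : SpecialFibre.{u, v} Ω Γ n q) {lam : ∀ a, Module.End Ω (X.H a)} (hl : IsDual X lam)

lemma weight_H₁ {c : ℤ} (hc : c ∉ Finset.Icc (-(n : ℤ)) n) (x : Total X.toStrataData)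
    (hx : H₁ X x = (c : Ω) • x) : x = 0 := by
  rw [eq_sgl X hx]
  have h1 : val X x c = 0 := by
    apply col_zero X
    rw [Finset.mem_Icc] at hc
    by_contra hcon
    rw [not_lt, abs_le] at hcon
    exact hc hcon
  rw [h1]
  exact sgl_zero X _

lemma tot_zero' {a c : ℤ} (hc : (n : ℤ) < c) {x : X.C} (hx : x ∈ X.tot a c) : x = 0 := by
  funext b
  have h1 := (hx b).1
  rw [X.gr_eq_bot b _ (Or.inr (by omega)), Submodule.mem_bot] at h1
  exact h1

include hl in
lemma weight_H₂ {c : ℤ} (hc : c ∉ Finset.Icc (-(n : ℤ)) n) (x : Total X.toStrataData)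
    (hx : H₂ X lam x = (c : Ω) • x) : x = 0 := by
  apply val_inj X
  funext r
  have h1 : val X x r ∈ X.tot r c := mem_tot X hl hx
  rw [Finset.mem_Icc, not_and_or, not_le, not_le] at hc
  rcases hc with hc | hc
  · exact tot_zero X (by omega) h1
  · exact tot_zero' X hc h1

/-- The component in column `r`. -/
noncomputable def evl (r : ℤ) : Total X.toStrataData →ₗ[Ω] X.C where
  toFun x := val X x r
  map_add' _ _ := rfl
  map_smul' _ _ := rfl

/-- The dimension of a homogeneous part. -/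
lemma finrank_part (hl : IsDual X lam) {S : Submodule Ω (Total X.toStrataData)} {r j : ℤ}
    {Z : Submodule Ω X.C} (hZ : ∀ x, x ∈ Z ↔ x ∈ X.tot r j ∧ sgl X r x ∈ S) :
    finrank Ω ((S ⊓ (H₂ X lam).eigenspace (j : Ω)) ⊓ (H₁ X).eigenspace (r : Ω) :
      Submodule Ω (Total X.toStrataData)) = finrank Ω Z := by
  set T : Submodule Ω (Total X.toStrataData) :=
    (S ⊓ (H₂ X lam).eigenspace (j : Ω)) ⊓ (H₁ X).eigenspace (r : Ω) with hT
  have h1 : ∀ x ∈ T, evl X r x ∈ Z := by
    rintro x ⟨⟨hS, h2⟩, h1⟩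
    refine (hZ _).2 ⟨mem_tot X hl (Module.End.mem_eigenspace_iff.1 h2), ?_⟩
    have := eq_sgl X (Module.End.mem_eigenspace_iff.1 h1)
    show sgl X r (val X x r) ∈ S
    rw [← this]
    exact hS
  have hinj : Function.Injective ((evl X r).restrict h1) := by
    rw [injective_iff_map_eq_zero]
    rintro ⟨x, hx⟩ h0
    have h2 : val X x r = 0 := congrArg Subtype.val h0
    have h3 := eq_sgl X (Module.End.mem_eigenspace_iff.1 hx.2)
    rw [h2] at h3
    apply Subtype.ext
    show x = 0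
    rw [h3]
    exact sgl_zero X _
  have hsurj : Function.Surjective ((evl X r).restrict h1) := by
    rintro ⟨y, hy⟩
    obtain ⟨h2, h3⟩ := (hZ y).1 hy
    refine ⟨⟨sgl X r y, ⟨h3, Module.End.mem_eigenspace_iff.2 (H₂_tot X hl h2)⟩,
      Module.End.mem_eigenspace_iff.2 (H₁_sgl X r y)⟩, ?_⟩
    apply Subtype.ext
    exact sgl_val X h2
  exact LinearEquiv.finrank_eq (LinearEquiv.ofBijective _ ⟨hinj, hsurj⟩)

/-- The dimension of a bigraded subspace. -/
lemma finrank_bigraded (hl : IsDual X lam) {S : Submodule Ω (Total X.toStrataData)}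
    (hS₁ : ∀ c, ∀ x ∈ S, wproj (diag₁ X) c x ∈ S) (hS₂ : ∀ c, ∀ x ∈ S, wproj (diag₂ X hl) c x ∈ S)
    (Z : ℤ → ℤ → Submodule Ω X.C) (hZ : ∀ r j x, x ∈ Z r j ↔ x ∈ X.tot r j ∧ sgl X r x ∈ S) :
    finrank Ω S = ∑ j ∈ Finset.Icc (-(n : ℤ)) n, ∑ r ∈ Finset.Icc (-(n : ℤ)) n,
      finrank Ω (Z r j) := by
  rw [finrank_eq_sum (diag₂ X hl) S hS₂ (Finset.Icc (-(n : ℤ)) n)
    (fun c hc x hx => weight_H₂ X hl hc x hx)]
  refine Finset.sum_congr rfl fun j _ => ?_
  rw [finrank_eq_sum (diag₁ X) _ ?_ (Finset.Icc (-(n : ℤ)) n) (fun c hc x hx =>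
    weight_H₁ X hc x hx)]
  · exact Finset.sum_congr rfl fun r _ => finrank_part X hl (hZ r j)
  · rintro c x ⟨hx, hx'⟩
    refine ⟨hS₁ c x hx, Module.End.mem_eigenspace_iff.2 ?_⟩
    rw [← wproj_comm (diag₁ X) (g := H₂ X lam) (weightComplex X hl).h₁h₂,
      Module.End.mem_eigenspace_iff.1 hx', map_smul]

lemma totD_wproj₁ (c : ℤ) (x : Total X.toStrataData) : wproj (diag₁ X) (c + 1)
    (totD X.toStrataData x) = totD X.toStrataData (wproj (diag₁ X) c x) := by
  refine wproj_shift (diag₁ X) (g := totD X.toStrataData) 1 ?_ c x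
  ext1 x
  apply val_inj X
  funext r
  have e1 : val X ((H₁ X * totD X.toStrataData - totD X.toStrataData * H₁ X) x) r =
      val X (H₁ X (totD X.toStrataData x)) r - val X (totD X.toStrataData (H₁ X x)) r := rfl
  have e2 : val X ((((1 : ℤ) : Ω) • totD X.toStrataData) x) r =
      ((1 : ℤ) : Ω) • val X (totD X.toStrataData x) r := rfl
  rw [e1, e2, H₁_apply, totD_apply, totD_apply, H₁_apply, map_smul, ← sub_smul]
  congr 1
  push_cast
  ring

lemma totD_wproj₂ (hl : IsDual X lam) (c : ℤ) (x : Total X.toStrataData) :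
    wproj (diag₂ X hl) (c + 1) (totD X.toStrataData x) =
      totD X.toStrataData (wproj (diag₂ X hl) c x) :=
  wproj_shift (diag₂ X hl) (g := totD X.toStrataData) 1
    (by rw [(weightComplex X hl).h₂d]; simp) c x

/-- The dimension of the cocycles. -/
lemma finrank_ker (hl : IsDual X lam) : finrank Ω (LinearMap.ker (totD X.toStrataData)) =
    ∑ j ∈ Finset.Icc (-(n : ℤ)) n, ∑ r ∈ Finset.Icc (-(n : ℤ)) n,
      finrank Ω (Zc X.diff X.tot r j) := by
  refine finrank_bigraded X hl ?_ ?_ _ ?_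
  · intro c x hx
    rw [LinearMap.mem_ker, ← totD_wproj₁, LinearMap.mem_ker.1 hx, map_zero]
  · intro c x hx
    rw [LinearMap.mem_ker, ← totD_wproj₂ X hl, LinearMap.mem_ker.1 hx, map_zero]
  · intro r j x
    constructor
    · rintro ⟨h1, h2⟩
      exact ⟨h1, LinearMap.mem_ker.2 ((ker_iff X h1).2 h2)⟩
    · rintro ⟨h1, h2⟩
      exact ⟨h1, (ker_iff X h1).1 (LinearMap.mem_ker.1 h2)⟩

/-- The dimension of the coboundaries. -/
lemma finrank_range (hl : IsDual X lam) : finrank Ω (LinearMap.range (totD X.toStrataData)) =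
    ∑ j ∈ Finset.Icc (-(n : ℤ)) n, ∑ r ∈ Finset.Icc (-(n : ℤ)) n,
      finrank Ω (Bd X.diff X.tot r j) := by
  refine finrank_bigraded X hl ?_ ?_ _ ?_
  · rintro c _ ⟨y, rfl⟩
    have := totD_wproj₁ X (c - 1) y
    rw [sub_add_cancel] at this
    rw [this]
    exact ⟨_, rfl⟩
  · rintro c _ ⟨y, rfl⟩
    have := totD_wproj₂ X hl (c - 1) y
    rw [sub_add_cancel] at this
    rw [this]
    exact ⟨_, rfl⟩
  · intro r j x
    constructor
    · intro h
      have h1 : x ∈ X.tot r j := by
        have := X.bd_le_zc r (n + j - r) (by rw [← X.bd_eq]; exact h)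
        exact this.1
      exact ⟨h1, (range_iff X h1 hl).2 h⟩
    · rintro ⟨h1, h2⟩
      exact (range_iff X h1 hl).1 h2

end Fibre

section Generic

variable (X : SemistableModel.{u, v} Ω Γ n q)

open Pool.Agent.R942.WB Pool.Agent.R942.WM in
/-- The dimension of a graded piece. -/
lemma dim_gr (i : ℕ) (w : ℤ) : (finrank Ω (X.W i w) : ℤ) - finrank Ω (X.W i (w - 1)) =
    finrank Ω (X.cocycles (i - w) w) - finrank Ω (X.coboundaries (i - w) w) := by
  have := finite_V X i
  have hW : X.W i (w - 1) ≤ X.W i w := X.W_mono i (by omega)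
  have hB : X.coboundaries (i - w) w ≤ X.cocycles (i - w) w := X.bd_le_zc _ _
  apply le_antisymm
  · apply Pool.Agent.R942.WB.finrank_rel (X.sp i w) hW hB
    · intro v hv
      obtain ⟨x, hx⟩ := X.sp_left i w v hv
      exact ⟨x, (X.sp_mem i w v x hx).2, hx⟩
    · intro v x _ _ hvx hx
      exact (X.sp_ker i w v x hvx).2 hx
  · apply Pool.Agent.R942.WB.finrank_rel
      ((X.sp i w).comap (LinearEquiv.prodComm Ω X.C (X.V i)).toLinearMap) hB hW
    · intro x hx
      obtain ⟨v, hv⟩ := X.sp_right i w x hx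
      exact ⟨v, (X.sp_mem i w v x hv).1, hv⟩
    · intro x v _ _ hvx hv
      exact (X.sp_ker i w v x hvx).1 hv

lemma cocycles_zero {r w : ℤ} (hr : (n : ℤ) < |r|) : X.cocycles r w = ⊥ := by
  rw [eq_bot_iff]
  rintro x ⟨hx, -⟩
  rw [Submodule.mem_bot]
  funext a
  by_cases h : InColumn r a
  · exact X.eq_zero_of_lt (by have := h.1; omega) _
  · exact (hx a).2 h

lemma W_step (i : ℕ) {w : ℤ} (hw : (n : ℤ) < |(i : ℤ) - w|) : X.W i w = X.W i (w - 1) := by
  apply le_antisymm _ (X.W_mono i (by omega))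
  intro v hv
  obtain ⟨x, hx⟩ := X.sp_left i w v hv
  have h1 := (X.sp_mem i w v x hx).2
  rw [cocycles_zero X hw, Submodule.mem_bot] at h1
  rw [X.sp_ker i w v x hx, h1]
  exact Submodule.zero_mem _

lemma W_low (i : ℕ) : X.W i ((i : ℤ) - n - 1) = ⊥ := by
  obtain ⟨w, hw⟩ := X.W_bot i
  have key : ∀ k : ℕ, X.W i ((i : ℤ) - n - 1 - k) = X.W i ((i : ℤ) - n - 1) := by
    intro k
    induction k with
    | zero =>
      congr 1
      push_cast
      ring
    | succ k ih =>
      rw [← ih, W_step X i (w := (i : ℤ) - n - 1 - k)]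
      · congr 1
        push_cast
        ring
      · rw [abs_of_nonneg (by omega)]
        omega
  rw [← key ((i : ℤ) - n - 1 - w).toNat, eq_bot_iff, ← hw]
  apply X.W_mono i
  have := Int.self_le_toNat ((i : ℤ) - n - 1 - w)
  omega

lemma W_high (i : ℕ) : X.W i ((i : ℤ) + n) = ⊤ := by
  obtain ⟨w, hw⟩ := X.W_top i
  have key : ∀ k : ℕ, X.W i ((i : ℤ) + n + k) = X.W i ((i : ℤ) + n) := by
    intro k
    induction k with
    | zero =>
      rw [Nat.cast_zero, add_zero]
    | succ k ih =>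
      rw [← ih, W_step X i (w := (i : ℤ) + n + ((k + 1 : ℕ) : ℤ))]
      · congr 1
        push_cast
        ring
      · rw [abs_of_neg (by push_cast; omega)]
        push_cast
        omega
  rw [← key (w - ((i : ℤ) + n)).toNat, eq_top_iff, ← hw]
  apply X.W_mono i
  have := Int.self_le_toNat (w - ((i : ℤ) + n))
  omega

lemma sum_W (i T : ℕ) : (finrank Ω (X.W i ((i : ℤ) - n - 1 + T)) : ℤ) +
    ∑ t ∈ Finset.range T, (finrank Ω (X.coboundaries ((n : ℤ) - t) ((i : ℤ) - n + t)) : ℤ) =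
      ∑ t ∈ Finset.range T, (finrank Ω (X.cocycles ((n : ℤ) - t) ((i : ℤ) - n + t)) : ℤ) := by
  induction T with
  | zero =>
    rw [Finset.range_zero, Finset.sum_empty, Finset.sum_empty, Nat.cast_zero, add_zero, add_zero,
      W_low, finrank_bot, Nat.cast_zero]
  | succ T ih =>
    rw [Finset.sum_range_succ, Finset.sum_range_succ, ← ih]
    have h := dim_gr X i ((i : ℤ) - n + T)
    rw [show (i : ℤ) - ((i : ℤ) - n + T) = n - T by ring,
      show (i : ℤ) - n + T - 1 = i - n - 1 + T by ring] at h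
    rw [show (i : ℤ) - n - 1 + ((T + 1 : ℕ) : ℤ) = i - n + T by push_cast; ring]
    linarith

lemma sum_Icc (f : ℤ → ℤ) : ∑ t ∈ Finset.range (2 * n + 1), f ((n : ℤ) - t) =
    ∑ r ∈ Finset.Icc (-(n : ℤ)) n, f r := by
  refine Finset.sum_nbij' (fun t => (n : ℤ) - t) (fun r => ((n : ℤ) - r).toNat) ?_ ?_ ?_ ?_ ?_
  · intro t ht
    rw [Finset.mem_range] at ht
    rw [Finset.mem_Icc]
    omega
  · intro r hr
    rw [Finset.mem_Icc] at hr
    rw [Finset.mem_range]
    omega
  · intro t ht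
    omega
  · intro r hr
    rw [Finset.mem_Icc] at hr
    omega
  · intro t _
    rfl

/-- The Betti numbers in terms of the `E_2` term. -/
lemma finrank_V (i : ℕ) : (finrank Ω (X.V i) : ℤ) +
    ∑ r ∈ Finset.Icc (-(n : ℤ)) n, (finrank Ω (Bd X.diff X.tot r ((i : ℤ) - n)) : ℤ) =
      ∑ r ∈ Finset.Icc (-(n : ℤ)) n, (finrank Ω (Zc X.diff X.tot r ((i : ℤ) - n)) : ℤ) := by
  have h := sum_W X i (2 * n + 1)
  rw [show (i : ℤ) - n - 1 + ((2 * n + 1 : ℕ) : ℤ) = i + n by push_cast; ring, W_high,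
    finrank_top] at h
  rw [← sum_Icc, ← sum_Icc]
  have e1 : ∀ t : ℕ, Bd X.diff X.tot ((n : ℤ) - t) ((i : ℤ) - n) =
      X.coboundaries ((n : ℤ) - t) ((i : ℤ) - n + t) := by
    intro t
    rw [X.bd_eq]
    congr 1
    ring
  have e2 : ∀ t : ℕ, Zc X.diff X.tot ((n : ℤ) - t) ((i : ℤ) - n) =
      X.cocycles ((n : ℤ) - t) ((i : ℤ) - n + t) := by
    intro t
    rw [X.zc_eq]
    congr 1
    ring
  have e3 : ∑ t ∈ Finset.range (2 * n + 1),
      (finrank Ω (Zc X.diff X.tot ((n : ℤ) - t) ((i : ℤ) - n)) : ℤ) =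
      ∑ t ∈ Finset.range (2 * n + 1),
        (finrank Ω (X.cocycles ((n : ℤ) - t) ((i : ℤ) - n + t)) : ℤ) :=
    Finset.sum_congr rfl fun t _ => by rw [e2]
  have e4 : ∑ t ∈ Finset.range (2 * n + 1),
      (finrank Ω (Bd X.diff X.tot ((n : ℤ) - t) ((i : ℤ) - n)) : ℤ) =
      ∑ t ∈ Finset.range (2 * n + 1),
        (finrank Ω (X.coboundaries ((n : ℤ) - t) ((i : ℤ) - n + t)) : ℤ) :=
    Finset.sum_congr rfl fun t _ => by rw [e1]
  rw [e3, e4]
  exact h

/-- The sum of the Betti numbers is the dimension of the total homology. -/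
theorem betti_eq {lam : ∀ a, Module.End Ω (X.H a)} (hl : IsDual X.toSpecialFibre lam) :
    bettiSum X + finrank Ω (LinearMap.range (totD X.toStrataData)) =
      finrank Ω (LinearMap.ker (totD X.toStrataData)) := by
  have h1 : ∀ f : ℤ → ℤ, ∑ i ∈ Finset.range (2 * n + 1), f ((i : ℤ) - n) =
      ∑ j ∈ Finset.Icc (-(n : ℤ)) n, f j := by
    intro f
    refine Finset.sum_nbij' (fun t => (t : ℤ) - n) (fun r => (r + (n : ℤ)).toNat) ?_ ?_ ?_ ?_ ?_
    · intro t ht
      rw [Finset.mem_range] at ht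
      rw [Finset.mem_Icc]
      omega
    · intro r hr
      rw [Finset.mem_Icc] at hr
      rw [Finset.mem_range]
      omega
    · intro t ht
      omega
    · intro r hr
      rw [Finset.mem_Icc] at hr
      omega
    · intro t _
      rfl
  have h2 : ((bettiSum X : ℕ) : ℤ) + (finrank Ω (LinearMap.range (totD X.toStrataData)) : ℤ) =
      (finrank Ω (LinearMap.ker (totD X.toStrataData)) : ℤ) := by
    rw [finrank_range X.toSpecialFibre hl, finrank_ker X.toSpecialFibre hl, bettiSum]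
    push_cast
    rw [← h1, ← h1, ← Finset.sum_add_distrib]
    exact Finset.sum_congr rfl fun i _ => finrank_V X i
  exact_mod_cast h2

end Generic

end Pool.Agent.H849.SF
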