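import Pool.Agent.H849.SF.Tot

/-!
# The total `E_1` term is finite-dimensional
-/

set_option autoImplicit false

namespace Pool.Agent.H849.SF

universe u v

open Module Pool.Agent.Y143

instance finTotal {Ω : Type u} [Field Ω] [CharZero Ω] {Γ : Type} {n q : ℕ}
    (X : SpecialFibre.{u, v} Ω Γ n q) : Module.Finite Ω (Total X.toStrataData) :=
  finTotal_aux X

end Pool.Agent.H849.SF
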