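import Pool.Agent.H849.SF.Lap

/-!
# The Fitting decomposition for the Laplace operator
-/

set_option autoImplicit false

open Module

namespace Pool.Agent.H849.SF

variable {K : Type*} [Field K] {E : Type*} [AddCommGroup E] [Module K E]

/-- `P` is the projection onto the null component of the Fitting decomposition of `D`. -/
structure IsFitting (D P : Module.End K E) : Prop where
  idem : ∀ x, P (P x) = P x
  comm : ∀ g : Module.End K E, Commute g D → Commute g P
  nil : ∃ m : ℕ, ∀ x, (D ^ m) (P x) = 0
  mem : ∀ x, (∃ m : ℕ, (D ^ m) x = 0) → P x = x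
  surj : ∀ x, P x = 0 → ∃ y, P y = 0 ∧ D y = x
  range : LinearMap.range P = D.maxGenEigenspace 0

variable [FiniteDimensional K E]

lemma exists_fitting (D : Module.End K E) : ∃ P : Module.End K E, IsFitting D P := by
  obtain ⟨k, hk⟩ := Filter.eventually_atTop.mp <| D.eventually_isCompl_ker_pow_range_pow.and <|
    D.eventually_iInf_range_pow_eq.and D.eventually_iSup_ker_pow_eq
  obtain ⟨h₁, h₂, h₃⟩ := hk k le_rfl
  obtain ⟨-, h₂', -⟩ := hk (k + 1) (by omega)
  have hker : ∀ m x, (D ^ m) x = 0 → (D ^ k) x = 0 := by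
    intro m x hx
    have : x ∈ ⨆ n, LinearMap.ker (D ^ n) := Submodule.mem_iSup_of_mem m hx
    rw [h₃] at this
    exact this
  set P : Module.End K E := (LinearMap.ker (D ^ k)).projection (LinearMap.range (D ^ k)) h₁ with hP
  have hPm : ∀ x, P x ∈ LinearMap.ker (D ^ k) := fun x => Submodule.projection_apply_mem h₁ x
  have hP0 : ∀ x, P x = 0 ↔ x ∈ LinearMap.range (D ^ k) := fun x =>
    Submodule.projection_apply_eq_zero_iff h₁
  have hP1 : ∀ x, P x = x ↔ x ∈ LinearMap.ker (D ^ k) := fun x =>
    Submodule.projection_eq_self_iff h₁ x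
  refine ⟨P, ⟨fun x => (hP1 _).2 (hPm x), ?_, ⟨k, hPm⟩, ?_, ?_, ?_⟩⟩
  · intro g hg
    have hgk : Commute g (D ^ k) := hg.pow_right k
    rw [commute_iff_eq]
    ext x
    have e1 : x - P x ∈ LinearMap.range (D ^ k) := (hP0 _).1 (by
      rw [map_sub, (hP1 (P x)).2 (hPm x), sub_self])
    have e2 : g (x - P x) ∈ LinearMap.range (D ^ k) := by
      obtain ⟨z, hz⟩ := e1
      refine ⟨g z, ?_⟩
      rw [← hz]
      exact (LinearMap.congr_fun hgk.eq z).symm
    have e3 : g (P x) ∈ LinearMap.ker (D ^ k) := by
      rw [LinearMap.mem_ker]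
      have := LinearMap.congr_fun hgk.eq (P x)
      simp only [Module.End.mul_apply] at this
      rw [← this, LinearMap.mem_ker.1 (hPm x), map_zero]
    have e4 : P (g x) = P (g (x - P x)) + P (g (P x)) := by
      rw [← map_add, ← map_add, sub_add_cancel]
    rw [Module.End.mul_apply, Module.End.mul_apply, e4, (hP0 _).2 e2, (hP1 _).2 e3, zero_add]
  · rintro x ⟨m, hm⟩
    exact (hP1 x).2 (hker m x hm)
  · intro x hx
    have h4 : x ∈ LinearMap.range (D ^ (k + 1)) := by
      rw [← h₂', h₂]
      exact (hP0 x).1 hx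
    obtain ⟨z, hz⟩ := h4
    refine ⟨(D ^ k) z, (hP0 _).2 ⟨z, rfl⟩, ?_⟩
    rw [← Module.End.mul_apply, ← pow_succ', hz]
  · have e1 : D.maxGenEigenspace 0 = LinearMap.ker (D ^ k) := by
      rw [← h₃]
      simp [← Module.End.iSup_genEigenspace_eq, Module.End.genEigenspace_nat]
    rw [e1]
    exact Submodule.range_projection h₁

namespace IsFitting

variable {D P : Module.End K E} (F : IsFitting D P)
include F

omit [FiniteDimensional K E] in
lemma apply_comm {g : Module.End K E} (hg : Commute g D) (x : E) : P (g x) = g (P x) :=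
  (LinearMap.congr_fun (F.comm g hg).eq x).symm

omit [FiniteDimensional K E] in
/-- `D` is injective on the kernel of `P`. -/
lemma inj {x : E} (hx : P x = 0) (hD : D x = 0) : x = 0 := by
  rw [← F.mem x ⟨1, by simpa using hD⟩, hx]

end IsFitting

namespace IsWeightComplex

variable {h₁ N N' h₂ L L' d : Module.End K E} (W : IsWeightComplex h₁ N N' h₂ L L' d)
  {P : Module.End K E} (F : IsFitting (lap N' L' d) P)
include W F

omit [FiniteDimensional K E] in
lemma P_d (x : E) : P (d x) = d (P x) := F.apply_comm W.d_lap x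

/-- Off the null component the complex is exact. -/
lemma exact [CharZero K] {x : E} (hx : P x = 0) (hd : d x = 0) : ∃ y, P y = 0 ∧ d y = x := by
  obtain ⟨y, hy, hyx⟩ := F.surj x hx
  have h1 : d y = 0 := by
    refine F.inj (D := lap N' L' d) (P := P) ?_ ?_
    · rw [W.P_d F, hy, map_zero]
    · have := LinearMap.congr_fun W.d_lap.eq y
      simp only [Module.End.mul_apply] at this
      rw [← this, hyx, hd]
  refine ⟨cod N' L' d y, ?_, ?_⟩
  · rw [F.apply_comm W.cod_lap, hy, map_zero]
  · rw [← hyx]
    simp only [lap, LinearMap.add_apply, Module.End.mul_apply]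
    rw [h1, map_zero, add_zero]

/-- The rank of `d`, in terms of its rank on the null component. -/
lemma rank [CharZero K] : finrank K (LinearMap.range P) + 2 * finrank K (LinearMap.range d) =
    finrank K E + 2 * finrank K (LinearMap.range (d * P)) := by
  set A : Submodule K E := (LinearMap.ker P).map d with hA
  set B : Submodule K E := LinearMap.range (d * P) with hB
  have hAP : A ≤ LinearMap.ker P := by
    rintro _ ⟨y, hy, rfl⟩
    rw [LinearMap.mem_ker, W.P_d F, LinearMap.mem_ker.1 hy, map_zero]
  have hsup : B ⊔ A = LinearMap.range d := by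
    apply le_antisymm
    · apply sup_le
      · rintro _ ⟨y, rfl⟩
        exact ⟨P y, rfl⟩
      · rintro _ ⟨y, -, rfl⟩
        exact ⟨y, rfl⟩
    · rintro _ ⟨y, rfl⟩
      refine Submodule.mem_sup.2 ⟨d (P y), ⟨y, rfl⟩, d (y - P y), ⟨y - P y, ?_, rfl⟩, ?_⟩
      · rw [SetLike.mem_coe, LinearMap.mem_ker, map_sub, F.idem, sub_self]
      · rw [← map_add, add_sub_cancel]
  have hinf : B ⊓ A = ⊥ := by
    rw [eq_bot_iff]
    rintro x ⟨⟨y, rfl⟩, hx⟩
    have h1 : P ((d * P) y) = 0 := hAP hx
    rw [Module.End.mul_apply, W.P_d F, F.idem] at h1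
    rw [Submodule.mem_bot, Module.End.mul_apply]
    exact h1
  have h1 := Submodule.finrank_sup_add_finrank_inf_eq B A
  rw [hsup, hinf, finrank_bot, add_zero] at h1
  have h2 := LinearMap.finrank_range_add_finrank_ker P
  have h3 := LinearMap.finrank_range_add_finrank_ker (d.domRestrict (LinearMap.ker P))
  rw [LinearMap.range_domRestrict, ← hA] at h3
  have h4 : finrank K (LinearMap.ker (d.domRestrict (LinearMap.ker P))) = finrank K A := by
    have h5 : LinearMap.ker (d.domRestrict (LinearMap.ker P)) =
        A.comap (LinearMap.ker P).subtype := by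
      ext x
      rw [LinearMap.mem_ker, LinearMap.domRestrict_apply, Submodule.mem_comap,
        Submodule.subtype_apply]
      constructor
      · intro hx
        obtain ⟨y, hy, hyx⟩ := W.exact F (LinearMap.mem_ker.1 x.2) hx
        exact ⟨y, hy, hyx⟩
      · rintro ⟨y, -, hyx⟩
        rw [← hyx, ← Module.End.mul_apply, W.dd, LinearMap.zero_apply]
    rw [h5]
    exact LinearEquiv.finrank_eq (Submodule.comapSubtypeEquivOfLe hAP)
  rw [h4] at h3
  omega

end IsWeightComplex

end Pool.Agent.H849.SF
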