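import Pool.Agent.H849.SF.Sl2
import Pool.Agent.H849.SF.Gen

/-!
# The Laplace operator of a weight complex
-/

set_option autoImplicit false

open Module

namespace Pool.Agent.H849.SF

variable {K : Type*} [Field K] {E : Type*} [AddCommGroup E] [Module K E]

/-- Two commuting triples `(h₁, N, N')` and `(h₂, L, L')` and a differential `d` of degree `1` for
both, which commutes with `N` and `L`. -/
structure IsWeightComplex (h₁ N N' h₂ L L' d : Module.End K E) : Prop where
  t₁ : Triple h₁ N N'
  t₂ : Triple h₂ L L'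
  NL : N * L = L * N
  NL' : N * L' = L' * N
  N'L : N' * L = L * N'
  N'L' : N' * L' = L' * N'
  dd : d * d = 0
  Nd : N * d = d * N
  Ld : L * d = d * L
  h₁d : h₁ * d - d * h₁ = d
  h₂d : h₂ * d - d * h₂ = d

namespace IsWeightComplex

variable {h₁ N N' h₂ L L' d : Module.End K E} (W : IsWeightComplex h₁ N N' h₂ L L' d)
include W

lemma h₁L' : h₁ * L' = L' * h₁ := by
  rw [← W.t₁.ef]
  linear_combination (norm := noncomm_ring) N * W.N'L' + W.NL' * N' - N' * W.NL' - W.N'L' * N

lemma h₁L : h₁ * L = L * h₁ := by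
  rw [← W.t₁.ef]
  linear_combination (norm := noncomm_ring) N * W.N'L + W.NL * N' - N' * W.NL - W.N'L * N

lemma h₂N' : h₂ * N' = N' * h₂ := by
  rw [← W.t₂.ef]
  linear_combination (norm := noncomm_ring) -L * W.N'L' - W.N'L * L' + L' * W.N'L + W.N'L' * L

lemma h₂N : h₂ * N = N * h₂ := by
  rw [← W.t₂.ef]
  linear_combination (norm := noncomm_ring) -L * W.NL' - W.NL * L' + L' * W.NL + W.NL' * L

lemma h₁h₂ : h₁ * h₂ = h₂ * h₁ := by
  rw [← W.t₂.ef]
  linear_combination (norm := noncomm_ring) L * W.h₁L' + W.h₁L * L' - L' * W.h₁L - W.h₁L' * L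

lemma cod_eq : cod N' L' d = L' * (N' * d - d * N') - (N' * d - d * N') * L' := by
  rw [cod]
  linear_combination (norm := noncomm_ring) W.N'L' * d - d * W.N'L'

lemma du : d * (N' * d - d * N') + (N' * d - d * N') * d = 0 := by
  linear_combination (norm := noncomm_ring) N' * W.dd - W.dd * N'

lemma dv : d * (L' * d - d * L') + (L' * d - d * L') * d = 0 := by
  linear_combination (norm := noncomm_ring) L' * W.dd - W.dd * L'

lemma d_cod : d * cod N' L' d + cod N' L' d * d +
    ((N' * d - d * N') * (L' * d - d * L') + (L' * d - d * L') * (N' * d - d * N')) = 0 := by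
  have h := W.du
  rw [W.cod_eq]
  linear_combination (norm := noncomm_ring) L' * h - h * L'

section Fin

variable [CharZero K] [FiniteDimensional K E]

lemma uu' : N' * (N' * d - d * N') = (N' * d - d * N') * N' :=
  sub_eq_zero.1 (adj_adj W.t₁ W.h₁d W.Nd)

lemma vv' : L' * (L' * d - d * L') = (L' * d - d * L') * L' :=
  sub_eq_zero.1 (adj_adj W.t₂ W.h₂d W.Ld)

lemma N'_cod : N' * cod N' L' d = cod N' L' d * N' := by
  have h := W.uu'
  rw [W.cod_eq]
  linear_combination (norm := noncomm_ring) W.N'L' * (N' * d - d * N') + L' * h - h * L' -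
    (N' * d - d * N') * W.N'L'

lemma L'_cod : L' * cod N' L' d = cod N' L' d * L' := by
  have h := W.vv'
  rw [cod]
  linear_combination (norm := noncomm_ring) -W.N'L' * (L' * d - d * L') + N' * h - h * N' +
    (L' * d - d * L') * W.N'L'

lemma u_cod : (N' * d - d * N') * cod N' L' d + cod N' L' d * (N' * d - d * N') = 0 := by
  have h1 := W.d_cod
  have h2 := W.N'_cod
  have h3 := W.uu'
  have hδ : N' * (L' * d - d * L') - (L' * d - d * L') * N' = cod N' L' d := rfl
  set δ := cod N' L' d with hδ'
  generalize hu : N' * d - d * N' = u at *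
  generalize hv : L' * d - d * L' = v at *
  have h5 : (2 : K) • (u * δ + δ * u) = 0 := by
    rw [two_smul]
    linear_combination (norm := noncomm_ring) N' * h1 - h1 * N' - hu * δ - d * h2 - h2 * d -
      δ * hu - h3 * v - u * hδ - hδ * u - v * h3
  exact (smul_eq_zero.1 h5).resolve_left two_ne_zero

lemma v_cod : (L' * d - d * L') * cod N' L' d + cod N' L' d * (L' * d - d * L') = 0 := by
  have h1 := W.d_cod
  have h2 := W.L'_cod
  have h3 := W.vv'
  have hδ : L' * (N' * d - d * N') - (N' * d - d * N') * L' = cod N' L' d := W.cod_eq.symm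
  set δ := cod N' L' d with hδ'
  generalize hu : N' * d - d * N' = u at *
  generalize hv : L' * d - d * L' = v at *
  have h5 : (2 : K) • (v * δ + δ * v) = 0 := by
    rw [two_smul]
    linear_combination (norm := noncomm_ring) L' * h1 - h1 * L' - hv * δ - d * h2 - h2 * d -
      δ * hv - h3 * u - v * hδ - hδ * v - u * h3
  exact (smul_eq_zero.1 h5).resolve_left two_ne_zero

lemma cod_cod : cod N' L' d * cod N' L' d = 0 := by
  have h1 := W.u_cod
  have h2 := W.L'_cod
  have hδ : L' * (N' * d - d * N') - (N' * d - d * N') * L' = cod N' L' d := W.cod_eq.symm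
  set δ := cod N' L' d with hδ'
  generalize hu : N' * d - d * N' = u at *
  have h5 : (2 : K) • (δ * δ) = 0 := by
    rw [two_smul]
    linear_combination (norm := noncomm_ring) L' * h1 - h1 * L' - hδ * δ - u * h2 - h2 * u -
      δ * hδ
  exact (smul_eq_zero.1 h5).resolve_left two_ne_zero

lemma N'_lap : Commute N' (lap N' L' d) := by
  have h1 := W.u_cod
  have h2 := W.N'_cod
  rw [commute_iff_eq, lap]
  linear_combination (norm := noncomm_ring) h1 + d * h2 + h2 * d

lemma L'_lap : Commute L' (lap N' L' d) := by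
  have h1 := W.v_cod
  have h2 := W.L'_cod
  rw [commute_iff_eq, lap]
  linear_combination (norm := noncomm_ring) h1 + d * h2 + h2 * d

end Fin

lemma Nv : N * (L' * d - d * L') = (L' * d - d * L') * N := by
  linear_combination (norm := noncomm_ring) W.NL' * d + L' * W.Nd - W.Nd * L' - d * W.NL'

lemma Lu : L * (N' * d - d * N') = (N' * d - d * N') * L := by
  linear_combination (norm := noncomm_ring) -W.N'L * d + N' * W.Ld - W.Ld * N' + d * W.N'L

lemma h₁v : h₁ * (L' * d - d * L') - (L' * d - d * L') * h₁ = L' * d - d * L' := by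
  linear_combination (norm := noncomm_ring) W.h₁L' * d + L' * W.h₁d - W.h₁d * L' - d * W.h₁L'

lemma h₂u : h₂ * (N' * d - d * N') - (N' * d - d * N') * h₂ = N' * d - d * N' := by
  linear_combination (norm := noncomm_ring) W.h₂N' * d + N' * W.h₂d - W.h₂d * N' - d * W.h₂N'

lemma N_cod : N * cod N' L' d - cod N' L' d * N = L' * d - d * L' := by
  have h1 := W.Nv
  have h2 := W.h₁v
  rw [cod]
  generalize L' * d - d * L' = v at *
  linear_combination (norm := noncomm_ring) h2 + W.t₁.ef * v - v * W.t₁.ef + N' * h1 - h1 * N'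

lemma L_cod : L * cod N' L' d - cod N' L' d * L = N' * d - d * N' := by
  have h1 := W.Lu
  have h2 := W.h₂u
  rw [W.cod_eq]
  generalize N' * d - d * N' = u at *
  linear_combination (norm := noncomm_ring) h2 + W.t₂.ef * u - u * W.t₂.ef + L' * h1 - h1 * L'

lemma N_lap : Commute N (lap N' L' d) := by
  have h1 := W.N_cod
  have h2 := W.dv
  have h3 := W.Nd
  rw [commute_iff_eq, lap]
  linear_combination (norm := noncomm_ring) h2 + d * h1 + h1 * d + h3 * cod N' L' d +
    cod N' L' d * h3

lemma L_lap : Commute L (lap N' L' d) := by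
  have h1 := W.L_cod
  have h2 := W.du
  have h3 := W.Ld
  rw [commute_iff_eq, lap]
  linear_combination (norm := noncomm_ring) h2 + d * h1 + h1 * d + h3 * cod N' L' d +
    cod N' L' d * h3

lemma d_lap : Commute d (lap N' L' d) := by
  have h1 := W.dd
  rw [commute_iff_eq, lap]
  linear_combination (norm := noncomm_ring) h1 * cod N' L' d - cod N' L' d * h1

variable [CharZero K] [FiniteDimensional K E]

lemma h₁_lap : Commute h₁ (lap N' L' d) := by
  rw [← W.t₁.ef]
  exact (W.N_lap.mul_left W.N'_lap).sub_left (W.N'_lap.mul_left W.N_lap)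

lemma h₂_lap : Commute h₂ (lap N' L' d) := by
  rw [← W.t₂.ef]
  exact (W.L_lap.mul_left W.L'_lap).sub_left (W.L'_lap.mul_left W.L_lap)

lemma cod_lap : Commute (cod N' L' d) (lap N' L' d) := by
  have h1 := W.cod_cod
  rw [commute_iff_eq, lap]
  linear_combination (norm := noncomm_ring) h1 * d - d * h1

end IsWeightComplex

end Pool.Agent.H849.SF
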