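import Pool.Agent.H849.SF.Dim

/-!
# The refined inequalities for the graded pieces
-/

set_option autoImplicit false

namespace Pool.Agent.H849.SF

universe u v

open Module Pool.Agent.Y143

section Abs

variable {K : Type*} [Field K] [CharZero K] {E : Type*} [AddCommGroup E] [Module K E]
  [FiniteDimensional K E] {h₁ N N' h₂ L L' d P : Module.End K E}

section Part

variable (W : IsWeightComplex h₁ N N' h₂ L L' d) (F : IsFitting (lap N' L' d) P)
  (U : Submodule K E) (hU : ∀ x ∈ U, P x ∈ U)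
include W F hU

lemma part_le : finrank K (LinearMap.ker d ⊓ U : Submodule K E) ≤
    finrank K (LinearMap.range d ⊓ U : Submodule K E) +
      finrank K (LinearMap.range P ⊓ U : Submodule K E) := by
  have h1 := finrank_map_add P (LinearMap.ker d ⊓ U)
  have h2 : (LinearMap.ker d ⊓ U).map P ≤ LinearMap.range P ⊓ U := by
    rintro _ ⟨x, ⟨-, hx⟩, rfl⟩
    exact ⟨⟨x, rfl⟩, hU x hx⟩
  have h3 : (LinearMap.ker d ⊓ U) ⊓ LinearMap.ker P ≤ LinearMap.range d ⊓ U := by
    rintro x ⟨⟨hx, hxU⟩, hP⟩
    obtain ⟨y, -, hy⟩ := W.exact F (LinearMap.mem_ker.1 hP) (LinearMap.mem_ker.1 hx)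
    exact ⟨⟨y, hy⟩, hxU⟩
  have h4 := Submodule.finrank_mono h2
  have h5 := Submodule.finrank_mono h3
  omega

lemma part_eq (hs : ∀ x, d (P x) = 0) :
    finrank K (LinearMap.ker d ⊓ U : Submodule K E) =
    finrank K (LinearMap.range d ⊓ U : Submodule K E) +
      finrank K (LinearMap.range P ⊓ U : Submodule K E) := by
  have h1 := finrank_map_add P (LinearMap.ker d ⊓ U)
  have h2 : (LinearMap.ker d ⊓ U).map P = LinearMap.range P ⊓ U := by
    apply le_antisymm
    · rintro _ ⟨x, ⟨-, hx⟩, rfl⟩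
      exact ⟨⟨x, rfl⟩, hU x hx⟩
    · rintro _ ⟨⟨x, rfl⟩, hx⟩
      exact ⟨P x, ⟨hs x, hx⟩, F.idem x⟩
  have h3 : (LinearMap.ker d ⊓ U) ⊓ LinearMap.ker P = LinearMap.range d ⊓ U := by
    apply le_antisymm
    · rintro x ⟨⟨hx, hxU⟩, hP⟩
      obtain ⟨y, -, hy⟩ := W.exact F (LinearMap.mem_ker.1 hP) (LinearMap.mem_ker.1 hx)
      exact ⟨⟨y, hy⟩, hxU⟩
    · rintro _ ⟨⟨y, rfl⟩, hx⟩
      refine ⟨⟨?_, hx⟩, ?_⟩
      · show d (d y) = 0
        rw [← Module.End.mul_apply, W.dd, LinearMap.zero_apply]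
      · show P (d y) = 0
        rw [W.P_d F, hs]
  rw [h2, h3] at h1
  omega

lemma part_strong (h : finrank K (LinearMap.ker d ⊓ U : Submodule K E) =
    finrank K (LinearMap.range d ⊓ U : Submodule K E) +
      finrank K (LinearMap.range P ⊓ U : Submodule K E)) {x : E} (hx : x ∈ U) (hP : P x = x) :
    d x = 0 := by
  have h1 := finrank_map_add P (LinearMap.ker d ⊓ U)
  have h2 : (LinearMap.ker d ⊓ U).map P ≤ LinearMap.range P ⊓ U := by
    rintro _ ⟨x, ⟨-, hx⟩, rfl⟩
    exact ⟨⟨x, rfl⟩, hU x hx⟩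
  have h3 : (LinearMap.ker d ⊓ U) ⊓ LinearMap.ker P ≤ LinearMap.range d ⊓ U := by
    rintro x ⟨⟨hx, hxU⟩, hP⟩
    obtain ⟨y, -, hy⟩ := W.exact F (LinearMap.mem_ker.1 hP) (LinearMap.mem_ker.1 hx)
    exact ⟨⟨y, hy⟩, hxU⟩
  have h5 := Submodule.finrank_mono h3
  have h4 := Submodule.eq_of_le_of_finrank_le h2 (by omega)
  have h6 : x ∈ LinearMap.range P ⊓ U := ⟨⟨x, hP⟩, hx⟩
  rw [← h4] at h6
  obtain ⟨y, ⟨hy, -⟩, rfl⟩ := h6
  rw [← W.P_d F, LinearMap.mem_ker.1 hy, map_zero]

end Part

/-- If `d` vanishes on the homogeneous elements of the null component it vanishes on it. -/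
lemma strong_of_hom (W : IsWeightComplex h₁ N N' h₂ L L' d) (D₁ : IsDiag h₁) (D₂ : IsDiag h₂)
    (c₁ : Commute h₁ P) (c₂ : Commute h₂ P) (hP : ∀ x, P (P x) = P x)
    (key : ∀ (a c : ℤ) y, P y = y → h₁ y = (a : K) • y → h₂ y = (c : K) • y → d y = 0) (x : E) :
    d (P x) = 0 := by
  have h1 : d * P = 0 := by
    refine zero_of_weight D₁ fun a y hy => ?_
    rw [← wproj_same D₁ hy]
    have h2 : d * P * wproj D₁ a = 0 := by
      refine zero_of_weight D₂ fun c z hz => ?_
      rw [Module.End.mul_apply, Module.End.mul_apply]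
      refine key a c _ (hP _) ?_ ?_
      · rw [apply_eq c₁.eq, h_wproj, map_smul]
      · have hc₃ : h₂ (wproj D₁ a z) = wproj D₁ a (h₂ z) :=
          (wproj_comm D₁ (g := h₂) W.h₁h₂ a z).symm
        rw [apply_eq c₂.eq, hc₃, hz, map_smul, map_smul]
    exact LinearMap.congr_fun h2 y
  exact LinearMap.congr_fun h1 x

/-! ### Detecting a homogeneous part by an operator -/

/-- The polynomial with the roots in `[-n, n]` different from `r`. -/
noncomputable def nodal (n : ℕ) (r : ℤ) : Polynomial ℤ :=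
  ∏ s ∈ (Finset.Icc (-(n : ℤ)) n).erase r, (Polynomial.X - Polynomial.C s)

lemma nodal_eval_same (n : ℕ) (r : ℤ) : (nodal n r).eval r ≠ 0 := by
  rw [nodal, Polynomial.eval_prod, Finset.prod_ne_zero_iff]
  intro s hs
  rw [Polynomial.eval_sub, Polynomial.eval_X, Polynomial.eval_C]
  have := Finset.ne_of_mem_erase hs
  omega

lemma nodal_eval_ne {n : ℕ} {r s : ℤ} (hs : s ∈ Finset.Icc (-(n : ℤ)) n) (h : s ≠ r) :
    (nodal n r).eval s = 0 := by
  rw [nodal, Polynomial.eval_prod]
  refine Finset.prod_eq_zero (Finset.mem_erase.2 ⟨h, hs⟩) ?_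
  rw [Polynomial.eval_sub, Polynomial.eval_X, Polynomial.eval_C, sub_self]

omit [CharZero K] [FiniteDimensional K E] in
lemma aeval_weight {h : Module.End K E} {c : ℤ} {x : E} (hx : h x = (c : K) • x)
    (p : Polynomial ℤ) : (Polynomial.aeval h p) x = ((p.eval c : ℤ) : K) • x := by
  induction p using Polynomial.induction_on with
  | C a =>
    rw [Polynomial.aeval_C, Polynomial.eval_C, algebraMap_int_eq, eq_intCast,
      Module.End.intCast_apply, Int.cast_smul_eq_zsmul]
  | add p q hp hq =>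
    rw [map_add, LinearMap.add_apply, hp, hq, Polynomial.eval_add, Int.cast_add, add_smul]
  | monomial k a ih =>
    rw [pow_succ, ← mul_assoc, map_mul, Module.End.mul_apply, Polynomial.aeval_X, hx, map_smul, ih,
      smul_smul, Polynomial.eval_mul (p := Polynomial.C a * Polynomial.X ^ k), Polynomial.eval_X,
      Int.cast_mul, mul_comm]

/-- The operator which detects the part of weight `(r, j)` of the null component. -/
noncomputable def detect (n : ℕ) (r j : ℤ) {R : Type*} [Ring R] (D h₁ h₂ : R) : R :=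
  D * (Polynomial.aeval h₁ (nodal n r) * Polynomial.aeval h₂ (nodal n j)) +
    ((h₁ - (r : R)) * (h₁ - (r : R)) + (h₂ - (j : R)) * (h₂ - (j : R)))

lemma map_detect (n : ℕ) (r j : ℤ) {R S : Type*} [Ring R] [Ring S] (φ : R →+* S) (D h₁ h₂ : R) :
    φ (detect n r j D h₁ h₂) = detect n r j (φ D) (φ h₁) (φ h₂) := by
  have h : ∀ (x : R) (p : Polynomial ℤ), φ (Polynomial.aeval x p) = Polynomial.aeval (φ x) p := by
    intro x p
    exact (Polynomial.aeval_algHom_apply φ.toIntAlgHom x p).symm
  simp only [detect, map_add, map_mul, map_sub, map_intCast, h]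

omit [CharZero K] [FiniteDimensional K E] in
lemma detect_apply (n : ℕ) (r j : ℤ) (D : Module.End K E) {a c : ℤ} {x : E}
    (hx₁ : h₁ x = (a : K) • x) (hx₂ : h₂ x = (c : K) • x) :
    detect n r j D h₁ h₂ x = ((((nodal n r).eval a * (nodal n j).eval c : ℤ)) : K) • D x +
      ((((a - r) * (a - r) + (c - j) * (c - j) : ℤ)) : K) • x := by
  have e1 : ∀ (h : Module.End K E) (b s : ℤ) (y : E), h y = (b : K) • y →
      ((h - (s : Module.End K E)) * (h - (s : Module.End K E))) y =
        (((b - s) * (b - s) : ℤ) : K) • y := by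
    intro h b s y hy
    have e2 : (h - (s : Module.End K E)) y = ((b - s : ℤ) : K) • y := by
      rw [LinearMap.sub_apply, hy, Module.End.intCast_apply, ← Int.cast_smul_eq_zsmul K, ← sub_smul,
        Int.cast_sub]
    rw [Module.End.mul_apply, e2, map_smul, e2, smul_smul, Int.cast_mul]
  rw [detect, LinearMap.add_apply, LinearMap.add_apply, e1 h₁ a r x hx₁, e1 h₂ c j x hx₂,
    Module.End.mul_apply, Module.End.mul_apply, aeval_weight hx₂, map_smul, aeval_weight hx₁,
    map_smul, map_smul, smul_smul, ← add_smul, ← Int.cast_add, ← Int.cast_mul, mul_comm]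

/-- The null component of the detecting operator. -/
lemma detect_null (W : IsWeightComplex h₁ N N' h₂ L L' d) (F : IsFitting (lap N' L' d) P)
    (D₁ : IsDiag h₁) (D₂ : IsDiag h₂) (n : ℕ)
    (w₁ : ∀ c ∉ Finset.Icc (-(n : ℤ)) n, ∀ x, h₁ x = (c : K) • x → x = 0)
    (w₂ : ∀ c ∉ Finset.Icc (-(n : ℤ)) n, ∀ x, h₂ x = (c : K) • x → x = 0) (r j : ℤ) :
    (detect n r j (lap N' L' d) h₁ h₂).maxGenEigenspace 0 =
      (LinearMap.range P ⊓ h₂.eigenspace (j : K)) ⊓ h₁.eigenspace (r : K) := by
  set D := lap N' L' d with hD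
  set O := detect n r j D h₁ h₂ with hO
  have hpoly : ∀ (h g : Module.End K E) (p : Polynomial ℤ), Commute h g →
      Commute (Polynomial.aeval h p) g := by
    intro h g p hg
    induction p using Polynomial.induction_on with
    | C a =>
      rw [Polynomial.aeval_C]
      exact Algebra.commutes a g
    | add p q hp hq =>
      rw [map_add]
      exact hp.add_left hq
    | monomial k a ih =>
      rw [pow_succ, ← mul_assoc, map_mul, Polynomial.aeval_X]
      exact ih.mul_left hg
  have hcomm : ∀ g, Commute D g → Commute h₁ g → Commute h₂ g → Commute O g := by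
    intro g h0 h1 h2
    have e1 : Commute (h₁ - (r : Module.End K E)) g := h1.sub_left (Int.cast_commute r g)
    have e2 : Commute (h₂ - (j : Module.End K E)) g := h2.sub_left (Int.cast_commute j g)
    exact (h0.mul_left ((hpoly _ _ _ h1).mul_left (hpoly _ _ _ h2))).add_left
      ((e1.mul_left e1).add_left (e2.mul_left e2))
  have hO₁ : Commute O h₁ := hcomm h₁ W.h₁_lap.symm (Commute.refl _) W.h₁h₂.symm
  have hO₂ : Commute O h₂ := hcomm h₂ W.h₂_lap.symm W.h₁h₂ (Commute.refl _)
  have hc₂ : Commute h₂ (h₁ : Module.End K E) := W.h₁h₂.symm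
  have hc₁ : Commute h₁ (h₂ : Module.End K E) := W.h₁h₂
  -- homogeneous elements
  have hzero : ∀ (m : ℕ) (a c : ℤ) (x : E), h₁ x = (a : K) • x → h₂ x = (c : K) • x →
      (O ^ m) x = 0 → (a ≠ r ∨ c ≠ j) → x = 0 := by
    intro m a c x hx₁ hx₂ hm hac
    by_cases ha : a ∈ Finset.Icc (-(n : ℤ)) n
    · by_cases hc : c ∈ Finset.Icc (-(n : ℤ)) n
      · have e1 : (nodal n r).eval a * (nodal n j).eval c = 0 := by
          rcases hac with h | h
          · rw [nodal_eval_ne ha h, zero_mul]
          · rw [nodal_eval_ne hc h, mul_zero]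
        have e2 : O x = ((((a - r) * (a - r) + (c - j) * (c - j) : ℤ)) : K) • x := by
          rw [hO, detect_apply n r j D hx₁ hx₂, e1, Int.cast_zero, zero_smul, zero_add]
        have e3 : ∀ m : ℕ, (O ^ m) x =
            ((((a - r) * (a - r) + (c - j) * (c - j) : ℤ)) : K) ^ m • x := by
          intro m
          induction m with
          | zero => simp
          | succ m ih => rw [pow_succ', Module.End.mul_apply, ih, map_smul, e2, smul_smul, pow_succ]
        rw [e3] at hm
        refine (smul_eq_zero.1 hm).resolve_left (pow_ne_zero m ?_)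
        have e4 : (a - r) * (a - r) + (c - j) * (c - j) ≠ 0 := by
          rcases hac with h | h
          · have := mul_self_pos.2 (sub_ne_zero.2 h)
            have := mul_self_nonneg (c - j)
            omega
          · have := mul_self_pos.2 (sub_ne_zero.2 h)
            have := mul_self_nonneg (a - r)
            omega
        exact_mod_cast e4
      · exact w₂ c hc x hx₂
    · exact w₁ a ha x hx₁
  have hpow : ∀ (m : ℕ) (g : Module.End K E) (x : E), Commute O g → (O ^ m) x = 0 →
      (O ^ m) (g x) = 0 := by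
    intro m g x hg hx
    rw [pow_apply_eq hg.eq, hx, map_zero]
  have hw : ∀ (h g : Module.End K E) (hd : IsDiag h) (c : ℤ), Commute h g →
      Commute g (wproj hd c) := by
    intro h g hd c hg
    ext x
    exact (wproj_comm hd hg c x).symm
  ext x
  rw [Module.End.mem_maxGenEigenspace]
  simp only [zero_smul, sub_zero]
  constructor
  · rintro ⟨m, hm⟩
    -- `x` has weight `r` for `h₁`
    have hx₁ : h₁ x = (r : K) • x := by
      have e1 : ∀ c, c ≠ r → wproj D₁ c x = 0 := by
        intro c hc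
        rw [← sum_wproj D₂ (Finset.Icc (-(n : ℤ)) n) w₂ (wproj D₁ c x)]
        refine Finset.sum_eq_zero fun c' _ => ?_
        refine hzero m c c' _ ?_ (h_wproj D₂ _ _) ?_ (Or.inl hc)
        · rw [apply_eq (hw h₂ h₁ D₂ c' hc₂).eq, h_wproj, map_smul]
        · exact hpow m _ _ (hw h₂ O D₂ c' hO₂.symm) (hpow m _ _ (hw h₁ O D₁ c hO₁.symm) hm)
      have e2 : wproj D₁ r x = x := by
        by_cases hr : r ∈ Finset.Icc (-(n : ℤ)) n
        · rw [← sum_wproj D₁ (Finset.Icc (-(n : ℤ)) n) w₁ x, Finset.sum_eq_single r]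
          · rw [wproj_same D₁ (h_wproj D₁ r x)]
          · exact fun c _ hc => e1 c hc
          · exact fun h => absurd hr h
        · have e3 : x = 0 := by
            rw [← sum_wproj D₁ (Finset.Icc (-(n : ℤ)) n) w₁ x]
            exact Finset.sum_eq_zero fun c hc => e1 c (fun h => hr (h ▸ hc))
          rw [e3, map_zero]
      rw [← e2, h_wproj]
    have hx₂ : h₂ x = (j : K) • x := by
      have e1 : ∀ c, c ≠ j → wproj D₂ c x = 0 := by
        intro c hc
        refine hzero m r c _ ?_ (h_wproj D₂ _ _) ?_ (Or.inr hc)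
        · rw [apply_eq (hw h₂ h₁ D₂ c hc₂).eq, hx₁, map_smul]
        · exact hpow m _ _ (hw h₂ O D₂ c hO₂.symm) hm
      have e2 : wproj D₂ j x = x := by
        by_cases hj : j ∈ Finset.Icc (-(n : ℤ)) n
        · rw [← sum_wproj D₂ (Finset.Icc (-(n : ℤ)) n) w₂ x, Finset.sum_eq_single j]
          · rw [wproj_same D₂ (h_wproj D₂ j x)]
          · exact fun c _ hc => e1 c hc
          · exact fun h => absurd hj h
        · have e3 : x = 0 := by
            rw [← sum_wproj D₂ (Finset.Icc (-(n : ℤ)) n) w₂ x]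
            exact Finset.sum_eq_zero fun c hc => e1 c (fun h => hj (h ▸ hc))
          rw [e3, map_zero]
      rw [← e2, h_wproj]
    refine ⟨⟨⟨x, F.mem x ⟨m, ?_⟩⟩, Module.End.mem_eigenspace_iff.2 hx₂⟩,
      Module.End.mem_eigenspace_iff.2 hx₁⟩
    have e1 : ∀ m : ℕ, (O ^ m) x =
        ((((nodal n r).eval r * (nodal n j).eval j : ℤ)) : K) ^ m • (D ^ m) x := by
      intro m
      induction m with
      | zero => simp
      | succ m ih =>
        have e2 : h₁ ((D ^ m) x) = (r : K) • (D ^ m) x := by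
          rw [← pow_apply_eq W.h₁_lap.symm.eq, hx₁, map_smul]
        have e3 : h₂ ((D ^ m) x) = (j : K) • (D ^ m) x := by
          rw [← pow_apply_eq W.h₂_lap.symm.eq, hx₂, map_smul]
        rw [pow_succ', Module.End.mul_apply, ih, map_smul, hO, detect_apply n r j D e2 e3, sub_self,
          sub_self, mul_zero, add_zero, Int.cast_zero, zero_smul, add_zero, smul_smul, ← pow_succ,
          ← Module.End.mul_apply D, ← pow_succ']
    rw [e1] at hm
    refine (smul_eq_zero.1 hm).resolve_left (pow_ne_zero m ?_)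
    exact_mod_cast mul_ne_zero (nodal_eval_same n r) (nodal_eval_same n j)
  · rintro ⟨⟨⟨y, hy⟩, hx₂⟩, hx₁⟩
    rw [SetLike.mem_coe, Module.End.mem_eigenspace_iff] at hx₁ hx₂
    obtain ⟨m, hm⟩ := F.nil
    refine ⟨m, ?_⟩
    have e1 : ∀ m : ℕ, (O ^ m) x =
        ((((nodal n r).eval r * (nodal n j).eval j : ℤ)) : K) ^ m • (D ^ m) x := by
      intro m
      induction m with
      | zero => simp
      | succ m ih =>
        have e2 : h₁ ((D ^ m) x) = (r : K) • (D ^ m) x := by
          rw [← pow_apply_eq W.h₁_lap.symm.eq, hx₁, map_smul]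
        have e3 : h₂ ((D ^ m) x) = (j : K) • (D ^ m) x := by
          rw [← pow_apply_eq W.h₂_lap.symm.eq, hx₂, map_smul]
        rw [pow_succ', Module.End.mul_apply, ih, map_smul, hO, detect_apply n r j D e2 e3, sub_self,
          sub_self, mul_zero, add_zero, Int.cast_zero, zero_smul, add_zero, smul_smul, ← pow_succ,
          ← Module.End.mul_apply D, ← pow_succ']
    rw [e1, ← hy, hm, smul_zero]

end Abs

end Pool.Agent.H849.SF
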