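import Mathlib

/-!
# Triples of operators on a finite-dimensional space

Elementary facts on operators `e`, `f`, `h` of a finite-dimensional vector space over a field of
characteristic zero with `[h, e] = 2 e`, `[h, f] = -2 f`, `[e, f] = h`.
-/

set_option autoImplicit false

open Module

namespace Pool.Agent.H849.SF

variable {K : Type*} [Field K] {E : Type*} [AddCommGroup E] [Module K E]

/-- The relations `[h, e] = 2 e`, `[h, f] = -2 f`, `[e, f] = h`. -/
structure Triple (h e f : Module.End K E) : Prop where
  he : h * e - e * h = (2 : K) • e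
  hf : h * f - f * h = -((2 : K) • f)
  ef : e * f - f * e = h

namespace Triple

variable {h e f : Module.End K E}

lemma symm (t : Triple h e f) : Triple (-h) f e where
  he := by
    have := t.hf
    calc -h * f - f * -h = -(h * f - f * h) := by noncomm_ring
      _ = (2 : K) • f := by rw [this, neg_neg]
  hf := by
    have := t.he
    calc -h * e - e * -h = -(h * e - e * h) := by noncomm_ring
      _ = _ := by rw [this]
  ef := by
    have := t.ef
    calc f * e - e * f = -(e * f - f * e) := by noncomm_ring
      _ = _ := by rw [this]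

lemma h_e (t : Triple h e f) {c : K} {x : E} (hx : h x = c • x) : h (e x) = (c + 2) • e x := by
  have h1 := LinearMap.congr_fun t.he x
  simp only [LinearMap.sub_apply, Module.End.mul_apply, LinearMap.smul_apply, hx, map_smul] at h1
  rw [sub_eq_iff_eq_add] at h1
  rw [h1, add_smul, add_comm]

lemma h_f (t : Triple h e f) {c : K} {x : E} (hx : h x = c • x) : h (f x) = (c - 2) • f x := by
  have h1 := LinearMap.congr_fun t.hf x
  simp only [LinearMap.sub_apply, Module.End.mul_apply, LinearMap.smul_apply, LinearMap.neg_apply,
    hx, map_smul] at h1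
  rw [sub_eq_iff_eq_add] at h1
  rw [h1, sub_smul]
  abel

lemma e_f (t : Triple h e f) {c : K} {x : E} (hx : h x = c • x) :
    e (f x) = f (e x) + c • x := by
  have h1 := LinearMap.congr_fun t.ef x
  simp only [LinearMap.sub_apply, Module.End.mul_apply, hx] at h1
  rw [sub_eq_iff_eq_add] at h1
  rw [h1, add_comm]

lemma h_pow (t : Triple h e f) {c : K} {x : E} (hx : h x = c • x) (k : ℕ) :
    h ((e ^ k) x) = (c + 2 * k) • (e ^ k) x := by
  induction k with
  | zero => simpa using hx
  | succ k ih =>
    rw [pow_succ', Module.End.mul_apply, t.h_e ih]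
    congr 1
    push_cast
    ring

lemma h_powf (t : Triple h e f) {c : K} {x : E} (hx : h x = c • x) (k : ℕ) :
    h ((f ^ k) x) = (c - 2 * k) • (f ^ k) x := by
  induction k with
  | zero => simpa using hx
  | succ k ih =>
    rw [pow_succ', Module.End.mul_apply, t.h_f ih]
    congr 1
    push_cast
    ring

/-- The commutator of `e ^ (k + 1)` and `f` on an eigenvector of `h`. -/
lemma pow_f (t : Triple h e f) {c : K} {x : E} (hx : h x = c • x) (k : ℕ) :
    (e ^ (k + 1)) (f x) = f ((e ^ (k + 1)) x) + (((k : K) + 1) * (c + k)) • (e ^ k) x := by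
  induction k with
  | zero => simp [t.e_f hx]
  | succ k ih =>
    rw [pow_succ' e (k + 1), Module.End.mul_apply, ih, map_add, map_smul, Module.End.mul_apply,
      t.e_f (t.h_pow hx (k + 1)), add_assoc, ← Module.End.mul_apply e (e ^ k) x, ← pow_succ',
      ← add_smul]
    congr 2
    push_cast
    ring


variable [CharZero K] [FiniteDimensional K E]

/-- Only finitely many of the `c - 2 k` are eigenvalues. -/
lemma exists_zero (c : K) (y : ℕ → E) (hy : ∀ k : ℕ, h (y k) = (c - 2 * k) • y k) :
    ∃ k, y k = 0 := by
  by_contra! hne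
  have hinj : Function.Injective (fun k : ℕ => c - 2 * (k : K)) := by
    intro a b hab
    have h2 : (2 : K) ≠ 0 := two_ne_zero
    have : (a : K) = b := by
      have := sub_right_injective hab
      exact mul_left_cancel₀ h2 this
    exact_mod_cast this
  have hfin : (Set.range fun k : ℕ => c - 2 * (k : K)).Finite := by
    refine Set.Finite.subset (Module.End.finite_hasEigenvalue h) ?_
    rintro _ ⟨k, rfl⟩
    exact Module.End.hasEigenvalue_of_hasEigenvector ⟨Module.End.mem_eigenspace_iff.2 (hy k), hne k⟩
  exact Set.infinite_range_of_injective hinj hfin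

omit [FiniteDimensional K E] in
/-- A vector of weight `-k` killed by `f` and by `e ^ k` is zero. -/
lemma low_zero (t : Triple h e f) (k : ℕ) {x : E} (hx : h x = (-(k : K)) • x) (hf : f x = 0)
    (he : (e ^ k) x = 0) : x = 0 := by
  induction k with
  | zero => simpa using he
  | succ k _ =>
    -- the powers `e ^ j x` vanish for all `j`, by descending induction
    have key : ∀ j : ℕ, j ≤ k + 1 → (e ^ j) x = 0 → x = 0 := by
      intro j
      induction j with
      | zero => intro _ h0; simpa using h0
      | succ j ih =>
        intro hj h0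
        apply ih (by omega)
        have h1 := t.pow_f (c := -((k + 1 : ℕ) : K)) hx j
        rw [hf, map_zero, h0, map_zero, zero_add] at h1
        have h2 : ((j : K) + 1) * (-((k + 1 : ℕ) : K) + j) ≠ 0 := by
          apply mul_ne_zero
          · exact Nat.cast_add_one_ne_zero j
          · intro h3
            have h4 : ((k + 1 : ℕ) : K) = (j : K) := by
              rw [neg_add_eq_zero] at h3
              exact h3
            have : k + 1 = j := by exact_mod_cast h4
            omega
        exact (smul_eq_zero.1 h1.symm).resolve_left h2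
    exact key (k + 1) le_rfl he

/-- `e ^ k` is injective on the vectors of weight `-k`. -/
lemma inj (t : Triple h e f) (k : ℕ) {x : E} (hx : h x = (-(k : K)) • x)
    (he : (e ^ k) x = 0) : x = 0 := by
  have hpow : ∀ j : ℕ, (e ^ (k + 2 * j)) ((f ^ j) x) = 0 := by
    intro j
    induction j with
    | zero => simpa using he
    | succ j ih =>
      have hw : h ((f ^ j) x) = (-(k : K) - 2 * j) • (f ^ j) x := t.h_powf hx j
      have h1 : (e ^ (k + 2 * j + 1)) ((f ^ j) x) = 0 := by
        rw [pow_succ', Module.End.mul_apply, ih, map_zero]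
      have h2 := t.pow_f hw (k + 2 * j + 1)
      rw [show k + 2 * (j + 1) = k + 2 * j + 1 + 1 by ring, pow_succ' f j, Module.End.mul_apply, h2,
        pow_succ' e (k + 2 * j + 1), Module.End.mul_apply, h1]
      simp
  obtain ⟨m, hm⟩ := exists_zero (h := h) (-(k : K)) (fun j => (f ^ j) x)
    (fun j => t.h_powf hx j)
  have hdown : ∀ m : ℕ, (f ^ m) x = 0 → x = 0 := by
    intro m
    induction m with
    | zero => intro h0; simpa using h0
    | succ m ih =>
      intro h0
      apply ih
      refine t.low_zero (k + 2 * m) ?_ ?_ (hpow m)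
      · rw [t.h_powf hx m]
        congr 1
        push_cast
        ring
      · rw [← Module.End.mul_apply, ← pow_succ']
        exact h0
  exact hdown m hm

/-- A vector of weight `-k` killed by `e ^ (k + 1)` is killed by `f`. -/
lemma f_zero (t : Triple h e f) (k : ℕ) {x : E} (hx : h x = (-(k : K)) • x)
    (he : (e ^ (k + 1)) x = 0) : f x = 0 := by
  have h1 := t.pow_f hx (k + 1)
  refine t.inj (k + 2) (x := f x) ?_ ?_
  · rw [t.h_f hx]
    congr 1
    push_cast
    ring
  · rw [h1, pow_succ' e (k + 1), Module.End.mul_apply, he]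
    simp

/-- `e ^ k` maps the vectors of weight `-k` onto the vectors of weight `k`. -/
lemma surj (t : Triple h e f) (k : ℕ) {y : E} (hy : h y = (k : K) • y) :
    ∃ x : E, h x = (-(k : K)) • x ∧ (e ^ k) x = y := by
  have h1 : ∀ x ∈ h.eigenspace (-(k : K)), (e ^ k) x ∈ h.eigenspace (k : K) := by
    intro x hx
    rw [Module.End.mem_eigenspace_iff] at hx ⊢
    rw [t.h_pow hx k]
    congr 1
    ring
  have h2 : ∀ x ∈ h.eigenspace (k : K), (f ^ k) x ∈ h.eigenspace (-(k : K)) := by
    intro x hx
    rw [Module.End.mem_eigenspace_iff] at hx ⊢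
    rw [t.h_powf hx k]
    congr 1
    ring
  let φ := (e ^ k).restrict h1
  let ψ := (f ^ k).restrict h2
  have hφ : Function.Injective φ := by
    rw [injective_iff_map_eq_zero]
    intro x hx
    have hx' : (e ^ k) (x : E) = 0 := congrArg Subtype.val hx
    exact Subtype.ext (t.inj k (Module.End.mem_eigenspace_iff.1 x.2) hx')
  have hψ : Function.Injective ψ := by
    rw [injective_iff_map_eq_zero]
    intro x hx
    have hx' : (f ^ k) (x : E) = 0 := congrArg Subtype.val hx
    refine Subtype.ext (t.symm.inj k ?_ hx')
    rw [LinearMap.neg_apply, Module.End.mem_eigenspace_iff.1 x.2, neg_smul]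
  have hdim : finrank K (h.eigenspace (-(k : K))) = finrank K (h.eigenspace (k : K)) :=
    le_antisymm (LinearMap.finrank_le_finrank_of_injective hφ)
      (LinearMap.finrank_le_finrank_of_injective hψ)
  have hsurj := (LinearMap.injective_iff_surjective_of_finrank_eq_finrank hdim).1 hφ
  obtain ⟨x, hx⟩ := hsurj ⟨y, Module.End.mem_eigenspace_iff.2 hy⟩
  exact ⟨x, Module.End.mem_eigenspace_iff.1 x.2, congrArg Subtype.val hx⟩

/-- Surjectivity, with the linear conditions preserved: if `g` commutes with `e` and `h` and
`g y = 0`, then `g x = 0`. -/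
lemma surj' (t : Triple h e f) (k : ℕ) {y : E} (hy : h y = (k : K) • y) :
    ∃ x : E, h x = (-(k : K)) • x ∧ (e ^ k) x = y ∧
      ∀ g : Module.End K E, Commute g e → Commute g h → g y = 0 → g x = 0 := by
  obtain ⟨x, hx, hxy⟩ := t.surj k hy
  refine ⟨x, hx, hxy, fun g hge hgh hg => ?_⟩
  refine t.inj k ?_ ?_
  · have h1 : h (g x) = g (h x) := by
      have := LinearMap.congr_fun hgh.eq x
      simpa using this.symm
    rw [h1, hx, map_smul]
  · have h2 : (e ^ k) (g x) = g ((e ^ k) x) := by
      have := LinearMap.congr_fun (hge.pow_right k).eq x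
      simpa using this.symm
    rw [h2, hxy, hg]

/-- A vector of weight `-k` killed by `f` is killed by `e ^ (k + 1)`. -/
lemma high_zero (t : Triple h e f) (k : ℕ) {x : E} (hx : h x = (-(k : K)) • x) (hf : f x = 0) :
    (e ^ (k + 1)) x = 0 := by
  have h1 := t.pow_f hx k
  rw [hf, map_zero, neg_add_cancel, mul_zero, zero_smul, add_zero] at h1
  refine t.symm.inj (k + 2) ?_ ?_
  · rw [LinearMap.neg_apply, t.h_pow hx (k + 1), ← neg_smul]
    congr 1
    push_cast
    ring
  · rw [pow_succ f (k + 1), Module.End.mul_apply, ← h1, map_zero]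

end Triple

/-- The operator `[a, ·]` on the endomorphisms. -/
noncomputable def adj (a : Module.End K E) : Module.End K (Module.End K E) :=
  LinearMap.mulLeft K a - LinearMap.mulRight K a

@[simp] lemma adj_apply (a b : Module.End K E) : adj a b = a * b - b * a := by
  simp [adj]

lemma adj_triple {h e f : Module.End K E} (t : Triple h e f) :
    Triple (adj h) (adj e) (adj f) where
  he := by
    ext1 b
    have := t.he
    simp only [LinearMap.sub_apply, Module.End.mul_apply, adj_apply, LinearMap.smul_apply]
    calc _ = (h * e - e * h) * b - b * (h * e - e * h) := by noncomm_ring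
      _ = _ := by rw [this, smul_mul_assoc, mul_smul_comm, smul_sub]
  hf := by
    ext1 b
    have := t.hf
    simp only [LinearMap.sub_apply, Module.End.mul_apply, adj_apply, LinearMap.smul_apply,
      LinearMap.neg_apply]
    calc _ = (h * f - f * h) * b - b * (h * f - f * h) := by noncomm_ring
      _ = _ := by
        rw [this, neg_mul, mul_neg, smul_mul_assoc, mul_smul_comm, smul_sub]
        abel
  ef := by
    ext1 b
    have := t.ef
    simp only [LinearMap.sub_apply, Module.End.mul_apply, adj_apply]
    calc _ = (e * f - f * e) * b - b * (e * f - f * e) := by noncomm_ring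
      _ = _ := by rw [this]

/-- If `e` commutes with `d`, and `[h, d] = d`, then `[f, [f, d]] = 0`. -/
lemma adj_adj [CharZero K] [FiniteDimensional K E] {h e f d : Module.End K E} (t : Triple h e f)
    (hd : h * d - d * h = d) (he : e * d = d * e) :
    f * (f * d - d * f) - (f * d - d * f) * f = 0 := by
  have h1 := (adj_triple t).symm.high_zero 1 (x := d) ?_ ?_
  · have h2 : (adj f ^ 2) d = 0 := h1
    rw [pow_two, Module.End.mul_apply, adj_apply, adj_apply] at h2
    exact h2
  · rw [LinearMap.neg_apply, adj_apply, hd]
    simp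
  · rw [adj_apply, he, sub_self]

end Pool.Agent.H849.SF
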