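import Pool.Agent.H849.SF.Fin
import Pool.Agent.H849.SEC.Gen

/-!
# The `E_2` term in terms of the total complex
-/

set_option autoImplicit false

namespace Pool.Agent.H849.SF

universe u v

open Module Pool.Agent.Y143

section Abs

variable {K : Type*} [Field K] [CharZero K] {E : Type*} [AddCommGroup E] [Module K E]
  {h₁ N N' h₂ L L' d : Module.End K E}

/-- A homogeneous element of the image of `d` is the image of a homogeneous element. -/
lemma hom_range (W : IsWeightComplex h₁ N N' h₂ L L' d) (D₁ : IsDiag h₁) (D₂ : IsDiag h₂)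
    {a c : ℤ} {x : E} (hx₁ : h₁ x = (a : K) • x) (hx₂ : h₂ x = (c : K) • x)
    (hd : x ∈ LinearMap.range d) :
    ∃ z, h₁ z = ((a - 1 : ℤ) : K) • z ∧ h₂ z = ((c - 1 : ℤ) : K) • z ∧ d z = x := by
  obtain ⟨y, hy⟩ := hd
  have e1 := wproj_shift D₂ (g := d) 1 (by rw [W.h₂d]; simp) (c - 1) y
  rw [sub_add_cancel, hy, wproj_same D₂ hx₂] at e1
  have e2 := wproj_shift D₁ (g := d) 1 (by rw [W.h₁d]; simp) (a - 1) (wproj D₂ (c - 1) y)
  rw [sub_add_cancel, ← e1, wproj_same D₁ hx₁] at e2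
  refine ⟨wproj D₁ (a - 1) (wproj D₂ (c - 1) y), h_wproj D₁ _ _, ?_, e2.symm⟩
  rw [← wproj_comm D₁ (g := h₂) W.h₁h₂, h_wproj, map_smul]

end Abs

variable {Ω : Type u} [Field Ω] [CharZero Ω] {Γ : Type} {n q : ℕ}
  (X : SpecialFibre.{u, v} Ω Γ n q) {lam : ∀ a, Module.End Ω (X.H a)} (hl : IsDual X lam)

include hl in
lemma mem_gr_of_bracket {b : ℕ} {c : ℤ} {z : X.H b}
    (hz : X.lef b (lam b z) - lam b (X.lef b z) = (c : Ω) • z) :
    z ∈ X.gr b (c + (n - b)) := by
  set h : Module.End Ω (X.H b) := X.lef b * lam b - lam b * X.lef b with hh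
  have hgr : ∀ m x, x ∈ X.gr b m → h x = ((m - (n - b) : ℤ) : Ω) • x := fun m x hx =>
    (hl b).bracket m x hx
  have hD : IsDiag h := by
    rw [IsDiag, eq_top_iff, ← X.iSup_gr b]
    refine iSup_le fun m x hx => ?_
    exact Submodule.mem_iSup_of_mem (m - (n - b)) (Module.End.mem_eigenspace_iff.2 (hgr m x hx))
  have key : ∀ y : X.H b, wproj hD c y ∈ X.gr b (c + (n - b)) := by
    intro y
    refine X.gr_induction (P := fun y => wproj hD c y ∈ X.gr b (c + (n - b))) ?_ ?_ ?_ y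
    · rw [map_zero]
      exact Submodule.zero_mem _
    · intro x y hx hy
      rw [map_add]
      exact Submodule.add_mem _ hx hy
    · intro m x hx
      by_cases hm : m - (n - b) = c
      · rw [wproj_same hD (by rw [hgr m x hx, hm])]
        rwa [← hm, sub_add_cancel]
      · rw [wproj_ne hD (hgr m x hx) hm]
        exact Submodule.zero_mem _
  have := key z
  rwa [wproj_same hD hz] at this

lemma eq_sgl {a : ℤ} {x : Total X.toStrataData} (hx : H₁ X x = (a : Ω) • x) :
    x = sgl X a (val X x a) := by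
  apply val_inj X
  funext r
  by_cases hr : r = a
  · subst hr
    rw [sgl_same, cut_tot]
  · rw [sgl_ne X hr]
    have h1 : (r : Ω) • val X x r = (a : Ω) • val X x r := by
      rw [← H₁_apply, hx]
      rfl
    rw [← sub_eq_zero, ← sub_smul, smul_eq_zero] at h1
    refine h1.resolve_left ?_
    rw [sub_eq_zero]
    exact_mod_cast hr

include hl in
lemma mem_tot {a c : ℤ} {x : Total X.toStrataData} (hx₂ : H₂ X lam x = (c : Ω) • x) :
    val X x a ∈ X.tot a c := by
  intro b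
  refine ⟨?_, val_zero X x⟩
  have h0 : val X (H₂ X lam x) a b = val X ((c : Ω) • x) a b := by rw [hx₂]
  have e1 : val X (H₂ X lam x) a b =
      val X (totOp X.toStrataData X.lef (totOp X.toStrataData lam x)) a b -
        val X (totOp X.toStrataData lam (totOp X.toStrataData X.lef x)) a b := rfl
  rw [e1, val_smul, totOp_apply, totOp_apply, totOp_apply, totOp_apply] at h0
  have h1 := mem_gr_of_bracket X hl (b := b) (c := c) (z := val X x a b) h0
  rwa [show (n : ℤ) + c - a + a - b = c + (n - b) by ring]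

lemma cut_E₁ {r w : ℤ} {x : X.C} (hx : x ∈ X.E₁ r w) : X.cut r x = x := by
  funext a
  by_cases h : InColumn r a
  · rw [X.cut_of h]
  · rw [X.cut_of_not h, (hx a).2 h]

lemma sgl_val {r w : ℤ} {x : X.C} (hx : x ∈ X.E₁ r w) : val X (sgl X r x) r = x := by
  rw [sgl_same, cut_E₁ X hx]

include hl in
lemma H₂_tot {a c : ℤ} {x : X.C} (hx : x ∈ X.tot a c) :
    H₂ X lam (sgl X a x) = (c : Ω) • sgl X a x := by
  rw [H₂_sgl X hl (r := a) (w := n + c - a) hx]
  congr 2
  ring

lemma totN_pow_sgl {a : ℕ} {w : ℤ} {x : X.C} (hx : x ∈ X.E₁ (-a) w) {k : ℕ} (hk : k ≤ a) :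
    (totN X.toStrataData ^ k) (sgl X (-a) x) = sgl X (-a + 2 * k) x := by
  induction k with
  | zero =>
    rw [pow_zero, Module.End.one_apply]
    congr 1
    push_cast
    ring
  | succ k ih =>
    rw [pow_succ', Module.End.mul_apply, ih (by omega)]
    apply val_inj X
    funext s
    rw [totN_apply]
    by_cases hs : s = -(a : ℤ) + 2 * ((k + 1 : ℕ) : ℤ)
    · subst hs
      rw [sgl_same, show -(a : ℤ) + 2 * ((k + 1 : ℕ) : ℤ) - 2 = -a + 2 * k by push_cast; ring,
        sgl_same, X.cut_id hx (show k ≤ a by omega)]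
    · rw [sgl_ne X hs, sgl_ne X (by push_cast at hs; omega), map_zero]

/-- The image of the differential in homogeneous degrees. -/
lemma range_iff {a c : ℤ} {x : X.C} (hx : x ∈ X.tot a c) (hl : IsDual X lam) :
    sgl X a x ∈ LinearMap.range (totD X.toStrataData) ↔ x ∈ Bd X.diff X.tot a c := by
  constructor
  · intro h
    obtain ⟨z, hz₁, hz₂, hzx⟩ := hom_range (weightComplex X hl) (diag₁ X) (diag₂ X hl)
      (H₁_sgl X a x) (H₂_tot X hl hx) h
    refine ⟨val X z (a - 1), mem_tot X hl hz₂, ?_⟩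
    rw [← totD_apply, hzx, sgl_val X hx]
  · rintro ⟨y, hy, rfl⟩
    refine ⟨sgl X (a - 1) y, ?_⟩
    rw [totD_sgl X (r := a - 1) (w := n + (c - 1) - (a - 1)) hy, sub_add_cancel]

/-- The kernel of the differential in homogeneous degrees. -/
lemma ker_iff {a w : ℤ} {x : X.C} (hx : x ∈ X.E₁ a w) :
    totD X.toStrataData (sgl X a x) = 0 ↔ X.diff a x = 0 := by
  rw [totD_sgl X hx]
  constructor
  · intro h
    have h1 : val X (sgl X (a + 1) (X.diff a x)) (a + 1) = 0 := by
      rw [h]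
      rfl
    rwa [sgl_val X (X.diff_mem hx)] at h1
  · intro h
    rw [h]
    exact sgl_zero X _

lemma tot_zero {a c : ℤ} (hc : (n : ℤ) + c < 0) {x : X.C} (hx : x ∈ X.tot a c) : x = 0 := by
  funext b
  have h1 := (hx b).1
  rw [X.gr_eq_bot b _ (Or.inl (by omega)), Submodule.mem_bot] at h1
  exact h1

lemma tot_neg (a c : ℤ) : X.tot (-a) c = X.tot a c := by
  have := X.E₁_neg a (n + c - a)
  unfold SpecialFibre.tot
  rwa [show (n : ℤ) + c - a + 2 * a = n + c - -a by ring] at this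

/-- The Lefschetz property of `N`, in terms of the `E_2` term. -/
theorem lefschetz_N_iff (hl : IsDual X lam) :
    HasLefschetz (H₁ X) (totN X.toStrataData) (H₂ X lam) (totD X.toStrataData) ↔
      ∀ (k : ℕ) (c : ℤ), 1 ≤ k → NInj X.diff X.tot k c ∧ NSurj X.diff X.tot k c := by
  constructor
  · intro h k c _
    constructor
    · rintro x ⟨⟨hx, hdx⟩, hb⟩
      have h1 := (h k c).1 (sgl X (-k) x) ((ker_iff X hx).2 hdx)
        (by rw [H₁_sgl]; push_cast; rfl) (H₂_tot X hl hx) (by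
          rw [totN_pow_sgl X hx le_rfl, show -(k : ℤ) + 2 * k = k by ring]
          rw [tot_neg] at hx
          exact (range_iff X hx hl).2 hb)
      exact (range_iff X hx hl).1 h1
    · rintro y ⟨hy, hdy⟩
      obtain ⟨x, hdx, hx₁, hx₂, hxy⟩ := (h k c).2 (sgl X k y) ((ker_iff X hy).2 hdy)
        (by rw [H₁_sgl]; push_cast; rfl) (H₂_tot X hl hy)
      have hx₁' : H₁ X x = ((-(k : ℤ) : ℤ) : Ω) • x := by rw [hx₁]; push_cast; rfl
      have e1 := eq_sgl X hx₁'
      have e2 : val X x (-k) ∈ X.tot (-k) c := mem_tot X hl hx₂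
      rw [e1] at hdx hxy
      rw [ker_iff X e2] at hdx
      rw [totN_pow_sgl X e2 le_rfl, show -(k : ℤ) + 2 * k = k by ring, ← sgl_sub,
        range_iff X (Submodule.sub_mem _ hy (by rwa [← tot_neg])) hl] at hxy
      refine Submodule.mem_sup.2 ⟨val X x (-k), ⟨e2, hdx⟩, _, hxy, ?_⟩
      abel
  · intro h k c
    rcases Nat.eq_zero_or_pos k with rfl | hk
    · refine ⟨fun x _ _ _ h => by simpa using h, fun y hdy hy₁ hy₂ => ⟨y, hdy, ?_, hy₂, ?_⟩⟩
      · simpa using hy₁
      · simp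
    obtain ⟨hI, hS⟩ := h k c hk
    constructor
    · intro x hdx hx₁ hx₂ hr
      have hx₁' : H₁ X x = ((-(k : ℤ) : ℤ) : Ω) • x := by rw [hx₁]; push_cast; rfl
      have e1 := eq_sgl X hx₁'
      have e2 : val X x (-k) ∈ X.tot (-k) c := mem_tot X hl hx₂
      rw [e1] at hdx hr ⊢
      rw [ker_iff X e2] at hdx
      rw [totN_pow_sgl X e2 le_rfl, show -(k : ℤ) + 2 * k = k by ring,
        range_iff X (by rwa [← tot_neg]) hl] at hr
      rw [range_iff X e2 hl]
      exact hI ⟨⟨e2, hdx⟩, hr⟩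
    · intro y hdy hy₁ hy₂
      have hy₁' : H₁ X y = ((k : ℤ) : Ω) • y := by rw [hy₁]; push_cast; rfl
      have e1 := eq_sgl X hy₁'
      have e2 : val X y k ∈ X.tot k c := mem_tot X hl hy₂
      rw [e1, ker_iff X e2] at hdy
      obtain ⟨x, ⟨hx, hdx⟩, b, hb, hxb⟩ := Submodule.mem_sup.1 (hS ⟨e2, hdy⟩)
      refine ⟨sgl X (-k) x, (ker_iff X hx).2 hdx, by rw [H₁_sgl]; push_cast; rfl,
        H₂_tot X hl hx, ?_⟩
      rw [totN_pow_sgl X hx le_rfl, show -(k : ℤ) + 2 * k = k by ring, e1, ← sgl_sub,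
        range_iff X (Submodule.sub_mem _ e2 (by rwa [← tot_neg])) hl]
      have : val X y k - x = b := by rw [← hxb]; abel
      rwa [this]

lemma totL_pow_sgl (r : ℤ) (x : X.C) (k : ℕ) :
    (totOp X.toStrataData X.lef ^ k) (sgl X r x) = sgl X r ((X.lefC ^ k) x) := by
  induction k with
  | zero => rfl
  | succ k ih =>
    rw [pow_succ', Module.End.mul_apply, ih, op_sgl, pow_succ', Module.End.mul_apply]
    rfl

lemma lefC_pow_mem {r w : ℤ} {x : X.C} (hx : x ∈ X.E₁ r w) (k : ℕ) :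
    (X.lefC ^ k) x ∈ X.E₁ r (w + 2 * k) := by
  induction k with
  | zero => simpa using hx
  | succ k ih =>
    rw [pow_succ', Module.End.mul_apply]
    exact X.mem_E₁_cast rfl (by push_cast; ring) (X.lefC_mem ih)

/-- The Lefschetz property of `L`, in terms of the `E_2` term. -/
theorem lefschetz_L_iff (hl : IsDual X lam) :
    HasLefschetz (H₂ X lam) (totOp X.toStrataData X.lef) (H₁ X) (totD X.toStrataData) ↔
      X.HasHardLefschetz n := by
  have hL : ∀ (r : ℤ) (s : ℕ) x, x ∈ X.tot r (-s) → (X.lefC ^ s) x ∈ X.tot r s :=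
    fun r s x hx => X.mem_E₁_cast rfl (by ring) (lefC_pow_mem X hx s)
  have hcast : ∀ (r w w' : ℤ), w = w' → X.coboundaries r w = X.coboundaries r w' :=
    fun r w w' h => by rw [h]
  have hbd : ∀ r s : ℤ, Bd X.diff X.tot r s = X.coboundaries r (n + s - r) := X.bd_eq
  constructor
  · intro h r s
    constructor
    · rintro x ⟨hx, hdx⟩ hb
      have hx' : x ∈ X.tot r (-s) := X.mem_E₁_cast rfl (by ring) hx
      have h1 := (h s r).1 (sgl X r x) ((ker_iff X hx).2 hdx)
        (by rw [H₂_tot X hl hx']; push_cast; rfl) (H₁_sgl X r x) (by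
          rw [totL_pow_sgl, range_iff X (hL r s x hx') hl, hbd]
          exact hb)
      rw [range_iff X hx' hl, hbd] at h1
      rwa [hcast r _ _ (show (n : ℤ) + -s - r = n - s - r by ring)] at h1
    · rintro y ⟨hy, hdy⟩
      have hy' : y ∈ X.tot r s := hy
      obtain ⟨x, hdx, hx₂, hx₁, hxy⟩ := (h s r).2 (sgl X r y) ((ker_iff X hy).2 hdy)
        (by rw [H₂_tot X hl hy']; push_cast; rfl) (H₁_sgl X r y)
      have hx₂' : H₂ X lam x = ((-(s : ℤ) : ℤ) : Ω) • x := by rw [hx₂]; push_cast; rfl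
      have e1 := eq_sgl X hx₁
      have e2 : val X x r ∈ X.tot r (-s) := mem_tot X hl hx₂'
      rw [e1] at hdx hxy
      rw [ker_iff X e2] at hdx
      rw [totL_pow_sgl, ← sgl_sub, range_iff X (Submodule.sub_mem _ hy' (hL r s _ e2)) hl,
        hbd] at hxy
      exact ⟨val X x r, ⟨X.mem_E₁_cast rfl (by ring) e2, hdx⟩, hxy⟩
  · intro h k r
    obtain ⟨hI, hS⟩ := h r k
    constructor
    · intro x hdx hx₂ hx₁ hr
      have hx₂' : H₂ X lam x = ((-(k : ℤ) : ℤ) : Ω) • x := by rw [hx₂]; push_cast; rfl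
      have e1 := eq_sgl X hx₁
      have e2 : val X x r ∈ X.tot r (-k) := mem_tot X hl hx₂'
      rw [e1] at hdx hr ⊢
      rw [ker_iff X e2] at hdx
      rw [totL_pow_sgl, range_iff X (hL r k _ e2) hl, hbd] at hr
      rw [range_iff X e2 hl, hbd, hcast r _ _ (show (n : ℤ) + -k - r = n - k - r by ring)]
      exact hI _ ⟨X.mem_E₁_cast rfl (by ring) e2, hdx⟩ hr
    · intro y hdy hy₂ hy₁
      have hy₂' : H₂ X lam y = ((k : ℤ) : Ω) • y := by rw [hy₂]; push_cast; rfl
      have e1 := eq_sgl X hy₁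
      have e2 : val X y r ∈ X.tot r k := mem_tot X hl hy₂'
      rw [e1, ker_iff X e2] at hdy
      obtain ⟨x, ⟨hx, hdx⟩, hxy⟩ := hS _ ⟨e2, hdy⟩
      have hx' : x ∈ X.tot r (-k) := X.mem_E₁_cast rfl (by ring) hx
      refine ⟨sgl X r x, (ker_iff X hx).2 hdx, by rw [H₂_tot X hl hx']; push_cast; rfl,
        H₁_sgl X r x, ?_⟩
      rw [totL_pow_sgl, e1, ← sgl_sub, range_iff X (Submodule.sub_mem _ e2 (hL r k _ hx')) hl, hbd]
      exact hxy

end Pool.Agent.H849.SF
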