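import Pool.Agent.H849.SF.Core

/-!
# Complexes with `N ^ 2 = 0`: the hard Lefschetz properties imply the strong form
-/

set_option autoImplicit false

open Module

namespace Pool.Agent.H849.SF

variable {K : Type*} [Field K] {E : Type*} [AddCommGroup E] [Module K E]

/-- `x` is in the image of `P`, of weight `a` for `h₁` and of weight `c` for `h₂`. -/
structure Vec (P h₁ h₂ : Module.End K E) (a c : ℤ) (x : E) : Prop where
  p : P x = x
  w₁ : h₁ x = (a : K) • x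
  w₂ : h₂ x = (c : K) • x

lemma apply_add {A B C : Module.End K E} (h : A * B - B * A = C) (x : E) :
    A (B x) = B (A x) + C x := by
  have := LinearMap.congr_fun h x
  simp only [LinearMap.sub_apply, Module.End.mul_apply] at this
  rw [← this]
  abel

namespace Vec

variable {P h₁ h₂ A : Module.End K E} {a c : ℤ} {x : E}

lemma cast (hx : Vec P h₁ h₂ a c x) {a' c' : ℤ} (ha : a = a') (hc : c = c') :
    Vec P h₁ h₂ a' c' x := by
  subst ha hc
  exact hx

lemma map (hx : Vec P h₁ h₂ a c x) (hP : Commute A P) (i j : ℤ)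
    (hA₁ : h₁ * A - A * h₁ = (i : K) • A) (hA₂ : h₂ * A - A * h₂ = (j : K) • A) :
    Vec P h₁ h₂ (a + i) (c + j) (A x) where
  p := by rw [← apply_eq hP.eq, hx.p]
  w₁ := by
    rw [apply_add hA₁, hx.w₁, map_smul, LinearMap.smul_apply, ← add_smul]
    congr 1
    push_cast
    ring
  w₂ := by
    rw [apply_add hA₂, hx.w₂, map_smul, LinearMap.smul_apply, ← add_smul]
    congr 1
    push_cast
    ring

lemma add {y : E} (hx : Vec P h₁ h₂ a c x) (hy : Vec P h₁ h₂ a c y) : Vec P h₁ h₂ a c (x + y) where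
  p := by rw [map_add, hx.p, hy.p]
  w₁ := by rw [map_add, hx.w₁, hy.w₁, smul_add]
  w₂ := by rw [map_add, hx.w₂, hy.w₂, smul_add]

lemma smul (r : K) (hx : Vec P h₁ h₂ a c x) : Vec P h₁ h₂ a c (r • x) where
  p := by rw [map_smul, hx.p]
  w₁ := by rw [map_smul, hx.w₁, smul_comm]
  w₂ := by rw [map_smul, hx.w₂, smul_comm]

end Vec

variable [CharZero K] [FiniteDimensional K E]

section

variable {h₁ N N' h₂ L L' d P : Module.End K E}

/-- The assumptions: `P` is a projection which commutes with the operators, and the Laplace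
operator is nilpotent and `N ^ 2 = 0` on its image. -/
structure IsTwo (h₁ N N' h₂ L L' d P : Module.End K E) : Prop where
  W : IsWeightComplex h₁ N N' h₂ L L' d
  idem : ∀ x, P (P x) = P x
  cN : Commute N P
  cN' : Commute N' P
  cL : Commute L P
  cL' : Commute L' P
  cd : Commute d P
  nil : ∃ m : ℕ, ∀ x, (lap N' L' d ^ m) (P x) = 0
  D₁ : IsDiag h₁
  D₂ : IsDiag h₂
  NN : ∀ x, N (N (P x)) = 0

namespace IsTwo

variable (T : IsTwo h₁ N N' h₂ L L' d P)
include T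

omit [CharZero K] [FiniteDimensional K E] in
lemma ch₁ : Commute h₁ P := by
  rw [← T.W.t₁.ef]
  exact (T.cN.mul_left T.cN').sub_left (T.cN'.mul_left T.cN)

omit [CharZero K] [FiniteDimensional K E] in
lemma ch₂ : Commute h₂ P := by
  rw [← T.W.t₂.ef]
  exact (T.cL.mul_left T.cL').sub_left (T.cL'.mul_left T.cL)

omit [CharZero K] [FiniteDimensional K E] in
lemma clap : Commute (lap N' L' d) P := by
  have h1 : Commute (L' * d - d * L') P := (T.cL'.mul_left T.cd).sub_left (T.cd.mul_left T.cL')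
  have h2 : Commute (cod N' L' d) P := (T.cN'.mul_left h1).sub_left (h1.mul_left T.cN')
  exact (T.cd.mul_left h2).add_left (h2.mul_left T.cd)

omit [FiniteDimensional K E] in
lemma vd {a c : ℤ} {x : E} (hx : Vec P h₁ h₂ a c x) : Vec P h₁ h₂ (a + 1) (c + 1) (d x) :=
  hx.map T.cd 1 1 (by rw [T.W.h₁d]; simp) (by rw [T.W.h₂d]; simp)

omit [FiniteDimensional K E] in
lemma vN {a c : ℤ} {x : E} (hx : Vec P h₁ h₂ a c x) : Vec P h₁ h₂ (a + 2) c (N x) :=
  (hx.map T.cN 2 0 (by rw [T.W.t₁.he]; simp)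
    (by rw [T.W.h₂N, sub_self]; simp)).cast rfl (by ring)

lemma vN' {a c : ℤ} {x : E} (hx : Vec P h₁ h₂ a c x) : Vec P h₁ h₂ (a - 2) c (N' x) :=
  (hx.map T.cN' (-2) 0 (by rw [T.W.t₁.hf]; simp)
    (by rw [T.W.h₂N', sub_self]; simp)).cast (by ring) (by ring)

omit [FiniteDimensional K E] in
lemma vL {a c : ℤ} {x : E} (hx : Vec P h₁ h₂ a c x) : Vec P h₁ h₂ a (c + 2) (L x) :=
  (hx.map T.cL 0 2 (by rw [T.W.h₁L, sub_self]; simp)
    (by rw [T.W.t₂.he]; simp)).cast (by ring) rfl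

omit [FiniteDimensional K E] in
lemma vLk {a c : ℤ} {x : E} (hx : Vec P h₁ h₂ a c x) (k : ℕ) :
    Vec P h₁ h₂ a (c + 2 * k) ((L ^ k) x) := by
  induction k with
  | zero => exact hx.cast rfl (by simp)
  | succ k ih =>
    rw [pow_succ', Module.End.mul_apply]
    exact (T.vL ih).cast rfl (by push_cast; ring)

omit [CharZero K] [FiniteDimensional K E] in
lemma N_pow {k : ℕ} (hk : 2 ≤ k) {x : E} (hx : P x = x) : (N ^ k) x = 0 := by
  obtain ⟨m, rfl⟩ := Nat.exists_eq_add_of_le' hk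
  rw [pow_add, Module.End.mul_apply, pow_two, Module.End.mul_apply, ← hx, T.NN, map_zero]

lemma high {a c : ℤ} {x : E} (hx : Vec P h₁ h₂ a c x) (ha : 2 ≤ a) : x = 0 := by
  obtain ⟨k, rfl⟩ := Int.eq_ofNat_of_zero_le (show 0 ≤ a by omega)
  obtain ⟨y, -, hy, hall⟩ := T.W.t₁.surj' k (y := x) (by simpa using hx.w₁)
  have hP : P y = y := by
    have := hall (1 - P) ((Commute.one_left N).sub_left T.cN.symm)
      ((Commute.one_left h₁).sub_left T.ch₁.symm) (by
        rw [LinearMap.sub_apply, Module.End.one_apply, hx.p, sub_self])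
    rw [LinearMap.sub_apply, Module.End.one_apply, sub_eq_zero] at this
    exact this.symm
  rw [← hy, T.N_pow (by omega) hP]

lemma low {a c : ℤ} {x : E} (hx : Vec P h₁ h₂ a c x) (ha : a ≤ -2) : x = 0 := by
  obtain ⟨k, hk⟩ := Int.eq_ofNat_of_zero_le (show 0 ≤ -a by omega)
  obtain rfl : a = -(k : ℤ) := by omega
  refine T.W.t₁.inj k (x := x) (by simpa using hx.w₁) ?_
  rw [T.N_pow (by omega) hx.p]

lemma hom {a c : ℤ} {x : E} (hx : Vec P h₁ h₂ a c x) (hd : x ∈ LinearMap.range d) :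
    ∃ z, Vec P h₁ h₂ (a - 1) (c - 1) z ∧ d z = x := by
  obtain ⟨y, hy⟩ := hd
  have e1 := wproj_shift T.D₂ (g := d) 1 (by rw [T.W.h₂d]; simp) (c - 1) y
  rw [sub_add_cancel, hy, wproj_same T.D₂ hx.w₂] at e1
  have e2 := wproj_shift T.D₁ (g := d) 1 (by rw [T.W.h₁d]; simp) (a - 1) (wproj T.D₂ (c - 1) y)
  rw [sub_add_cancel, ← e1, wproj_same T.D₁ hx.w₁] at e2
  refine ⟨P (wproj T.D₁ (a - 1) (wproj T.D₂ (c - 1) y)), ⟨T.idem _, ?_, ?_⟩, ?_⟩
  · rw [apply_eq T.ch₁.eq, h_wproj, map_smul]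
  · rw [apply_eq T.ch₂.eq, ← wproj_comm T.D₁ (g := h₂) T.W.h₁h₂, h_wproj,
      map_smul, map_smul]
  · rw [apply_eq T.cd.eq, ← e2, hx.p]

/-- Injectivity of `N`. -/
lemma wi (H₁ : HasLefschetz h₁ N h₂ d) {c : ℤ} {x : E} (hx : Vec P h₁ h₂ (-1) c x) (hdx : d x = 0)
    (hN : N x ∈ LinearMap.range d) : x = 0 := by
  have h := (H₁ 1 c).1 x hdx (by simpa using hx.w₁) hx.w₂ (by simpa using hN)
  obtain ⟨z, hz, hzx⟩ := T.hom hx h
  rw [← hzx, T.low hz (by norm_num), map_zero]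

/-- Surjectivity of `N`. -/
lemma ws (H₁ : HasLefschetz h₁ N h₂ d) {c : ℤ} {y : E} (hy : Vec P h₁ h₂ 1 c y) :
    ∃ x z, Vec P h₁ h₂ (-1) c x ∧ d x = 0 ∧ Vec P h₁ h₂ 0 (c - 1) z ∧ y = N x + d z := by
  have hdy : d y = 0 := T.high (T.vd hy) (by norm_num)
  obtain ⟨x, hdx, hx₁, hx₂, hr⟩ := (H₁ 1 c).2 y hdy (by simpa using hy.w₁) hy.w₂
  have hxP : Vec P h₁ h₂ (-1) c (P x) := by
    refine ⟨T.idem x, ?_, ?_⟩
    · rw [apply_eq T.ch₁.eq, hx₁, map_smul]
      simp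
    · rw [apply_eq T.ch₂.eq, hx₂, map_smul]
  have hdP : d (P x) = 0 := by rw [apply_eq T.cd.eq, hdx, map_zero]
  obtain ⟨s, hs⟩ := hr
  have h1 : y - N (P x) = d (P s) := by
    rw [apply_eq T.cd.eq, hs, pow_one, map_sub, hy.p,
      ← apply_eq T.cN.eq]
  have h2 : Vec P h₁ h₂ 1 c (y - N (P x)) := by
    have := hy.add ((T.vN hxP).smul (-1) |>.cast (by norm_num) rfl)
    rwa [neg_one_smul, ← sub_eq_add_neg] at this
  obtain ⟨z, hz, hzx⟩ := T.hom h2 ⟨P s, h1.symm⟩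
  refine ⟨P x, z, hxP, hdP, hz.cast (by norm_num) rfl, ?_⟩
  rw [hzx]
  abel

end IsTwo

end

end Pool.Agent.H849.SF
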